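import Mathlib
import Pool.Agent.TH841.LS.Stm3
import Pool.Agent.W307.SE.Fin

/-!
# Project NO: the normal order of the 2-isogeny Selmer rank in one-parameter families

`E : y² = x (x - A) (x - B) = x³ + a x² + b x`, `a = - (A + B)`, `b = A B`. Let `2 ^ f₁` be the
number of the squarefree `b₁ ∣ b` for which `N² = b₁ M⁴ + a M² e² + (b / b₁) e⁴` is everywhere
locally solvable, and `2 ^ f₂` the same for `(a', b') = (- 2 a, a² - 4 b) = (2 (A + B), (A - B)²)`.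
The project LS gives the lower bound `f₁ ≥ (c - δ) log log M` for almost all `t`. Here: the upper
bound `f₁ ≤ (c + δ) log log M`, and `2 ^ f₂ ≤ SN A B`, the order of the 2-Selmer group, which is
bounded on average.

The upper bound: by linear algebra and the reciprocity law,
`2 ^ f₁ ≤ 2 ^ 10 * 2 ^ (#S - #C1 - #C2) * #{e | (1, e) in the 2-Selmer group}`.
-/

set_option autoImplicit false

namespace Pool.Agent.TH841.NO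

open Finset Polynomial

open Pool.Agent.TH841.LS (LocI cst)

open Pool.Agent.TH841.PT (Irr Fval)

open Pool.Agent.W262.RK (fs)

open Pool.Agent.W307.SE (Loc Sel SN)

/-- the quartic `N² = b₁ M⁴ + a M² e² + (b / b₁) e⁴` has a nontrivial solution in `K` -/
def Qu (K : Type) [Field K] (a b b₁ : ℤ) : Prop := ∃ N M e : K, (M ≠ 0 ∨ e ≠ 0) ∧
  N ^ 2 = (b₁ : K) * M ^ 4 + (a : K) * M ^ 2 * e ^ 2 + ((b / b₁ : ℤ) : K) * e ^ 4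

/-- the squarefree `b₁ ∣ b` with an everywhere locally solvable quartic -/
def SQ (a b : ℤ) : Set ℤ := {b₁ | Squarefree b₁ ∧ b₁ ∣ b ∧ Qu ℝ a b b₁ ∧
  ∀ (p : ℕ) [Fact p.Prime], Qu ℚ_[p] a b b₁}

/-- NO-QUL: the quartics and the points with `X` in the class of `b₁`. -/
def QUL : Prop := ∀ A B b₁ : ℤ, A ≠ 0 → B ≠ 0 → A ≠ B → b₁ ≠ 0 → b₁ ∣ A * B →
  (Qu ℝ (-(A + B)) (A * B) b₁ ↔ LocI ℝ A B b₁) ∧
    ∀ (p : ℕ) [Fact p.Prime], (Qu ℚ_[p] (-(A + B)) (A * B) b₁ ↔ LocI ℚ_[p] A B b₁)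

/-- NO-QUM: the quartics of the isogenous curve and the pairs `(1, b₁)`. -/
def QUM : Prop := ∀ A B b₁ : ℤ, A ≠ 0 → B ≠ 0 → A ≠ B → b₁ ≠ 0 → b₁ ∣ (A - B) ^ 2 →
  (Qu ℝ (2 * (A + B)) ((A - B) ^ 2) b₁ → Loc ℝ A B 1 b₁) ∧
    ∀ (p : ℕ) [Fact p.Prime], Qu ℚ_[p] (2 * (A + B)) ((A - B) ^ 2) b₁ → Loc ℚ_[p] A B 1 b₁

/-! ### Local solvability of `(1, e)` -/

/-- NO-LWA: good reduction. -/
def LWA : Prop := ∀ (p : ℕ) [Fact p.Prime] (A B e : ℤ), 11 ≤ p → ¬ (p : ℤ) ∣ A →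
  ¬ (p : ℤ) ∣ B → ¬ (p : ℤ) ∣ A - B → ¬ (p : ℤ) ∣ e → Loc ℚ_[p] A B 1 e

/-- NO-LWB: primes dividing `A - B`, not dividing `A`. -/
def LWB : Prop := ∀ (p : ℕ) [Fact p.Prime] (A B e : ℤ), 11 ≤ p → A ≠ B → ¬ (p : ℤ) ∣ A →
  (p : ℤ) ∣ A - B → (¬ (p : ℤ) ∣ e → Loc ℚ_[p] A B 1 e) ∧
    (jacobiSym A p = 1 → ¬ (p : ℤ) ^ 2 ∣ e → Loc ℚ_[p] A B 1 e)

/-- NO-LWC: squares, and the class of the point `(0, 0)`. -/
def LWC : Prop := ∀ A B e : ℤ, A ≠ 0 → B ≠ 0 → A ≠ B → e ≠ 0 → (0 < e → Loc ℝ A B 1 e) ∧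
  ∀ (p : ℕ) [Fact p.Prime], (IsSquare (e : ℚ_[p]) → Loc ℚ_[p] A B 1 e) ∧
    (IsSquare ((A : ℚ_[p]) * B) → IsSquare (-(A : ℚ_[p]) * e) → Loc ℚ_[p] A B 1 e)

/-! ### Necessary conditions for a local point -/

/-- the functional at a prime dividing `A` exactly once -/
def chi2 (A d : ℤ) (p : ℕ) : ℤ := if (p : ℤ) ∣ d then jacobiSym ((A / p) * (d / p)) p else
  jacobiSym d p

/-- NO-PRA: split multiplicative reduction. -/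
def PRA : Prop := ∀ (p : ℕ) [Fact p.Prime] (A B d : ℤ), p ≠ 2 → A ≠ B → ¬ (p : ℤ) ∣ A →
  (p : ℤ) ∣ A - B → jacobiSym A p = 1 → ¬ (p : ℤ) ∣ d → LocI ℚ_[p] A B d → jacobiSym d p = 1

/-- NO-PRB: primes dividing `A`, `B`, `A - B` exactly once. -/
def PRB : Prop := ∀ (p : ℕ) [Fact p.Prime] (A B d : ℤ), p ≠ 2 → (p : ℤ) ∣ A → (p : ℤ) ∣ B →
  ¬ (p : ℤ) ^ 2 ∣ A → ¬ (p : ℤ) ^ 2 ∣ B → ¬ (p : ℤ) ^ 2 ∣ A - B →
  jacobiSym ((A / p) * (B / p)) p = 1 → ¬ (p : ℤ) ^ 2 ∣ d → LocI ℚ_[p] A B d → chi2 A d p = 1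

/-! ### Linear algebra and reciprocity -/

/-- NO-LIN2: the comparison of the primal and the dual set. -/
def LIN2 : Prop := ∀ (A : ℤ) (S C1 C2 : Finset ℕ), (∀ p ∈ S, p.Prime ∧ 11 ≤ p) →
  (∀ p ∈ C1, p.Prime ∧ 11 ≤ p ∧ p ∉ S) → C2 ⊆ S → (∀ p ∈ C2, (p : ℤ) ∣ A ∧ ¬ (p : ℤ) ^ 2 ∣ A) →
  ∀ T : Finset ℤ, (∀ d ∈ T, Squarefree d ∧ (∀ p : ℕ, p.Prime → (p : ℤ) ∣ d → p ∈ S ∨ p ≤ 7) ∧
    (∀ p ∈ C1, jacobiSym d p = 1) ∧ ∀ p ∈ C2, chi2 A d p = 1) →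
  ∃ Z : Finset ℤ, (∀ e ∈ Z, Squarefree e ∧ 0 < e ∧
    (∀ p : ℕ, p.Prime → (p : ℤ) ∣ e → p ∈ C1 ∪ C2) ∧ e % 8 = 1 ∧ jacobiSym e 3 = 1 ∧
    jacobiSym e 5 = 1 ∧ jacobiSym e 7 = 1 ∧ (∀ q ∈ S, ¬ (q : ℤ) ∣ e → jacobiSym e q = 1) ∧
    ∀ q ∈ C2, (q : ℤ) ∣ e → jacobiSym (-((A / q) * (e / q))) q = 1) ∧
  T.card * 2 ^ (C1.card + C2.card) ≤ 2 ^ 10 * 2 ^ S.card * Z.card

/-! ### The counts -/

/-- the primes dividing `A B` -/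
def S2 (A B : ℤ) : Finset ℕ := (A * B).natAbs.primeFactors.filter (fun p => 11 ≤ p)

open Classical in
/-- the primes of split multiplicative reduction dividing `A - B` -/
noncomputable def C1g (A B : ℤ) : Finset ℕ := (A - B).natAbs.primeFactors.filter (fun p => 11 ≤ p ∧
  ¬ (p : ℤ) ∣ A ∧ jacobiSym A p = 1)

open Classical in
/-- the primes dividing `A`, `B`, `A - B` exactly once with a condition -/
noncomputable def C2g (A B : ℤ) : Finset ℕ := (A * B).natAbs.primeFactors.filter (fun p => 11 ≤ p ∧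
  (p : ℤ) ∣ A ∧ (p : ℤ) ∣ B ∧ ¬ (p : ℤ) ^ 2 ∣ A ∧ ¬ (p : ℤ) ^ 2 ∣ B ∧ ¬ (p : ℤ) ^ 2 ∣ A - B ∧
  jacobiSym ((A / p) * (B / p)) p = 1)

open Classical in
/-- NO-TKL: the lower bound corresponding to TKX. -/
def TKL : Prop := ∀ f w : ℤ[X], Irreducible f → 0 < f.natDegree →
  (∀ q : ℚ[X], ¬ f.map (Int.castRingHom ℚ) ∣ (q ^ 2 - w.map (Int.castRingHom ℚ))) →
  ∀ (δ ε : ℝ) (L : ℕ), 0 < δ → 0 < ε → ∃ M0 : ℕ, ∀ (N : ℤ) (M : ℕ), M0 ≤ M →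
    |N| ≤ (M : ℤ) ^ L → (((Ioc N (N + (M : ℤ))).filter (fun t => ¬
      (-(δ * Real.log (Real.log M)) ≤ ∑ p ∈ (f.eval t).natAbs.primeFactors,
        (jacobiSym (w.eval t) p : ℝ)))).card : ℝ) ≤ ε * M

open Classical in
/-- NO-CNTU: for almost all `t` the number of the free classes is at most
`(c + δ) log log M`. -/
def CNTU : Prop := ∀ (J : Type) [Fintype J] [DecidableEq J] (cls : J → Fin 4) (a : Fin 3 → ℤ)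
  (f : J → ℤ[X]), (∀ k, a k ≠ 0) → Irr f →
  C (a 0) * ∏ l ∈ fs cls 0, f l - C (a 1) * ∏ l ∈ fs cls 1, f l =
    C (a 2) * ∏ l ∈ fs cls 2, f l →
  ∀ (δ ε : ℝ) (L : ℕ), 0 < δ → 0 < ε → ∃ M0 : ℕ, ∀ (N : ℤ) (M : ℕ), M0 ≤ M →
    |N| ≤ (M : ℤ) ^ L →
    (((Ioc N (N + (M : ℤ))).filter (fun t => ¬ ((∀ j, (f j).eval t ≠ 0) ∧
      ((S2 (Fval cls a (fun l => (f l).eval t) 0)
        (Fval cls a (fun l => (f l).eval t) 1)).card : ℝ) ≤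
      ((C1g (Fval cls a (fun l => (f l).eval t) 0)
        (Fval cls a (fun l => (f l).eval t) 1)).card : ℝ) +
      ((C2g (Fval cls a (fun l => (f l).eval t) 0)
        (Fval cls a (fun l => (f l).eval t) 1)).card : ℝ) +
      (cst cls a f + δ) * Real.log (Real.log M)))).card : ℝ) ≤ ε * M

open Classical in
/-- NO-CNTU2: the same for almost all coprime pairs of short squares. -/
def CNTU2 : Prop := ∀ (D : ℤ), D ≠ 0 → ∀ (δ ε : ℝ) (L : ℕ), 0 < δ → 0 < ε →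
  ∃ X0 : ℕ, ∀ (N1 N2 : ℤ) (X : ℕ), X0 ≤ X → N1.natAbs ≤ X ^ L → N2.natAbs ≤ X ^ L →
    (((Icc 1 X ×ˢ Icc 1 X).filter (fun t : ℕ × ℕ =>
      IsCoprime (N1 + (t.1 : ℤ)) (N2 + (t.2 : ℤ)) ∧
      ¬ (N1 + (t.1 : ℤ) ≠ 0 ∧ N2 + (t.2 : ℤ) ≠ 0 ∧ N1 + (t.1 : ℤ) ≠ N2 + (t.2 : ℤ) ∧
        ((S2 (D * (N1 + (t.1 : ℤ))) (D * (N2 + (t.2 : ℤ)))).card : ℝ) ≤
        ((C1g (D * (N1 + (t.1 : ℤ))) (D * (N2 + (t.2 : ℤ)))).card : ℝ) +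
          (3 / 2 + δ) * Real.log (Real.log X)))).card : ℝ) ≤ ε * X ^ 2

end Pool.Agent.TH841.NO
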