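import Mathlib
import Pool.Agent.TH841.NO.Stm
import Pool.Agent.TH841.LS.Cnt

/-!
# Project NO: the upper bound for the counts for almost all `t`

Written by helper645 for helper841 (project NO, job 4714); it follows
`Pool/Agent/TH841/LS/Cnt.lean` of helper828.
-/

set_option autoImplicit false

namespace Pool.Agent.TH841.NO.CNTUf

open Finset Polynomial

open Pool.Agent.TH841.PT (GoodD Gp Fval Irr exists_Gp)
open Pool.Agent.TH841.PM.BADf (Ex mem_Ex tendsto_LL normal')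
open Pool.Agent.W262.RK (fs)
open Pool.Agent.TH841.LS (SqMod cst)
open Pool.Agent.TH841.LS.CNTf (Tq mem_Tq mem_Tq_prod Fval_split dvd_Fval Fval_ne size zeros markov)

/-- clearing denominators -/
lemma sqmod_int {f w : ℤ[X]} (h : ∃ q : ℚ[X], f.map (Int.castRingHom ℚ) ∣
    (q ^ 2 - w.map (Int.castRingHom ℚ))) : ∃ (D : ℤ) (q g : ℤ[X]), D ≠ 0 ∧
    q ^ 2 - C (D ^ 2) * w = f * g := by
  obtain ⟨q, r, hr⟩ := h
  obtain ⟨b1, hb1, h1⟩ := IsLocalization.integerNormalization_spec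
    (nonZeroDivisors ℤ) (S := ℚ) q
  obtain ⟨b2, hb2, h2⟩ := IsLocalization.integerNormalization_spec
    (nonZeroDivisors ℤ) (S := ℚ) r
  have hb1' := nonZeroDivisors.ne_zero hb1
  have hb2' := nonZeroDivisors.ne_zero hb2
  set q1 := IsLocalization.integerNormalization (nonZeroDivisors ℤ) q
  set r1 := IsLocalization.integerNormalization (nonZeroDivisors ℤ) r
  have e1 : q1.map (Int.castRingHom ℚ) = C (b1 : ℚ) * q := by
    rw [← algebraMap_int_eq, h1]
    rw [Polynomial.C_mul']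
    ext n
    simp
  have e2 : r1.map (Int.castRingHom ℚ) = C (b2 : ℚ) * r := by
    rw [← algebraMap_int_eq, h2]
    rw [Polynomial.C_mul']
    ext n
    simp
  refine ⟨b1 * b2, C b2 * q1, C (b1 ^ 2 * b2) * r1, mul_ne_zero hb1' hb2', ?_⟩
  apply Polynomial.map_injective (Int.castRingHom ℚ) Int.cast_injective
  simp only [Polynomial.map_sub, Polynomial.map_mul, Polynomial.map_pow, Polynomial.map_C, e1, e2]
  have e3 : w.map (Int.castRingHom ℚ) = q ^ 2 - f.map (Int.castRingHom ℚ) * r := by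
    rw [← hr]; ring
  rw [e3]
  simp only [eq_intCast, Int.cast_mul, Int.cast_pow, C_mul, C_pow]
  ring

lemma jac_one {f w q g : ℤ[X]} {D : ℤ} (h : q ^ 2 - C (D ^ 2) * w = f * g) {p : ℕ} (hp : p.Prime)
    (hpD : ¬ (p : ℤ) ∣ D) {t : ℤ} (hf : (p : ℤ) ∣ f.eval t) (hw : ¬ (p : ℤ) ∣ w.eval t) :
    jacobiSym (w.eval t) p = 1 := by
  have hpi := Nat.prime_iff_prime_int.1 hp
  have e1 : (q.eval t) ^ 2 - D ^ 2 * w.eval t = f.eval t * g.eval t := by
    have := congrArg (Polynomial.eval t) h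
    simpa using this
  have e2 : (p : ℤ) ∣ (q.eval t) ^ 2 - D ^ 2 * w.eval t := by
    rw [e1]; exact hf.mul_right _
  have e3 : ¬ (p : ℤ) ∣ q.eval t := by
    intro h3
    have h4 : (p : ℤ) ∣ D ^ 2 * w.eval t := by
      have h5 : (p : ℤ) ∣ (q.eval t) ^ 2 := dvd_pow h3 two_ne_zero
      have h6 := dvd_sub h5 e2
      rwa [sub_sub_cancel] at h6
    rcases hpi.dvd_or_dvd h4 with h5 | h5
    · exact hpD (hpi.dvd_of_dvd_pow h5)
    · exact hw h5
  have e4 : jacobiSym (D ^ 2 * w.eval t) p = jacobiSym ((q.eval t) ^ 2) p := by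
    apply jacobiSym.mod_left'
    exact Int.modEq_iff_dvd.2 e2
  have g1 : ∀ x : ℤ, ¬ (p : ℤ) ∣ x → jacobiSym (x ^ 2) p = 1 := by
    intro x hx
    apply jacobiSym.sq_one'
    rw [← Int.isCoprime_iff_gcd_eq_one]
    exact ((hpi.coprime_iff_not_dvd).2 hx).symm
  rw [jacobiSym.mul_left, g1 _ hpD, g1 _ e3, one_mul] at e4
  exact e4

lemma jac_le (w : ℤ) (p : ℕ) : jacobiSym w p ≤ 1 := by
  rcases jacobiSym.trichotomy w p with h | h | h <;> rw [h] <;> norm_num

lemma jac_ge (w : ℤ) (p : ℕ) : -1 ≤ jacobiSym w p := by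
  rcases jacobiSym.trichotomy w p with h | h | h <;> rw [h] <;> norm_num

lemma jac_neg {w : ℤ} {p : ℕ} (hp : p.Prime) (hw : ¬ (p : ℤ) ∣ w) (h : jacobiSym w p ≠ 1) :
    jacobiSym w p ≤ -1 := by
  rcases jacobiSym.trichotomy w p with h1 | h1 | h1
  · exfalso
    have : NeZero p := ⟨hp.ne_zero⟩
    rw [jacobiSym.eq_zero_iff_not_coprime] at h1
    apply h1
    rw [← Int.isCoprime_iff_gcd_eq_one]
    exact (((Nat.prime_iff_prime_int.1 hp).coprime_iff_not_dvd).2 hw).symm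
  · exact absurd h1 h
  · exact h1.le

lemma half_count (Q Bad G : Finset ℕ) (s : ℕ → ℤ) (h1 : ∀ p ∈ Q, s p ≤ 1)
    (h2 : ∀ p ∈ Q, p ∉ Bad → p ∉ G → s p ≤ -1) :
    ((Q.card : ℝ) + ∑ p ∈ Q, (s p : ℝ)) / 2 ≤ (G.card : ℝ) + Bad.card := by
  classical
  have e1 : ∀ p ∈ Q, (1 + (s p : ℝ)) / 2 ≤ (if p ∈ G then (1 : ℝ) else 0) +
      (if p ∈ Bad then (1 : ℝ) else 0) := by
    intro p hp
    have h3 : (s p : ℝ) ≤ 1 := by exact_mod_cast h1 p hp
    by_cases hG : p ∈ G
    · rw [if_pos hG]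
      split_ifs <;> linarith
    · by_cases hB : p ∈ Bad
      · rw [if_neg hG, if_pos hB]
        linarith
      · rw [if_neg hG, if_neg hB]
        have h4 : (s p : ℝ) ≤ -1 := by exact_mod_cast h2 p hp hB hG
        linarith
  have e2 := sum_le_sum e1
  rw [← sum_div, sum_add_distrib, sum_const, nsmul_eq_mul, mul_one, sum_add_distrib] at e2
  refine e2.trans ?_
  have e3 : ∀ G : Finset ℕ, ∑ p ∈ Q, (if p ∈ G then (1 : ℝ) else 0) ≤ G.card := by
    intro G
    rw [← sum_filter, sum_const, nsmul_eq_mul, mul_one]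
    have : (Q.filter (fun p => p ∈ G)).card ≤ G.card := card_le_card fun p hp => (mem_filter.1 hp).2
    exact_mod_cast this
  exact add_le_add (e3 G) (e3 Bad)

section det

variable {J : Type} [Fintype J] [DecidableEq J]

/-- the primes of exact order one with symbol one -/
noncomputable def Gj (f w : ℤ[X]) (z : ℕ) (t : ℤ) : Finset ℕ := by
  classical
  exact (f.eval t).natAbs.primeFactors.filter
    (fun p => z < p ∧ ¬ ((p ^ 2 : ℕ) : ℤ) ∣ f.eval t ∧ jacobiSym (w.eval t) p = 1)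

lemma mem_Gj {f w : ℤ[X]} {z : ℕ} {t : ℤ} {p : ℕ} (h0 : f.eval t ≠ 0) :
    p ∈ Gj f w z t ↔ p.Prime ∧ (p : ℤ) ∣ f.eval t ∧ z < p ∧ ¬ ((p ^ 2 : ℕ) : ℤ) ∣ f.eval t ∧
      jacobiSym (w.eval t) p = 1 := by
  classical
  unfold Gj
  rw [mem_filter, Nat.mem_primeFactors, ← Int.natCast_dvd]
  constructor
  · rintro ⟨⟨h1, h2, _⟩, h3, h4, h5⟩
    exact ⟨h1, h2, h3, h4, h5⟩
  · rintro ⟨h1, h2, h3, h4, h5⟩
    exact ⟨⟨h1, h2, Int.natAbs_ne_zero.2 h0⟩, h3, h4, h5⟩

lemma bad_card (f : J → ℤ[X]) (z : ℕ) (t : ℤ) :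
    (((range (z + 1) ∪ Tq (∏ j, f j) z t).card : ℕ) : ℝ) ≤
      ((z : ℝ) + 1) + ((Tq (∏ j, f j) z t).card : ℝ) := by
  have h := card_union_le (range (z + 1)) (Tq (∏ j, f j) z t)
  rw [card_range] at h
  exact_mod_cast h

lemma Gj_half {f : J → ℤ[X]} {w : ℤ[X]} {z : ℕ} {t : ℤ} {j : J} (h0 : ∀ j, (f j).eval t ≠ 0)
    (hw : ∀ p : ℕ, p.Prime → z < p → (p : ℤ) ∣ (f j).eval t → ¬ (p : ℤ) ∣ w.eval t) :
    ((((f j).eval t).natAbs.primeFactors.card : ℝ) +
      ∑ p ∈ ((f j).eval t).natAbs.primeFactors, (jacobiSym (w.eval t) p : ℝ)) / 2 ≤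
      ((Gj (f j) w z t).card : ℝ) + (((z : ℝ) + 1) + ((Tq (∏ j, f j) z t).card : ℝ)) := by
  classical
  refine (half_count _ (range (z + 1) ∪ Tq (∏ j, f j) z t) (Gj (f j) w z t)
    (fun p => jacobiSym (w.eval t) p) (fun p _ => jac_le _ _) ?_).trans
    (add_le_add le_rfl (bad_card f z t))
  intro p hp hB hGp
  rw [Nat.mem_primeFactors, ← Int.natCast_dvd] at hp
  rw [mem_union, not_or, mem_range] at hB
  have hz : z < p := by omega
  refine jac_neg hp.1 (hw p hp.1 hz hp.2.1) fun h1 => hGp ?_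
  rw [mem_Gj (h0 j)]
  exact ⟨hp.1, hp.2.1, hz, fun h2 => hB.2 (mem_Tq_prod h0 hp.1 hz h2), h1⟩

lemma Gj_full {f : J → ℤ[X]} {w : ℤ[X]} {z : ℕ} {t : ℤ} {j : J} (h0 : ∀ j, (f j).eval t ≠ 0)
    (hw : ∀ p : ℕ, p.Prime → z < p → (p : ℤ) ∣ (f j).eval t → jacobiSym (w.eval t) p = 1) :
    (((f j).eval t).natAbs.primeFactors.card : ℝ) ≤
      ((Gj (f j) w z t).card : ℝ) + (((z : ℝ) + 1) + ((Tq (∏ j, f j) z t).card : ℝ)) := by
  classical
  have h1 : ((f j).eval t).natAbs.primeFactors ⊆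
      Gj (f j) w z t ∪ (range (z + 1) ∪ Tq (∏ j, f j) z t) := by
    intro p hp
    rw [Nat.mem_primeFactors, ← Int.natCast_dvd] at hp
    rw [mem_union, mem_union, mem_range]
    by_cases hpz : p < z + 1
    · exact Or.inr (Or.inl hpz)
    · by_cases hp2 : ((p ^ 2 : ℕ) : ℤ) ∣ (f j).eval t
      · exact Or.inr (Or.inr (mem_Tq_prod h0 hp.1 (by omega) hp2))
      · exact Or.inl ((mem_Gj (h0 j)).2 ⟨hp.1, hp.2.1, by omega, hp2,
          hw p hp.1 (by omega) hp.2.1⟩)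
  have h2 : ((((f j).eval t).natAbs.primeFactors.card : ℕ) : ℝ) ≤
      ((Gj (f j) w z t).card : ℝ) + ((range (z + 1) ∪ Tq (∏ j, f j) z t).card : ℝ) := by
    exact_mod_cast (card_le_card h1).trans (card_union_le _ _)
  exact h2.trans (add_le_add le_rfl (bad_card f z t))

/-- the polynomial of the symbol -/
noncomputable def W (cls : J → Fin 4) (a : Fin 3 → ℤ) (f : J → ℤ[X]) (j : J) : ℤ[X] :=
  if cls j = 2 then C (a 0) * ∏ l ∈ fs cls 0, f l else
    C (a 0 * a 1) * ((∏ l ∈ univ.filter (fun l => cls l = 0), f l) *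
      ∏ l ∈ univ.filter (fun l => cls l = 1), f l)

lemma W_ndvd {cls : J → Fin 4} {a : Fin 3 → ℤ} {f : J → ℤ[X]} {z c : ℕ} (h : Gp a f z c)
    {j : J} (hj : cls j = 2 ∨ cls j = 3) {t : ℤ} {p : ℕ} (hp : p.Prime) (hz : z < p)
    (hpj : (p : ℤ) ∣ (f j).eval t) : ¬ (p : ℤ) ∣ (W cls a f j).eval t := by
  have hpi := Nat.prime_iff_prime_int.1 hp
  have key : ∀ l, cls l ≠ cls j → ¬ (p : ℤ) ∣ (f l).eval t := fun l hl h1 =>
    h.pair p hp hz j l (fun e => hl (by rw [e])) t ⟨hpj, h1⟩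
  unfold W
  split_ifs with h2
  · rw [eval_mul, eval_C, eval_prod]
    intro h3
    rcases hpi.dvd_or_dvd h3 with h3 | h3
    · exact h.const p hp hz _ h3
    · obtain ⟨l, hl, h4⟩ := (hpi.dvd_finsetProd_iff _).1 h3
      refine key l ?_ h4
      unfold fs at hl
      rw [mem_filter] at hl
      rw [h2]
      rcases hl.2 with e | e <;> rw [e] <;> decide
  · have h3 : cls j = 3 := hj.resolve_left h2
    rw [eval_mul, eval_C, eval_mul, eval_prod, eval_prod]
    intro h4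
    rcases hpi.dvd_or_dvd h4 with h4 | h4
    · rcases hpi.dvd_or_dvd h4 with h4 | h4
      · exact h.const p hp hz _ h4
      · exact h.const p hp hz _ h4
    · rcases hpi.dvd_or_dvd h4 with h4 | h4
      · obtain ⟨l, hl, h5⟩ := (hpi.dvd_finsetProd_iff _).1 h4
        refine key l ?_ h5
        rw [h3, (mem_filter.1 hl).2]
        decide
      · obtain ⟨l, hl, h5⟩ := (hpi.dvd_finsetProd_iff _).1 h4
        refine key l ?_ h5
        rw [h3, (mem_filter.1 hl).2]
        decide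

/-- the upper bound for `S2` -/
lemma S2_le {cls : J → Fin 4} {a : Fin 3 → ℤ} {f : J → ℤ[X]} {z c : ℕ} (h : Gp a f z c)
    {t : ℤ} (h0 : ∀ j, (f j).eval t ≠ 0) :
    (S2 (Fval cls a (fun l => (f l).eval t) 0) (Fval cls a (fun l => (f l).eval t) 1)).card ≤
      ∑ j ∈ univ.filter (fun j => cls j ≠ 2), ((f j).eval t).natAbs.primeFactors.card +
        (z + 1) := by
  classical
  set x : J → ℤ := fun l => (f l).eval t with hx
  have h1 : S2 (Fval cls a x 0) (Fval cls a x 1) ⊆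
      (univ.filter (fun j => cls j ≠ 2)).biUnion
        (fun j => ((f j).eval t).natAbs.primeFactors) ∪ range (z + 1) := by
    intro p hp
    unfold S2 at hp
    rw [mem_filter, Nat.mem_primeFactors, ← Int.natCast_dvd] at hp
    obtain ⟨⟨hp1, hp2, _⟩, hp3⟩ := hp
    rw [mem_union, mem_range]
    by_cases hpz : p < z + 1
    · exact Or.inr hpz
    · have hpz' : z < p := by omega
      have hpi := Nat.prime_iff_prime_int.1 hp1
      left
      rw [mem_biUnion]
      rcases hpi.dvd_or_dvd hp2 with h2 | h2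
      · obtain ⟨l, hl, h3⟩ := dvd_Fval h hp1 hpz' h2
        refine ⟨l, mem_filter.2 ⟨mem_univ _, ?_⟩, ?_⟩
        · unfold fs at hl
          rw [mem_filter] at hl
          rcases hl.2 with e | e <;> rw [e] <;> decide
        · rw [Nat.mem_primeFactors, ← Int.natCast_dvd]
          exact ⟨hp1, h3, Int.natAbs_ne_zero.2 (h0 l)⟩
      · obtain ⟨l, hl, h3⟩ := dvd_Fval h hp1 hpz' h2
        refine ⟨l, mem_filter.2 ⟨mem_univ _, ?_⟩, ?_⟩
        · unfold fs at hl
          rw [mem_filter] at hl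
          rcases hl.2 with e | e <;> rw [e] <;> decide
        · rw [Nat.mem_primeFactors, ← Int.natCast_dvd]
          exact ⟨hp1, h3, Int.natAbs_ne_zero.2 (h0 l)⟩
  refine (card_le_card h1).trans ((card_union_le _ _).trans (Nat.add_le_add card_biUnion_le ?_))
  rw [card_range]

lemma W_two {cls : J → Fin 4} {a : Fin 3 → ℤ} {f : J → ℤ[X]} {j : J} (hj : cls j = 2) (t : ℤ) :
    (W cls a f j).eval t = Fval cls a (fun l => (f l).eval t) 0 := by
  unfold W Fval
  rw [if_pos hj, eval_mul, eval_C, eval_prod]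

/-- the lower bound for `C1g` -/
lemma C1g_ge {cls : J → Fin 4} {a : Fin 3 → ℤ} {f : J → ℤ[X]} {z c : ℕ} (h : Gp a f z c)
    (hz11 : 11 ≤ z) (ha : ∀ k, a k ≠ 0) {t : ℤ} (h0 : ∀ j, (f j).eval t ≠ 0)
    (hsub : Fval cls a (fun l => (f l).eval t) 0 - Fval cls a (fun l => (f l).eval t) 1 =
      Fval cls a (fun l => (f l).eval t) 2) :
    ∑ j ∈ univ.filter (fun j => cls j = 2), (Gj (f j) (W cls a f j) z t).card ≤
      (C1g (Fval cls a (fun l => (f l).eval t) 0) (Fval cls a (fun l => (f l).eval t) 1)).card := by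
  classical
  rw [← card_biUnion]
  · refine card_le_card ?_
    intro p hp
    rw [mem_biUnion] at hp
    obtain ⟨j, hj, hpj⟩ := hp
    rw [mem_filter] at hj
    rw [mem_Gj (h0 j)] at hpj
    obtain ⟨hp1, hp2, hp3, hp4, hp5⟩ := hpj
    have hnd := W_ndvd (cls := cls) h (Or.inl hj.2) hp1 hp3 hp2
    rw [W_two hj.2] at hp5 hnd
    have hjk : j ∈ fs cls 2 := by
      unfold fs
      rw [mem_filter]
      exact ⟨mem_univ _, Or.inl (by rw [hj.2]; rfl)⟩
    obtain ⟨R, hR1, hR2⟩ := Fval_split h hp1 hp3 hp2 hjk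
    unfold C1g
    rw [mem_filter, Nat.mem_primeFactors, ← Int.natCast_dvd, hsub]
    refine ⟨⟨hp1, ?_, Int.natAbs_ne_zero.2 (Fval_ne ha h0 2)⟩, by omega, hnd, hp5⟩
    rw [hR2]
    exact hp2.mul_left R
  · intro j _ l _ hjl
    rw [Function.onFun, disjoint_left]
    intro p hp hp'
    rw [mem_Gj (h0 _)] at hp hp'
    exact h.pair p hp.1 hp.2.2.1 j l hjl t ⟨hp.2.1, hp'.2.1⟩

lemma prod_fs {cls : J → Fin 4} (x : J → ℤ) (k : Fin 3) : ∏ l ∈ fs cls k, x l =
    (∏ l ∈ univ.filter (fun l => cls l = k.castSucc), x l) *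
      ∏ l ∈ univ.filter (fun l => cls l = 3), x l := by
  unfold fs
  rw [filter_or, prod_union]
  rw [disjoint_left]
  intro l hl hl'
  rw [mem_filter] at hl hl'
  have h := hl.2.symm.trans hl'.2
  revert h
  fin_cases k <;> decide

lemma not_sq_dvd {p : ℕ} (hp : p.Prime) {x R : ℤ} (hx2 : ¬ ((p ^ 2 : ℕ) : ℤ) ∣ x)
    (hR : ¬ (p : ℤ) ∣ R) : ¬ (p : ℤ) ^ 2 ∣ R * x := by
  intro h
  apply hx2
  push_cast
  have h5 : IsCoprime ((p : ℤ) ^ 2) R :=
    ((Nat.prime_iff_prime_int.1 hp).coprime_iff_not_dvd.2 hR).pow_left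
  exact h5.dvd_of_dvd_mul_left h

/-- the lower bound for `C2g` -/
lemma C2g_ge {cls : J → Fin 4} {a : Fin 3 → ℤ} {f : J → ℤ[X]} {z c : ℕ} (h : Gp a f z c)
    (hz11 : 11 ≤ z) (ha : ∀ k, a k ≠ 0) {t : ℤ} (h0 : ∀ j, (f j).eval t ≠ 0)
    (hsub : Fval cls a (fun l => (f l).eval t) 0 - Fval cls a (fun l => (f l).eval t) 1 =
      Fval cls a (fun l => (f l).eval t) 2) :
    ∑ j ∈ univ.filter (fun j => cls j = 3), (Gj (f j) (W cls a f j) z t).card ≤
      (C2g (Fval cls a (fun l => (f l).eval t) 0) (Fval cls a (fun l => (f l).eval t) 1)).card := by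
  classical
  rw [← card_biUnion]
  · refine card_le_card ?_
    intro p hp
    rw [mem_biUnion] at hp
    obtain ⟨j, hj, hpj⟩ := hp
    rw [mem_filter] at hj
    rw [mem_Gj (h0 j)] at hpj
    obtain ⟨hp1, hp2, hp3, hp4, hp5⟩ := hpj
    have hpi := Nat.prime_iff_prime_int.1 hp1
    have hjk : ∀ k, j ∈ fs cls k := by
      intro k
      unfold fs
      rw [mem_filter]
      exact ⟨mem_univ _, Or.inr hj.2⟩
    obtain ⟨R0, hR0, hR0'⟩ := Fval_split h hp1 hp3 hp2 (hjk 0)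
    obtain ⟨R1, hR1, hR1'⟩ := Fval_split h hp1 hp3 hp2 (hjk 1)
    obtain ⟨R2, hR2, hR2'⟩ := Fval_split h hp1 hp3 hp2 (hjk 2)
    obtain ⟨y, hy⟩ := hp2
    have hyp : ¬ (p : ℤ) ∣ y := by
      rintro ⟨u, hu⟩
      apply hp4
      rw [hy, hu]
      push_cast
      exact ⟨u, by ring⟩
    obtain ⟨E, hE⟩ : ∃ E : ℤ, E = ∏ l ∈ (univ.filter (fun l => cls l = 3)).erase j,
      (f l).eval t := ⟨_, rfl⟩
    have hEp : ¬ (p : ℤ) ∣ E := by
      rw [hE]
      intro h1
      obtain ⟨l, hl, h2⟩ := (hpi.dvd_finsetProd_iff _).1 h1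
      exact h.pair p hp1 hp3 j l (ne_of_mem_erase hl).symm t ⟨⟨y, hy⟩, h2⟩
    have h3 : ∏ l ∈ univ.filter (fun l => cls l = 3), (f l).eval t = p * (y * E) := by
      rw [← mul_prod_erase _ _ (mem_filter.2 ⟨mem_univ j, hj.2⟩), hy, hE]
      ring
    have hp0 : (p : ℤ) ≠ 0 := by exact_mod_cast hp1.ne_zero
    have hA : Fval cls a (fun l => (f l).eval t) 0 / p =
        a 0 * (∏ l ∈ univ.filter (fun l => cls l = 0), (f l).eval t) * (y * E) := by
      unfold Fval
      rw [prod_fs, h3]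
      rw [show a 0 * ((∏ l ∈ univ.filter (fun l => cls l = Fin.castSucc 0), (f l).eval t) *
        (p * (y * E))) = p * (a 0 * (∏ l ∈ univ.filter (fun l => cls l = 0), (f l).eval t) *
          (y * E)) by
        rw [Fin.castSucc_zero]; ring]
      exact Int.mul_ediv_cancel_left _ hp0
    have hB : Fval cls a (fun l => (f l).eval t) 1 / p =
        a 1 * (∏ l ∈ univ.filter (fun l => cls l = 1), (f l).eval t) * (y * E) := by
      unfold Fval
      rw [prod_fs, h3]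
      rw [show a 1 * ((∏ l ∈ univ.filter (fun l => cls l = Fin.castSucc 1), (f l).eval t) *
        (p * (y * E))) = p * (a 1 * (∏ l ∈ univ.filter (fun l => cls l = 1), (f l).eval t) *
          (y * E)) by
        rw [show Fin.castSucc (1 : Fin 3) = (1 : Fin 4) from rfl]; ring]
      exact Int.mul_ediv_cancel_left _ hp0
    have hne2 : ¬ cls j = 2 := by rw [hj.2]; decide
    have hW : (W cls a f j).eval t =
        (a 0 * a 1) * ((∏ l ∈ univ.filter (fun l => cls l = 0), (f l).eval t) *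
          ∏ l ∈ univ.filter (fun l => cls l = 1), (f l).eval t) := by
      unfold W
      rw [if_neg hne2, eval_mul, eval_C, eval_mul, eval_prod, eval_prod]
    have hprod : (Fval cls a (fun l => (f l).eval t) 0 / p) *
        (Fval cls a (fun l => (f l).eval t) 1 / p) = (W cls a f j).eval t * (y * E) ^ 2 := by
      rw [hA, hB, hW]
      ring
    have hyE : ¬ (p : ℤ) ∣ y * E := fun h1 => (hpi.dvd_or_dvd h1).elim hyp hEp
    unfold C2g
    rw [mem_filter, Nat.mem_primeFactors, ← Int.natCast_dvd, hsub]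
    refine ⟨⟨hp1, ?_, Int.natAbs_ne_zero.2 (mul_ne_zero (Fval_ne ha h0 0) (Fval_ne ha h0 1))⟩,
      by omega, ?_, ?_, ?_, ?_, ?_, ?_⟩
    · refine Dvd.dvd.mul_right ?_ _
      rw [hR0']
      exact Dvd.dvd.mul_left ⟨y, hy⟩ _
    · rw [hR0']
      exact Dvd.dvd.mul_left ⟨y, hy⟩ _
    · rw [hR1']
      exact Dvd.dvd.mul_left ⟨y, hy⟩ _
    · rw [hR0']
      exact not_sq_dvd hp1 hp4 hR0
    · rw [hR1']
      exact not_sq_dvd hp1 hp4 hR1
    · rw [hR2']
      exact not_sq_dvd hp1 hp4 hR2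
    · rw [hprod, jacobiSym.mul_left, hp5, one_mul]
      apply jacobiSym.sq_one'
      rw [← Int.isCoprime_iff_gcd_eq_one]
      exact ((hpi.coprime_iff_not_dvd).2 hyE).symm
  · intro j _ l _ hjl
    rw [Function.onFun, disjoint_left]
    intro p hp hp'
    rw [mem_Gj (h0 _)] at hp hp'
    exact h.pair p hp.1 hp.2.2.1 j l hjl t ⟨hp.2.1, hp'.2.1⟩

end det

/-- the arithmetic of the final step -/
lemma arith {n n0 n1 n2 n3 s2 q3 δ δ' LL z T S C1 C2 Ssum G2 G3 : ℝ}
    (h0 : 0 ≤ n0) (h1 : 0 ≤ n1) (h2 : 0 ≤ n2) (h3 : 0 ≤ n3) (hn : n0 + n1 + n2 + n3 ≤ n)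
    (hδ' : 0 ≤ δ') (hLL : 0 ≤ LL)
    (hz : 0 ≤ z) (hδn : (3 * n + 1) * δ' = δ / 2) (hbig : (n + 1) * (z + 1) ≤ δ / 2 * LL)
    (hT : T ≤ δ' * LL) (hSs : Ssum ≤ (n0 + n1 + n3) * (LL + δ' * LL)) (hS : S ≤ Ssum + (z + 1))
    (hG2 : n2 * (LL / 2) + s2 * (LL / 2) - n2 * (δ' * LL + ((z + 1) + T)) ≤ G2)
    (hG3 : n3 * LL - q3 * (LL / 2) - n3 * (δ' * LL + ((z + 1) + T)) ≤ G3)
    (hC1 : G2 ≤ C1) (hC2 : G3 ≤ C2) :
    S ≤ C1 + C2 + (n0 + n1 - (n2 + s2) / 2 + q3 / 2 + δ) * LL := by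
  have hP : 0 ≤ δ' * LL := mul_nonneg hδ' hLL
  have e1 : (n0 + n1 + n3) * (δ' * LL) ≤ n * (δ' * LL) :=
    mul_le_mul_of_nonneg_right (by linarith) hP
  have e2 : (n2 + n3) * (δ' * LL) ≤ n * (δ' * LL) := mul_le_mul_of_nonneg_right (by linarith) hP
  have e3 : (n2 + n3) * T ≤ (n2 + n3) * (δ' * LL) := mul_le_mul_of_nonneg_left hT (by linarith)
  have e4 : (n2 + n3) * (z + 1) ≤ n * (z + 1) := mul_le_mul_of_nonneg_right (by linarith)
    (by linarith)
  have e5 : (3 * n + 1) * (δ' * LL) = δ / 2 * LL := by rw [← mul_assoc, hδn]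
  nlinarith

theorem cntu_aux {J : Type} [Fintype J] [DecidableEq J] (cls : J → Fin 4) (a : Fin 3 → ℤ)
    (f : J → ℤ[X]) (ha : ∀ k, a k ≠ 0) (hf0 : ∀ j, f j ≠ 0)
    (hF : C (a 0) * ∏ l ∈ fs cls 0, f l - C (a 1) * ∏ l ∈ fs cls 1, f l =
      C (a 2) * ∏ l ∈ fs cls 2, f l) (z c : ℕ) (hG : Gp a f z c) (hz11 : 11 ≤ z)
    (hsq : ∀ j : J, SqMod (f j) (W cls a f j) → ∀ (p : ℕ) (t : ℤ), p.Prime → z < p →
      (p : ℤ) ∣ (f j).eval t → ¬ (p : ℤ) ∣ (W cls a f j).eval t →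
      jacobiSym ((W cls a f j).eval t) p = 1)
    (n0 n1 n2 n3 s2 q3 : ℕ) (hn0 : n0 = (univ.filter (fun j => cls j = 0)).card)
    (hn1 : n1 = (univ.filter (fun j => cls j = 1)).card)
    (hn2 : n2 = (univ.filter (fun j => cls j = 2)).card)
    (hn3 : n3 = (univ.filter (fun j => cls j = 3)).card)
    (hs2 : ∀ T : Finset J, (∀ j, j ∈ T ↔ cls j = 2 ∧ SqMod (f j) (W cls a f j)) → s2 = T.card)
    (hq3 : ∀ T : Finset J, (∀ j, j ∈ T ↔ cls j = 3 ∧ ¬ SqMod (f j) (W cls a f j)) → q3 = T.card)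
    (δ ε : ℝ) (L : ℕ) (hδ : 0 < δ) (hε : 0 < ε)
    (hnorm : ∀ (j : J) (δ ε : ℝ), 0 < δ → 0 < ε → ∃ M0 : ℕ, ∀ (N : ℤ) (M : ℕ), M0 ≤ M →
      |N| ≤ (M : ℤ) ^ L → ((Ex (f j) N M δ).card : ℝ) ≤ ε * M)
    (htk : ∀ (j : J) (δ ε : ℝ), 0 < δ → 0 < ε → ∃ M0 : ℕ, ∀ (N : ℤ) (M : ℕ), M0 ≤ M →
      |N| ≤ (M : ℤ) ^ L → ∀ S : Finset ℤ, (∀ t ∈ S, t ∈ Ioc N (N + (M : ℤ)) ∧
        ¬ SqMod (f j) (W cls a f j) ∧
        ¬ (-(δ * Real.log (Real.log M)) ≤ ∑ p ∈ ((f j).eval t).natAbs.primeFactors,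
          (jacobiSym ((W cls a f j).eval t) p : ℝ))) → (S.card : ℝ) ≤ ε * M) :
    ∃ M0 : ℕ, ∀ (N : ℤ) (M : ℕ), M0 ≤ M → |N| ≤ (M : ℤ) ^ L → ∀ S : Finset ℤ,
    (∀ t ∈ S, t ∈ Ioc N (N + (M : ℤ)) ∧ ¬ ((∀ j, (f j).eval t ≠ 0) ∧
      ((S2 (Fval cls a (fun l => (f l).eval t) 0)
        (Fval cls a (fun l => (f l).eval t) 1)).card : ℝ) ≤
      ((C1g (Fval cls a (fun l => (f l).eval t) 0)
        (Fval cls a (fun l => (f l).eval t) 1)).card : ℝ) +
      ((C2g (Fval cls a (fun l => (f l).eval t) 0)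
        (Fval cls a (fun l => (f l).eval t) 1)).card : ℝ) +
      ((n0 : ℝ) + n1 - ((n2 : ℝ) + s2) / 2 + (q3 : ℝ) / 2 + δ) * Real.log (Real.log M))) →
      (S.card : ℝ) ≤ ε * M := by
  classical
  have hD0 : (∏ j, f j) ≠ 0 := prod_ne_zero_iff.2 fun j _ => hf0 j
  obtain ⟨b, M1, hsize⟩ := size (∏ j, f j) L
  obtain ⟨n, hn⟩ : ∃ n : ℕ, n = Fintype.card J := ⟨_, rfl⟩
  obtain ⟨δ', hδ'⟩ : ∃ δ' : ℝ, δ' = δ / (2 * (3 * n + 1)) := ⟨_, rfl⟩
  have hδ'0 : 0 < δ' := by rw [hδ']; positivity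
  choose M2 hM2 using fun j : J => hnorm j δ' (ε / (4 * (n + 1))) hδ'0 (by positivity)
  choose M4 hM4 using fun j : J => htk j δ' (ε / (4 * (n + 1))) hδ'0 (by positivity)
  have e1 := tendsto_LL.eventually_ge_atTop (2 * ((n + 1) * (z + 1)) / δ)
  have e2 := tendsto_LL.eventually_ge_atTop (4 * (2 * c + b) / (δ' * ε))
  have e3 := tendsto_LL.eventually_ge_atTop 1
  have e4 : ∀ᶠ M : ℕ in Filter.atTop, 4 * ((∏ j, f j).natDegree : ℝ) / ε ≤ M :=
    tendsto_natCast_atTop_atTop.eventually_ge_atTop _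
  obtain ⟨M3, hM3⟩ := Filter.eventually_atTop.1 (e1.and (e2.and (e3.and e4)))
  refine ⟨M1 + ∑ j, M2 j + ∑ j, M4 j + M3 + z, fun N M hM hN S hS => ?_⟩
  obtain ⟨h1, h2, h3, h4⟩ := hM3 M (by omega)
  obtain ⟨LL, hLL⟩ : ∃ LL : ℝ, LL = Real.log (Real.log M) := ⟨_, rfl⟩
  rw [← hLL] at h1 h2 h3
  have hsub : ∀ t, Fval cls a (fun l => (f l).eval t) 0 - Fval cls a (fun l => (f l).eval t) 1 =
      Fval cls a (fun l => (f l).eval t) 2 := by
    intro t
    have h5 := congrArg (Polynomial.eval t) hF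
    rw [eval_sub, eval_mul, eval_mul, eval_mul, eval_C, eval_C, eval_C, eval_prod, eval_prod,
      eval_prod] at h5
    exact h5
  set S0 := (Ioc N (N + (M : ℤ))).filter (fun t => (∏ j, f j).eval t = 0) with hS0
  set S1 := univ.biUnion (fun j => Ex (f j) N M δ') with hS1
  set S2' := (Ioc N (N + (M : ℤ))).filter (fun t => (∏ j, f j).eval t ≠ 0 ∧
    δ' * LL < ((Tq (∏ j, f j) z t).card : ℝ)) with hS2'
  set Y : J → Finset ℤ := fun j => (Ioc N (N + (M : ℤ))).filter (fun t =>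
    ¬ SqMod (f j) (W cls a f j) ∧
      ¬ (-(δ' * Real.log (Real.log M)) ≤ ∑ p ∈ ((f j).eval t).natAbs.primeFactors,
          (jacobiSym ((W cls a f j).eval t) p : ℝ))) with hY
  set S3 := univ.biUnion Y with hS3
  have hcard : n0 + n1 + n2 + n3 ≤ n := by
    have e : (univ : Finset J) = (((univ.filter (fun j => cls j = 0)) ∪
      (univ.filter (fun j => cls j = 1))) ∪ (univ.filter (fun j => cls j = 2))) ∪
        (univ.filter (fun j => cls j = 3)) := by
      ext j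
      simp only [mem_union, mem_filter, mem_univ, true_and, true_iff]
      have : ∀ x : Fin 4, ((x = 0 ∨ x = 1) ∨ x = 2) ∨ x = 3 := by decide
      exact this (cls j)
    rw [hn, ← card_univ, e, card_union_of_disjoint, card_union_of_disjoint,
      card_union_of_disjoint, hn0, hn1, hn2, hn3]
    · rw [disjoint_left]
      intro j hj hj'
      rw [mem_filter] at hj hj'
      exact absurd (hj.2.symm.trans hj'.2) (by decide)
    · rw [disjoint_left]
      intro j hj hj'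
      rw [mem_union, mem_filter, mem_filter] at hj
      rw [mem_filter] at hj'
      rcases hj with hj | hj <;> exact absurd (hj.2.symm.trans hj'.2) (by decide)
    · rw [disjoint_left]
      intro j hj hj'
      rw [mem_union, mem_union, mem_filter, mem_filter, mem_filter] at hj
      rw [mem_filter] at hj'
      rcases hj with (hj | hj) | hj <;> exact absurd (hj.2.symm.trans hj'.2) (by decide)
  have hne : (univ.filter (fun j => cls j ≠ 2)).card = n0 + n1 + n3 := by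
    have e : (univ.filter (fun j => cls j ≠ 2)) = ((univ.filter (fun j => cls j = 0)) ∪
      (univ.filter (fun j => cls j = 1))) ∪ (univ.filter (fun j => cls j = 3)) := by
      ext j
      simp only [mem_union, mem_filter, mem_univ, true_and]
      have : ∀ x : Fin 4, x ≠ 2 ↔ (x = 0 ∨ x = 1) ∨ x = 3 := by decide
      exact this (cls j)
    rw [e, card_union_of_disjoint, card_union_of_disjoint, hn0, hn1, hn3]
    · rw [disjoint_left]
      intro j hj hj'
      rw [mem_filter] at hj hj'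
      exact absurd (hj.2.symm.trans hj'.2) (by decide)
    · rw [disjoint_left]
      intro j hj hj'
      rw [mem_union, mem_filter, mem_filter] at hj
      rw [mem_filter] at hj'
      rcases hj with hj | hj <;> exact absurd (hj.2.symm.trans hj'.2) (by decide)
  have hLL0 : 0 ≤ LL := by linarith
  have hsubset : S ⊆ S0 ∪ (S1 ∪ (S2' ∪ S3)) := by
    intro t ht
    obtain ⟨ht1, ht2⟩ := hS t ht
    by_contra hc
    rw [mem_union, mem_union, mem_union, not_or, not_or, not_or] at hc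
    obtain ⟨c1, c2, c3, c4⟩ := hc
    have d1 : (∏ j, f j).eval t ≠ 0 := fun h => c1 (mem_filter.2 ⟨ht1, h⟩)
    have d2 : ∀ j, (f j).eval t ≠ 0 := by
      rw [eval_prod] at d1
      exact fun j => (prod_ne_zero_iff.1 d1) j (mem_univ j)
    have d3 : ∀ j, |(((f j).eval t).natAbs.primeFactors.card : ℝ) - LL| ≤ δ' * LL := by
      intro j
      by_contra h5
      push Not at h5
      refine c2 (mem_biUnion.2 ⟨j, mem_univ j, mem_Ex.2 ⟨ht1, d2 j, ?_⟩⟩)
      rw [← hLL]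
      exact h5
    have d4 : ((Tq (∏ j, f j) z t).card : ℝ) ≤ δ' * LL := by
      by_contra h5
      push Not at h5
      exact c3 (mem_filter.2 ⟨ht1, d1, h5⟩)
    have d5 : ∀ j, ¬ SqMod (f j) (W cls a f j) →
        -(δ' * LL) ≤ ∑ p ∈ ((f j).eval t).natAbs.primeFactors,
          (jacobiSym ((W cls a f j).eval t) p : ℝ) := by
      intro j hj
      by_contra h5
      refine c4 (mem_biUnion.2 ⟨j, mem_univ j, mem_filter.2 ⟨ht1, hj, ?_⟩⟩)
      rw [← hLL]
      exact h5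
    refine ht2 ⟨d2, ?_⟩
    rw [← hLL]
    have g0 : ((S2 (Fval cls a (fun l => (f l).eval t) 0)
          (Fval cls a (fun l => (f l).eval t) 1)).card : ℝ) ≤
        ((∑ j ∈ univ.filter (fun j => cls j ≠ 2),
          ((f j).eval t).natAbs.primeFactors.card : ℕ) : ℝ) + ((z : ℝ) + 1) := by
      exact_mod_cast S2_le (cls := cls) hG d2
    have g1 : ((∑ j ∈ univ.filter (fun j => cls j = 2),
        (Gj (f j) (W cls a f j) z t).card : ℕ) : ℝ) ≤
        ((C1g (Fval cls a (fun l => (f l).eval t) 0)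
          (Fval cls a (fun l => (f l).eval t) 1)).card : ℝ) := by
      exact_mod_cast C1g_ge hG hz11 ha d2 (hsub t)
    have g2 : ((∑ j ∈ univ.filter (fun j => cls j = 3),
        (Gj (f j) (W cls a f j) z t).card : ℕ) : ℝ) ≤
        ((C2g (Fval cls a (fun l => (f l).eval t) 0)
          (Fval cls a (fun l => (f l).eval t) 1)).card : ℝ) := by
      exact_mod_cast C2g_ge hG hz11 ha d2 (hsub t)
    have g3 : ∀ j, cls j = 2 ∨ cls j = 3 → ((if SqMod (f j) (W cls a f j) then LL else LL / 2) -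
        (δ' * LL + (((z : ℝ) + 1) + ((Tq (∏ j, f j) z t).card : ℝ)))) ≤
        ((Gj (f j) (W cls a f j) z t).card : ℝ) := by
      intro j hj
      have k1 := (abs_le.1 (d3 j)).1
      split_ifs with hs
      · have k2 := Gj_full (w := W cls a f j) (z := z) (j := j) d2 (fun p hp hz hd =>
          hsq j hs p t hp hz hd (W_ndvd hG hj hp hz hd))
        linarith
      · have k2 := Gj_half (w := W cls a f j) (z := z) (j := j) d2 (fun p hp hz hd =>
          W_ndvd hG hj hp hz hd)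
        have k3 := d5 j hs
        linarith
    refine arith (n := n) (n0 := n0) (n1 := n1) (n2 := n2) (n3 := n3) (s2 := s2) (q3 := q3)
      (δ' := δ') (z := z) (Nat.cast_nonneg _) (Nat.cast_nonneg _)
      (Nat.cast_nonneg _) (Nat.cast_nonneg _) ?_ hδ'0.le
      hLL0 (Nat.cast_nonneg _) ?_ ?_ d4 ?_ g0 ?_ ?_ g1 g2
    · exact_mod_cast hcard
    · rw [hδ']
      field_simp
    · rw [div_le_iff₀ hδ] at h1
      linarith
    · push_cast
      have k3 : ∑ j ∈ univ.filter (fun j => cls j ≠ 2),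
            (((f j).eval t).natAbs.primeFactors.card : ℝ) ≤
          ∑ j ∈ univ.filter (fun j => cls j ≠ 2), (LL + δ' * LL) := by
        refine sum_le_sum fun j _ => ?_
        have := (abs_le.1 (d3 j)).2
        linarith
      rw [sum_const, nsmul_eq_mul, hne] at k3
      push_cast at k3
      exact k3
    · push_cast
      refine le_trans (le_of_eq ?_) (sum_le_sum fun j hj => g3 j (Or.inl (mem_filter.1 hj).2))
      rw [sum_sub_distrib, sum_const, nsmul_eq_mul, ← hn2]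
      have k4 : ∑ j ∈ univ.filter (fun j => cls j = 2),
          (if SqMod (f j) (W cls a f j) then LL else LL / 2) =
          ∑ j ∈ univ.filter (fun j => cls j = 2),
            (LL / 2 + (if SqMod (f j) (W cls a f j) then LL / 2 else 0)) := by
        refine sum_congr rfl fun j _ => ?_
        split_ifs <;> ring
      rw [k4, sum_add_distrib, sum_const, nsmul_eq_mul, ← hn2, ← sum_filter, sum_const,
        nsmul_eq_mul, ← hs2 _ (fun j => by
          rw [mem_filter, mem_filter]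
          simp only [mem_univ, true_and])]
    · push_cast
      refine le_trans (le_of_eq ?_) (sum_le_sum fun j hj => g3 j (Or.inr (mem_filter.1 hj).2))
      rw [sum_sub_distrib, sum_const, nsmul_eq_mul, ← hn3]
      have k4 : ∑ j ∈ univ.filter (fun j => cls j = 3),
          (if SqMod (f j) (W cls a f j) then LL else LL / 2) =
          ∑ j ∈ univ.filter (fun j => cls j = 3),
            (LL - (if ¬ SqMod (f j) (W cls a f j) then LL / 2 else 0)) := by
        refine sum_congr rfl fun j _ => ?_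
        by_cases hs : SqMod (f j) (W cls a f j)
        · rw [if_pos hs, if_neg (not_not.2 hs)]; ring
        · rw [if_neg hs, if_pos hs]; ring
      rw [k4, sum_sub_distrib, sum_const, nsmul_eq_mul, ← hn3, ← sum_filter, sum_const,
        nsmul_eq_mul, ← hq3 _ (fun j => by
          rw [mem_filter, mem_filter]
          simp only [mem_univ, true_and])]
  have hM0 : (0 : ℝ) ≤ M := Nat.cast_nonneg _
  have h7 : (n : ℝ) * (ε / (4 * (n + 1))) ≤ ε / 4 := by
    rw [mul_div_assoc', div_le_div_iff₀ (by positivity) (by norm_num)]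
    nlinarith [hε.le, (Nat.cast_nonneg n : (0 : ℝ) ≤ n)]
  have h8' : (n : ℝ) * (ε / (4 * (n + 1)) * M) ≤ ε / 4 * M := by
    rw [← mul_assoc]
    exact mul_le_mul_of_nonneg_right h7 hM0
  have k0 : (S0.card : ℝ) ≤ ε / 4 * M := by
    have h5 : (S0.card : ℝ) ≤ (∏ j, f j).natDegree := by exact_mod_cast zeros hD0 N M
    rw [div_le_iff₀ hε] at h4
    linarith
  have k1 : (S1.card : ℝ) ≤ ε / 4 * M := by
    have h5 : (S1.card : ℝ) ≤ ∑ j, ((Ex (f j) N M δ').card : ℝ) := by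
      exact_mod_cast card_biUnion_le
    have h6 : ∀ j, ((Ex (f j) N M δ').card : ℝ) ≤ ε / (4 * (n + 1)) * M := fun j =>
      hM2 j N M ((single_le_sum (f := M2) (fun _ _ => Nat.zero_le _) (mem_univ j)).trans
        (by omega)) hN
    refine h5.trans ((sum_le_sum fun j _ => h6 j).trans ?_)
    rw [sum_const, nsmul_eq_mul, card_univ, ← hn]
    exact h8'
  have k1' : (S3.card : ℝ) ≤ ε / 4 * M := by
    have h5 : (S3.card : ℝ) ≤ ∑ j, ((Y j).card : ℝ) := by
      exact_mod_cast card_biUnion_le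
    have h6 : ∀ j, ((Y j).card : ℝ) ≤ ε / (4 * (n + 1)) * M := fun j =>
      hM4 j N M ((single_le_sum (f := M4) (fun _ _ => Nat.zero_le _) (mem_univ j)).trans
        (by omega)) hN (Y j) (fun t ht => by
          rw [hY, mem_filter] at ht
          exact ht)
    refine h5.trans ((sum_le_sum fun j _ => h6 j).trans ?_)
    rw [sum_const, nsmul_eq_mul, card_univ, ← hn]
    exact h8'
  have k2 : (S2'.card : ℝ) ≤ ε / 4 * M := by
    have h5 := markov hG.good (by omega) N M (by omega) (hsize N M (by omega) hN) (δ' * LL)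
    have h6 : 0 < δ' * LL := mul_pos hδ'0 (by linarith)
    have h7 : 4 * (2 * (c : ℝ) + b) ≤ LL * (δ' * ε) := by
      rwa [div_le_iff₀ (by positivity)] at h2
    have h8 : (S2'.card : ℝ) * (δ' * LL) ≤ ε / 4 * M * (δ' * LL) := by
      refine h5.trans ?_
      have h9 := mul_le_mul_of_nonneg_right h7 hM0
      nlinarith
    exact le_of_mul_le_mul_right h8 h6
  have k3 : (S.card : ℝ) ≤ S0.card + (S1.card + (S2'.card + S3.card)) := by
    have h5 := (card_le_card hsubset).trans ((card_union_le _ _).trans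
      (Nat.add_le_add_left ((card_union_le _ _).trans
        (Nat.add_le_add_left (card_union_le _ _) _)) _))
    exact_mod_cast h5
  linarith

/-- **NO-CNTU** -/
theorem cntu_of (_h1 : Pool.Agent.TH841.LS.TKX) (h2 : Pool.Agent.TH841.NO.TKL) :
    Pool.Agent.TH841.NO.CNTU := by
  intro J _ _ cls a f ha hf hF δ ε L hδ hε
  classical
  obtain ⟨z0, hz0⟩ := exists_Gp Pool.Agent.TH841.PT.GDPf.gdp hf ha ((∏ j, f j).natDegree + 1) le_rfl
  have hz1 : ∀ j : J, ∃ z1 : ℕ, SqMod (f j) (W cls a f j) → ∀ (p : ℕ) (t : ℤ), p.Prime → z1 < p →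
      (p : ℤ) ∣ (f j).eval t → ¬ (p : ℤ) ∣ (W cls a f j).eval t →
      jacobiSym ((W cls a f j).eval t) p = 1 := by
    intro j
    by_cases hs : SqMod (f j) (W cls a f j)
    · obtain ⟨D, q, g, hD, hq⟩ := sqmod_int hs
      refine ⟨D.natAbs, fun _ p t hp hz hd hnd => jac_one hq hp ?_ hd hnd⟩
      intro hpD
      have h3 := Nat.le_of_dvd (Int.natAbs_pos.2 hD) (Int.natCast_dvd.1 hpD)
      omega
    · exact ⟨0, fun h => absurd h hs⟩
  choose z1 hz1 using hz1
  have htk : ∀ (j : J) (δ ε : ℝ), 0 < δ → 0 < ε → ∃ M0 : ℕ, ∀ (N : ℤ) (M : ℕ), M0 ≤ M →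
      |N| ≤ (M : ℤ) ^ L → ∀ S : Finset ℤ, (∀ t ∈ S, t ∈ Ioc N (N + (M : ℤ)) ∧
        ¬ SqMod (f j) (W cls a f j) ∧
        ¬ (-(δ * Real.log (Real.log M)) ≤ ∑ p ∈ ((f j).eval t).natAbs.primeFactors,
          (jacobiSym ((W cls a f j).eval t) p : ℝ))) → (S.card : ℝ) ≤ ε * M := by
    intro j δ ε hδ hε
    by_cases hs : SqMod (f j) (W cls a f j)
    · refine ⟨0, fun N M _ _ S hS => ?_⟩
      have h3 : S = ∅ := by
        rw [eq_empty_iff_forall_notMem]
        intro t ht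
        exact (hS t ht).2.1 hs
      rw [h3]
      simp only [card_empty, Nat.cast_zero]
      positivity
    · obtain ⟨M0, hM0⟩ := h2 (f j) (W cls a f j) (hf.irr j) (hf.deg j)
        (fun q hq => hs ⟨q, hq⟩) δ ε L hδ hε
      refine ⟨M0, fun N M hM hN S hS => le_trans ?_ (hM0 N M hM hN)⟩
      have h3 : S ⊆ (Ioc N (N + (M : ℤ))).filter (fun t => ¬
          (-(δ * Real.log (Real.log M)) ≤ ∑ p ∈ ((f j).eval t).natAbs.primeFactors,
            (jacobiSym ((W cls a f j).eval t) p : ℝ))) := by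
        intro t ht
        obtain ⟨t1, _, t3⟩ := hS t ht
        exact mem_filter.2 ⟨t1, t3⟩
      exact_mod_cast card_le_card h3
  have hs2 : ∀ T : Finset J, (∀ j, j ∈ T ↔ cls j = 2 ∧ SqMod (f j) (W cls a f j)) →
      (univ.filter (fun j => cls j = 2 ∧ SqMod (f j) (C (a 0) * ∏ l ∈ fs cls 0, f l))).card =
        T.card := by
    intro T hT
    congr 1
    ext j
    rw [hT, mem_filter]
    constructor
    · rintro ⟨_, h3, h4⟩
      refine ⟨h3, ?_⟩
      unfold W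
      rw [if_pos h3]
      exact h4
    · rintro ⟨h3, h4⟩
      unfold W at h4
      rw [if_pos h3] at h4
      exact ⟨mem_univ _, h3, h4⟩
  have hq3 : ∀ T : Finset J, (∀ j, j ∈ T ↔ cls j = 3 ∧ ¬ SqMod (f j) (W cls a f j)) →
      (univ.filter (fun j => cls j = 3 ∧ ¬ SqMod (f j) (C (a 0 * a 1) *
      ((∏ l ∈ univ.filter (fun l => cls l = 0), f l) *
        ∏ l ∈ univ.filter (fun l => cls l = 1), f l)))).card = T.card := by
    intro T hT
    congr 1
    ext j
    rw [hT, mem_filter]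
    have h5 : cls j = 3 → ¬ cls j = 2 := by
      intro h6
      rw [h6]
      decide
    constructor
    · rintro ⟨_, h3, h4⟩
      refine ⟨h3, ?_⟩
      unfold W
      rw [if_neg (h5 h3)]
      exact h4
    · rintro ⟨h3, h4⟩
      unfold W at h4
      rw [if_neg (h5 h3)] at h4
      exact ⟨mem_univ _, h3, h4⟩
  obtain ⟨M0, hM0⟩ := cntu_aux cls a f ha (fun j => (hf.irr j).ne_zero) hF
    (z0 + 11 + ∑ j, z1 j) _ (hz0 _ (by omega)) (by omega)
    (fun j hs p t hp hz hd hnd => hz1 j hs p t hp (by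
      have := single_le_sum (f := z1) (fun _ _ => Nat.zero_le _) (mem_univ j)
      omega) hd hnd) _ _ _ _ _ _ rfl rfl rfl rfl hs2 hq3 δ ε L hδ hε
    (fun j δ ε hδ hε => normal' (f j) (hf.irr j) (hf.deg j) L δ ε hδ hε) htk
  refine ⟨M0, fun N M hM hN => hM0 N M hM hN _ fun t ht => ?_⟩
  rw [mem_filter] at ht
  exact ht

end Pool.Agent.TH841.NO.CNTUf
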