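import Mathlib
import Pool.Agent.TH79.LS.Cnt2C

/-!
# Project NO: the upper count for pairs, the second moment of the character sum
-/

set_option autoImplicit false

namespace Pool.Agent.TH841.NO.CNTU2f

open Finset Polynomial Pool.Agent.TH841.PM.BADf

/-- the character -/
noncomputable def F (D : ℤ) (p : ℕ) (a : ℤ) : ℝ := (jacobiSym (D * a) p : ℝ)

lemma F_abs (D : ℤ) (p : ℕ) (a : ℤ) : |F D p a| ≤ 1 := by
  unfold F
  rcases jacobiSym.trichotomy (D * a) p with h | h | h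
  · rw [h]; simp
  · rw [h]; simp
  · rw [h]; simp

lemma sum_period {m : ℕ} [NeZero m] (G : ZMod m → ℝ) (c : ℤ) :
    ∑ t ∈ range m, G ((c + (t : ℤ) : ℤ) : ZMod m) = ∑ z : ZMod m, G z := by
  have h1 : ∑ z : ZMod m, G z = ∑ z : ZMod m, G ((c : ZMod m) + z) :=
    (Equiv.sum_comp (Equiv.addLeft (c : ZMod m)) G).symm
  rw [h1]
  refine sum_nbij' (fun t : ℕ => (t : ZMod m)) (fun z => z.val) ?_ ?_ ?_ ?_ ?_
  · intro t _
    exact mem_univ _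
  · intro z _
    exact mem_range.2 (ZMod.val_lt z)
  · intro t ht
    exact ZMod.val_cast_of_lt (mem_range.1 ht)
  · intro z _
    exact ZMod.natCast_zmod_val z
  · intro t _
    push_cast
    rfl

lemma sum_long {m : ℕ} [NeZero m] (G : ZMod m → ℝ) (h0 : ∑ z : ZMod m, G z = 0)
    (h1 : ∀ z, |G z| ≤ 1) (c : ℤ) (X : ℕ) :
    |∑ t ∈ range X, G ((c + (t : ℤ) : ℤ) : ZMod m)| ≤ m := by
  have hm : 0 < m := Nat.pos_of_ne_zero (NeZero.ne m)
  induction X using Nat.strong_induction_on with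
  | _ X ih =>
    rcases Nat.lt_or_ge X m with h | h
    · refine (abs_sum_le_sum_abs _ _).trans ((sum_le_sum fun t _ => h1 _).trans ?_)
      rw [sum_const, card_range, nsmul_eq_mul, mul_one]
      exact_mod_cast h.le
    · obtain ⟨Y, rfl⟩ := Nat.exists_eq_add_of_le' h
      rw [sum_range_add]
      have h2 : ∑ t ∈ range m, G ((c + ((Y + t : ℕ) : ℤ) : ℤ) : ZMod m) = 0 := by
        rw [← h0, ← sum_period G (c + (Y : ℤ))]
        refine sum_congr rfl fun t _ => ?_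
        push_cast
        rw [add_assoc]
      rw [h2, add_zero]
      exact ih Y (by omega)

lemma F_zmod (D : ℤ) (p : ℕ) [Fact p.Prime] (a : ℤ) :
    F D p a = ((quadraticChar (ZMod p) ((D : ZMod p) * (a : ZMod p)) : ℤ) : ℝ) := by
  unfold F
  rw [← jacobiSym.legendreSym.to_jacobiSym]
  unfold legendreSym
  push_cast
  rfl

lemma sum_qc (D : ℤ) (p : ℕ) [Fact p.Prime] (hp : p ≠ 2) (hD : ¬ (p : ℤ) ∣ D) :
    ∑ z : ZMod p, ((quadraticChar (ZMod p) ((D : ZMod p) * z) : ℤ) : ℝ) = 0 := by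
  have h1 : (D : ZMod p) ≠ 0 := by
    intro h
    exact hD ((ZMod.intCast_zmod_eq_zero_iff_dvd D p).1 h)
  have h2 : ∑ z : ZMod p, quadraticChar (ZMod p) ((D : ZMod p) * z) = 0 := by
    rw [← quadraticChar_sum_zero (F := ZMod p) (by rwa [ZMod.ringChar_zmod_n])]
    exact Fintype.sum_equiv (Equiv.mulLeft₀ (D : ZMod p) h1) _ _ (fun z => rfl)
  exact_mod_cast h2

/-- character sums over intervals -/
lemma char_sum (D : ℤ) (p q : ℕ) (hp : p.Prime) (hq : q.Prime) (hpq : p ≠ q) (hp2 : p ≠ 2)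
    (hDp : ¬ (p : ℤ) ∣ D) (c : ℤ) (X : ℕ) :
    |∑ t ∈ range X, F D p (c + (t : ℤ)) * F D q (c + (t : ℤ))| ≤ (p * q : ℕ) := by
  have := Fact.mk hp
  have := Fact.mk hq
  have : NeZero (p * q) := ⟨mul_ne_zero hp.ne_zero hq.ne_zero⟩
  have hco : Nat.Coprime p q := (Nat.coprime_primes hp hq).2 hpq
  set G : ZMod (p * q) → ℝ := fun z =>
    ((quadraticChar (ZMod p) ((D : ZMod p) * (ZMod.chineseRemainder hco z).1) : ℤ) : ℝ) *
    ((quadraticChar (ZMod q) ((D : ZMod q) * (ZMod.chineseRemainder hco z).2) : ℤ) : ℝ) with hG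
  have hGa : ∀ a : ℤ, G (a : ZMod (p * q)) = F D p a * F D q a := by
    intro a
    rw [hG, F_zmod, F_zmod]
    have h1 : ZMod.chineseRemainder hco (a : ZMod (p * q)) = ((a : ZMod p × ZMod q)) :=
      map_intCast _ a
    simp only [h1, Prod.fst_intCast, Prod.snd_intCast]
  have h0 : ∑ z, G z = 0 := by
    have h2 : ∑ z, G z = ∑ w : ZMod p × ZMod q,
        ((quadraticChar (ZMod p) ((D : ZMod p) * w.1) : ℤ) : ℝ) *
        ((quadraticChar (ZMod q) ((D : ZMod q) * w.2) : ℤ) : ℝ) :=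
      Fintype.sum_equiv (ZMod.chineseRemainder hco).toEquiv _ _ (fun z => rfl)
    rw [h2, Fintype.sum_prod_type]
    simp only [← mul_sum]
    rw [← sum_mul, sum_qc D p hp2 hDp, zero_mul]
  have h1 : ∀ z, |G z| ≤ 1 := by
    intro z
    obtain ⟨a, rfl⟩ := ZMod.intCast_surjective z
    rw [hGa, abs_mul]
    exact mul_le_one₀ (F_abs D p a) (abs_nonneg _) (F_abs D q a)
  have h2 := sum_long G h0 h1 c X
  have h3 : ∑ t ∈ range X, F D p (c + (t : ℤ)) * F D q (c + (t : ℤ)) =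
      ∑ t ∈ range X, G ((c + (t : ℤ) : ℤ) : ZMod (p * q)) :=
    sum_congr rfl fun t _ => (hGa _).symm
  rw [h3]
  exact h2

/-- the number of the second coordinates -/
lemma cnt_b (N2 a : ℤ) (X m : ℕ) (hm : 0 < m) :
    |(((Icc 1 X).filter (fun s : ℕ => (m : ℤ) ∣ a - (N2 + (s : ℤ)))).card : ℝ) - X / m| ≤ 1 := by
  have h1 := cnt_mod N2 X m hm a
  have h2 : ((Icc 1 X).filter (fun s : ℕ => (m : ℤ) ∣ a - (N2 + (s : ℤ)))).card =
      ((Ioc N2 (N2 + X)).filter (fun t => t ≡ a [ZMOD m])).card := by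
    refine card_bij (fun s _ => N2 + (s : ℤ)) ?_ ?_ ?_
    · intro s hs
      rw [mem_filter, mem_Icc] at hs
      rw [mem_filter, mem_Ioc]
      refine ⟨by omega, ?_⟩
      exact Int.modEq_iff_dvd.2 hs.2
    · intro s _ s' _ h
      omega
    · intro t ht
      rw [mem_filter, mem_Ioc] at ht
      refine ⟨(t - N2).toNat, ?_, ?_⟩
      · rw [mem_filter, mem_Icc]
        have e1 : (((t - N2).toNat : ℕ) : ℤ) = t - N2 := Int.toNat_of_nonneg (by omega)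
        refine ⟨by omega, ?_⟩
        rw [e1, add_sub_cancel]
        exact Int.modEq_iff_dvd.1 ht.2
      · have e1 : (((t - N2).toNat : ℕ) : ℤ) = t - N2 := Int.toNat_of_nonneg (by omega)
        rw [e1]
        ring
  rw [h2, abs_le]
  constructor <;> linarith [h1.1, h1.2]

/-- the primes in the sum -/
def PP (D : ℤ) (y : ℕ) : Finset ℕ := (Ioc 10 y).filter (fun p => p.Prime ∧ ¬ (p : ℤ) ∣ D)

lemma mem_PP {D : ℤ} {y p : ℕ} : p ∈ PP D y ↔ (10 < p ∧ p ≤ y) ∧ p.Prime ∧ ¬ (p : ℤ) ∣ D := by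
  unfold PP
  rw [mem_filter, mem_Ioc]

lemma card_PP (D : ℤ) (y : ℕ) : (PP D y).card ≤ y := by
  refine (card_filter_le _ _).trans ?_
  rw [Nat.card_Ioc]
  omega

/-- the truncated character sum -/
noncomputable def Sy (D : ℤ) (y : ℕ) (a b : ℤ) : ℝ :=
  ∑ p ∈ PP D y, if (p : ℤ) ∣ a - b then F D p a else 0

lemma off_diag (D N1 N2 : ℤ) (X p q : ℕ) (hp : p.Prime) (hq : q.Prime) (hpq : p ≠ q) (hp2 : p ≠ 2)
    (hDp : ¬ (p : ℤ) ∣ D) :
    ∑ t ∈ Icc 1 X ×ˢ Icc 1 X,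
      (if (p : ℤ) ∣ (N1 + (t.1 : ℤ)) - (N2 + (t.2 : ℤ)) then F D p (N1 + (t.1 : ℤ)) else 0) *
      (if (q : ℤ) ∣ (N1 + (t.1 : ℤ)) - (N2 + (t.2 : ℤ)) then F D q (N1 + (t.1 : ℤ)) else 0) ≤
      2 * X := by
  have hm : 0 < p * q := Nat.mul_pos hp.pos hq.pos
  have hmR : (0 : ℝ) < (p * q : ℕ) := by exact_mod_cast hm
  have hco : IsCoprime (p : ℤ) (q : ℤ) := Nat.isCoprime_iff_coprime.2 ((Nat.coprime_primes hp hq).2 hpq)
  have h1 : ∀ s ∈ Icc 1 X, ∑ u ∈ Icc 1 X,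
      (if (p : ℤ) ∣ (N1 + (s : ℤ)) - (N2 + (u : ℤ)) then F D p (N1 + (s : ℤ)) else 0) *
      (if (q : ℤ) ∣ (N1 + (s : ℤ)) - (N2 + (u : ℤ)) then F D q (N1 + (s : ℤ)) else 0) =
      F D p (N1 + (s : ℤ)) * F D q (N1 + (s : ℤ)) * (((Icc 1 X).filter (fun u : ℕ =>
        ((p * q : ℕ) : ℤ) ∣ (N1 + (s : ℤ)) - (N2 + (u : ℤ)))).card : ℝ) := by
    intro s _
    rw [card_filter]
    push_cast
    rw [mul_sum]
    refine sum_congr rfl fun u _ => ?_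
    by_cases h2 : (p : ℤ) ∣ (N1 + (s : ℤ)) - (N2 + (u : ℤ))
    · by_cases h3 : (q : ℤ) ∣ (N1 + (s : ℤ)) - (N2 + (u : ℤ))
      · rw [if_pos h2, if_pos h3, if_pos (hco.mul_dvd h2 h3), mul_one]
      · rw [if_neg h3, if_neg (fun h => h3 ((dvd_mul_left _ _).trans h)), mul_zero, mul_zero]
    · rw [if_neg h2, if_neg (fun h => h2 ((dvd_mul_right _ _).trans h)), mul_zero, zero_mul]
  rw [sum_product, sum_congr rfl h1]
  have h2 : ∀ s ∈ Icc 1 X, F D p (N1 + (s : ℤ)) * F D q (N1 + (s : ℤ)) * (((Icc 1 X).filter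
      (fun u : ℕ => ((p * q : ℕ) : ℤ) ∣ (N1 + (s : ℤ)) - (N2 + (u : ℤ)))).card : ℝ) ≤
      F D p (N1 + (s : ℤ)) * F D q (N1 + (s : ℤ)) * (X / (p * q : ℕ)) + 1 := by
    intro s _
    have e1 := cnt_b N2 (N1 + (s : ℤ)) X (p * q) hm
    have e2 : |F D p (N1 + (s : ℤ)) * F D q (N1 + (s : ℤ))| ≤ 1 := by
      rw [abs_mul]
      exact mul_le_one₀ (F_abs D p _) (abs_nonneg _) (F_abs D q _)
    have e3 : |F D p (N1 + (s : ℤ)) * F D q (N1 + (s : ℤ)) * ((((Icc 1 X).filter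
      (fun u : ℕ => ((p * q : ℕ) : ℤ) ∣ (N1 + (s : ℤ)) - (N2 + (u : ℤ)))).card : ℝ) -
        X / (p * q : ℕ))| ≤ 1 := by
      rw [abs_mul]
      exact mul_le_one₀ e2 (abs_nonneg _) e1
    have e4 := (abs_le.1 e3).2
    linarith
  refine (sum_le_sum h2).trans ?_
  rw [sum_add_distrib, ← sum_mul, sum_const, Nat.card_Icc, nsmul_eq_mul, mul_one,
    Nat.add_sub_cancel]
  have h3 : ∑ s ∈ Icc 1 X, F D p (N1 + (s : ℤ)) * F D q (N1 + (s : ℤ)) =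
      ∑ t ∈ range X, F D p ((N1 + 1) + (t : ℤ)) * F D q ((N1 + 1) + (t : ℤ)) := by
    have e1 : Icc 1 X = Ico (0 + 1) (X + 1) := by
      ext n
      rw [mem_Icc, mem_Ico]
      omega
    rw [e1, ← sum_Ico_add' (fun s : ℕ => F D p (N1 + (s : ℤ)) * F D q (N1 + (s : ℤ))) 0 X 1,
      ← range_eq_Ico]
    refine sum_congr rfl fun t _ => ?_
    have e2 : N1 + ((t + 1 : ℕ) : ℤ) = N1 + 1 + (t : ℤ) := by push_cast; ring
    rw [e2]
  have h4 := (abs_le.1 (char_sum D p q hp hq hpq hp2 hDp (N1 + 1) X)).2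
  rw [h3]
  have h5 : (X : ℝ) / (p * q : ℕ) * (p * q : ℕ) = X := div_mul_cancel₀ _ hmR.ne'
  have h6 : (0 : ℝ) ≤ (X : ℝ) / (p * q : ℕ) := by positivity
  have h7 := mul_le_mul_of_nonneg_right h4 h6
  rw [mul_comm ((p * q : ℕ) : ℝ), h5] at h7
  linarith

lemma diag (D N1 N2 : ℤ) (X p : ℕ) (hp : p.Prime) :
    ∑ t ∈ Icc 1 X ×ˢ Icc 1 X,
      (if (p : ℤ) ∣ (N1 + (t.1 : ℤ)) - (N2 + (t.2 : ℤ)) then F D p (N1 + (t.1 : ℤ)) else 0) *
      (if (p : ℤ) ∣ (N1 + (t.1 : ℤ)) - (N2 + (t.2 : ℤ)) then F D p (N1 + (t.1 : ℤ)) else 0) ≤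
      X ^ 2 * (1 / (p : ℝ)) + X := by
  rw [sum_product]
  have h1 : ∀ s ∈ Icc 1 X, ∑ u ∈ Icc 1 X,
      (if (p : ℤ) ∣ (N1 + (s : ℤ)) - (N2 + (u : ℤ)) then F D p (N1 + (s : ℤ)) else 0) *
      (if (p : ℤ) ∣ (N1 + (s : ℤ)) - (N2 + (u : ℤ)) then F D p (N1 + (s : ℤ)) else 0) ≤
      X / (p : ℝ) + 1 := by
    intro s _
    have e1 := (abs_le.1 (cnt_b N2 (N1 + (s : ℤ)) X p hp.pos)).2
    refine le_trans (b := (((Icc 1 X).filter (fun u : ℕ =>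
        ((p : ℕ) : ℤ) ∣ (N1 + (s : ℤ)) - (N2 + (u : ℤ)))).card : ℝ)) ?_ (by linarith)
    rw [card_filter]
    push_cast
    refine sum_le_sum fun u _ => ?_
    split_ifs
    · have e2 := F_abs D p (N1 + (s : ℤ))
      have e3 : |F D p (N1 + (s : ℤ))| * |F D p (N1 + (s : ℤ))| ≤ 1 :=
        mul_le_one₀ e2 (abs_nonneg _) e2
      rwa [abs_mul_abs_self] at e3
    · simp
  refine (sum_le_sum h1).trans ?_
  rw [sum_const, Nat.card_Icc, nsmul_eq_mul, Nat.add_sub_cancel]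
  exact le_of_eq (by ring)

/-- the second moment -/
lemma moment (D N1 N2 : ℤ) (X y : ℕ) (hy : y * y ≤ X) :
    ∑ t ∈ Icc 1 X ×ˢ Icc 1 X, Sy D y (N1 + (t.1 : ℤ)) (N2 + (t.2 : ℤ)) ^ 2 ≤
      X ^ 2 * (∑ p ∈ PP D y, 1 / (p : ℝ) + 3) := by
  set G : ℕ → ℕ × ℕ → ℝ := fun p t => if (p : ℤ) ∣ (N1 + (t.1 : ℤ)) - (N2 + (t.2 : ℤ)) then
    F D p (N1 + (t.1 : ℤ)) else 0 with hG
  have h1 : ∑ t ∈ Icc 1 X ×ˢ Icc 1 X, Sy D y (N1 + (t.1 : ℤ)) (N2 + (t.2 : ℤ)) ^ 2 =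
      ∑ p ∈ PP D y, ∑ q ∈ PP D y, ∑ t ∈ Icc 1 X ×ˢ Icc 1 X, G p t * G q t := by
    have e1 : ∀ t ∈ Icc 1 X ×ˢ Icc 1 X, Sy D y (N1 + (t.1 : ℤ)) (N2 + (t.2 : ℤ)) ^ 2 =
        ∑ p ∈ PP D y, ∑ q ∈ PP D y, G p t * G q t := by
      intro t _
      unfold Sy
      rw [sq, sum_mul_sum]
    rw [sum_congr rfl e1, sum_comm]
    refine sum_congr rfl fun p _ => ?_
    rw [sum_comm]
  rw [h1]
  have h2 : ∀ p ∈ PP D y, ∑ q ∈ PP D y, ∑ t ∈ Icc 1 X ×ˢ Icc 1 X, G p t * G q t ≤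
      (X ^ 2 * (1 / (p : ℝ)) + X) + y * (2 * X) := by
    intro p hp
    have hp' := mem_PP.1 hp
    rw [← add_sum_erase _ _ hp]
    have e1 := diag D N1 N2 X p hp'.2.1
    have e2 : ∑ q ∈ (PP D y).erase p, ∑ t ∈ Icc 1 X ×ˢ Icc 1 X, G p t * G q t ≤
        ∑ _q ∈ (PP D y).erase p, (2 * X : ℝ) := by
      refine sum_le_sum fun q hq => ?_
      rw [mem_erase] at hq
      have hq' := mem_PP.1 hq.2
      exact off_diag D N1 N2 X p q hp'.2.1 hq'.2.1 (Ne.symm hq.1) (by omega) hp'.2.2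
    rw [sum_const, nsmul_eq_mul] at e2
    have e3 : (((PP D y).erase p).card : ℝ) ≤ y := by
      exact_mod_cast (card_erase_le).trans (card_PP D y)
    have e4 : (((PP D y).erase p).card : ℝ) * (2 * X) ≤ y * (2 * X) :=
      mul_le_mul_of_nonneg_right e3 (by positivity)
    linarith
  refine (sum_le_sum h2).trans ?_
  rw [sum_add_distrib, sum_add_distrib, ← mul_sum, sum_const, sum_const, nsmul_eq_mul, nsmul_eq_mul]
  have e3 : ((PP D y).card : ℝ) ≤ y := by exact_mod_cast card_PP D y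
  have hyR : (y : ℝ) * y ≤ X := by exact_mod_cast hy
  have hX0 : (0 : ℝ) ≤ X := Nat.cast_nonneg X
  have hy0 : (0 : ℝ) ≤ y := Nat.cast_nonneg y
  have hyX : (y : ℝ) ≤ X := by
    have : y ≤ X := by nlinarith [Nat.zero_le y]
    exact_mod_cast this
  have e5 : ((PP D y).card : ℝ) * X ≤ X * X :=
    mul_le_mul_of_nonneg_right (e3.trans hyX) hX0
  have e6 : ((PP D y).card : ℝ) * (y * (2 * X)) ≤ 2 * (X * X) := by
    calc ((PP D y).card : ℝ) * (y * (2 * X)) ≤ y * (y * (2 * X)) :=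
          mul_le_mul_of_nonneg_right e3 (by positivity)
      _ = 2 * ((y * y) * X) := by ring
      _ ≤ 2 * (X * X) := by
        have := mul_le_mul_of_nonneg_right hyR hX0
        linarith
  nlinarith

/-- the Chebyshev inequality -/
lemma cheb (D N1 N2 : ℤ) (X y : ℕ) (hy : y * y ≤ X) (T : ℝ) (hT : 0 < T) :
    (((Icc 1 X ×ˢ Icc 1 X).filter (fun t : ℕ × ℕ =>
      T < |Sy D y (N1 + (t.1 : ℤ)) (N2 + (t.2 : ℤ))|)).card : ℝ) * T ^ 2 ≤
      X ^ 2 * (∑ p ∈ PP D y, 1 / (p : ℝ) + 3) := by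
  refine le_trans ?_ (moment D N1 N2 X y hy)
  rw [← nsmul_eq_mul, ← sum_const]
  refine le_trans (sum_le_sum fun t ht => ?_) (sum_le_sum_of_subset_of_nonneg (filter_subset _ _)
    fun t _ _ => sq_nonneg _)
  rw [mem_filter] at ht
  rw [← sq_abs (Sy D y (N1 + (t.1 : ℤ)) (N2 + (t.2 : ℤ)))]
  exact pow_le_pow_left₀ hT.le ht.2.le 2

end Pool.Agent.TH841.NO.CNTU2f
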