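import Mathlib
import Pool.Agent.TH841.NO.Cntu2A

/-!
# Project NO: the upper count for pairs, assembly
-/

set_option autoImplicit false

namespace Pool.Agent.TH841.NO.CNTU2f

open Finset Polynomial Pool.Agent.TH841.PM.BADf
open Pool.Agent.TH841.LS.CNT2f (Bd mem_Bd card_Bd pairA pairB NO card_large)

/-- copy of `S2` -/
def S2x (A B : ℤ) : Finset ℕ := (A * B).natAbs.primeFactors.filter (fun p => 11 ≤ p)

/-- copy of `C1g` -/
def C1y (A B : ℤ) : Finset ℕ := (A - B).natAbs.primeFactors.filter (fun p => 11 ≤ p ∧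
  ¬ (p : ℤ) ∣ A ∧ jacobiSym A p = 1)

/-- the primes in the full character sum -/
def Tf (D a b : ℤ) : Finset ℕ := (a - b).natAbs.primeFactors.filter (fun p => 11 ≤ p ∧
  ¬ (p : ℤ) ∣ D)

lemma card_S2x {D a b : ℤ} (hD : D ≠ 0) (ha : a ≠ 0) (hb : b ≠ 0) :
    (S2x (D * a) (D * b)).card ≤ D.natAbs.primeFactors.card + a.natAbs.primeFactors.card +
      b.natAbs.primeFactors.card := by
  have h1 : S2x (D * a) (D * b) ⊆ (D.natAbs.primeFactors ∪ a.natAbs.primeFactors) ∪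
      b.natAbs.primeFactors := by
    intro p hp
    unfold S2x at hp
    rw [mem_filter, Nat.mem_primeFactors] at hp
    obtain ⟨⟨hpp, hpd, -⟩, -⟩ := hp
    have hpi : Prime (p : ℤ) := Nat.prime_iff_prime_int.1 hpp
    have h2 : (p : ℤ) ∣ D * a * (D * b) := Int.natCast_dvd.2 hpd
    rw [mem_union, mem_union, Nat.mem_primeFactors, Nat.mem_primeFactors, Nat.mem_primeFactors]
    rcases hpi.dvd_or_dvd h2 with h3 | h3
    · rcases hpi.dvd_or_dvd h3 with h4 | h4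
      · exact Or.inl (Or.inl ⟨hpp, Int.natCast_dvd.1 h4, Int.natAbs_ne_zero.2 hD⟩)
      · exact Or.inl (Or.inr ⟨hpp, Int.natCast_dvd.1 h4, Int.natAbs_ne_zero.2 ha⟩)
    · rcases hpi.dvd_or_dvd h3 with h4 | h4
      · exact Or.inl (Or.inl ⟨hpp, Int.natCast_dvd.1 h4, Int.natAbs_ne_zero.2 hD⟩)
      · exact Or.inr ⟨hpp, Int.natCast_dvd.1 h4, Int.natAbs_ne_zero.2 hb⟩
  exact (card_le_card h1).trans ((card_union_le _ _).trans
    (Nat.add_le_add_right (card_union_le _ _) _))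

lemma card_Tf {D a b : ℤ} (hD : D ≠ 0) :
    (a - b).natAbs.primeFactors.card ≤ (Tf D a b).card + (D.natAbs.primeFactors.card + 11) := by
  have h1 : (a - b).natAbs.primeFactors ⊆ Tf D a b ∪ (D.natAbs.primeFactors ∪ range 11) := by
    intro p hp
    have hpp := Nat.prime_of_mem_primeFactors hp
    rw [mem_union, mem_union]
    unfold Tf
    rw [mem_filter, mem_range, Nat.mem_primeFactors (n := D.natAbs)]
    by_cases h1 : 11 ≤ p
    · by_cases h2 : (p : ℤ) ∣ D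
      · exact Or.inr (Or.inl ⟨hpp, Int.natCast_dvd.1 h2, Int.natAbs_ne_zero.2 hD⟩)
      · exact Or.inl ⟨hp, h1, h2⟩
    · exact Or.inr (Or.inr (by omega))
  have h2 := card_le_card h1
  have h3 := card_union_le (Tf D a b) (D.natAbs.primeFactors ∪ range 11)
  have h5 := card_union_le D.natAbs.primeFactors (range 11)
  rw [card_range] at h5
  omega

/-- the classes with `(D a / p) = 1` -/
lemma card_C1y {D a b : ℤ} (hD : D ≠ 0) (hab : IsCoprime a b) :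
    ((Tf D a b).card : ℝ) + ∑ p ∈ Tf D a b, F D p a ≤ 2 * ((C1y (D * a) (D * b)).card : ℝ) := by
  have hT : ∀ p ∈ Tf D a b, p.Prime ∧ 11 ≤ p ∧ (p : ℤ) ∣ a - b ∧ ¬ (p : ℤ) ∣ D ∧ ¬ (p : ℤ) ∣ a := by
    intro p hp
    unfold Tf at hp
    rw [mem_filter, Nat.mem_primeFactors] at hp
    obtain ⟨⟨hpp, hpd, -⟩, h11, hpD⟩ := hp
    have h1 : (p : ℤ) ∣ a - b := Int.natCast_dvd.2 hpd
    refine ⟨hpp, h11, h1, hpD, fun ha => ?_⟩
    have hpi : Prime (p : ℤ) := Nat.prime_iff_prime_int.1 hpp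
    have hb : (p : ℤ) ∣ b := by
      have := dvd_sub ha h1
      rwa [sub_sub_cancel] at this
    exact hpi.not_unit (hab.isUnit_of_dvd' ha hb)
  have h1 : (Tf D a b).filter (fun p => jacobiSym (D * a) p = 1) ⊆ C1y (D * a) (D * b) := by
    intro p hp
    rw [mem_filter] at hp
    obtain ⟨hp1, hp2⟩ := hp
    obtain ⟨hpp, h11, hd, hpD, hpa⟩ := hT p hp1
    have hpi : Prime (p : ℤ) := Nat.prime_iff_prime_int.1 hpp
    unfold C1y
    rw [mem_filter, Nat.mem_primeFactors]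
    refine ⟨⟨hpp, ?_, ?_⟩, h11, ?_, hp2⟩
    · apply Int.natCast_dvd.1
      rw [← mul_sub]
      exact hd.mul_left D
    · rw [← mul_sub]
      unfold Tf at hp1
      rw [mem_filter, Nat.mem_primeFactors] at hp1
      exact Int.natAbs_ne_zero.2 (mul_ne_zero hD (Int.natAbs_ne_zero.1 hp1.1.2.2))
    · intro h
      rcases hpi.dvd_or_dvd h with h' | h'
      · exact hpD h'
      · exact hpa h'
  have h2 : ((Tf D a b).card : ℝ) + ∑ p ∈ Tf D a b, F D p a ≤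
      2 * (((Tf D a b).filter (fun p => jacobiSym (D * a) p = 1)).card : ℝ) := by
    rw [card_filter, card_eq_sum_ones]
    push_cast
    rw [← sum_add_distrib, mul_sum]
    refine sum_le_sum fun p hp => ?_
    unfold F
    rcases jacobiSym.trichotomy (D * a) p with h | h | h
    · exfalso
      obtain ⟨hpp, h11, hd, hpD, hpa⟩ := hT p hp
      have hpi : Prime (p : ℤ) := Nat.prime_iff_prime_int.1 hpp
      have := Fact.mk hpp
      rw [← jacobiSym.legendreSym.to_jacobiSym, legendreSym.eq_zero_iff,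
        ZMod.intCast_zmod_eq_zero_iff_dvd] at h
      rcases hpi.dvd_or_dvd h with h' | h'
      · exact hpD h'
      · exact hpa h'
    · rw [h]; norm_num
    · rw [h]; norm_num
  have h3 : (((Tf D a b).filter (fun p => jacobiSym (D * a) p = 1)).card : ℝ) ≤
      ((C1y (D * a) (D * b)).card : ℝ) := by exact_mod_cast card_le_card h1
  linarith

/-- truncation -/
lemma trunc {D a b : ℤ} (hne : a ≠ b) (y k : ℕ) (hk : (a - b).natAbs < (y + 1) ^ (k + 1)) :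
    -(k : ℝ) + Sy D y a b ≤ ∑ p ∈ Tf D a b, F D p a := by
  have h0 : a - b ≠ 0 := sub_ne_zero.2 hne
  have h1 : Sy D y a b = ∑ p ∈ (Tf D a b).filter (fun p => p ≤ y), F D p a := by
    unfold Sy
    rw [← sum_filter]
    refine sum_congr ?_ fun _ _ => rfl
    ext p
    unfold Tf
    rw [mem_filter, mem_PP, mem_filter, mem_filter, Nat.mem_primeFactors]
    constructor
    · rintro ⟨⟨⟨h1, h2⟩, h3, h4⟩, h5⟩
      exact ⟨⟨⟨h3, Int.natCast_dvd.1 h5, Int.natAbs_ne_zero.2 h0⟩, by omega, h4⟩, h2⟩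
    · rintro ⟨⟨⟨h3, h5, -⟩, h1, h4⟩, h2⟩
      exact ⟨⟨⟨by omega, h2⟩, h3, h4⟩, Int.natCast_dvd.2 h5⟩
  have h2 := sum_filter_add_sum_filter_not (Tf D a b) (fun p => p ≤ y) (fun p => F D p a)
  have h3 : -(k : ℝ) ≤ ∑ p ∈ (Tf D a b).filter (fun p => ¬ p ≤ y), F D p a := by
    have h4 : ((Tf D a b).filter (fun p => ¬ p ≤ y)).card ≤ k := by
      refine le_trans (card_le_card ?_) (card_large h0 y k hk)
      intro p hp
      rw [mem_filter] at hp ⊢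
      unfold Tf at hp
      rw [mem_filter] at hp
      exact ⟨hp.1.1, by omega⟩
    have h5 : ∑ p ∈ (Tf D a b).filter (fun p => ¬ p ≤ y), (-1 : ℝ) ≤
        ∑ p ∈ (Tf D a b).filter (fun p => ¬ p ≤ y), F D p a :=
      sum_le_sum fun p _ => (abs_le.1 (F_abs D p a)).1
    rw [sum_const, nsmul_eq_mul] at h5
    have h6 : (((Tf D a b).filter (fun p => ¬ p ≤ y)).card : ℝ) ≤ k := by exact_mod_cast h4
    linarith
  rw [h1, ← h2]
  linarith

/-- the upper bound of Mertens -/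
def ME : Prop := ∃ C : ℝ, 0 ≤ C ∧ ∀ y : ℕ, 11 ≤ y → ∑ p ∈ (Ioc 10 y).filter Nat.Prime, 1 / (p : ℝ) ≤
  Real.log (Real.log y) + C

open Classical in
theorem cntu2_of (hNO : NO) (hME : ME) : ∀ (D : ℤ), D ≠ 0 → ∀ (δ ε : ℝ) (L : ℕ), 0 < δ → 0 < ε →
  ∃ X0 : ℕ, ∀ (N1 N2 : ℤ) (X : ℕ), X0 ≤ X → N1.natAbs ≤ X ^ L → N2.natAbs ≤ X ^ L →
    (((Icc 1 X ×ˢ Icc 1 X).filter (fun t : ℕ × ℕ =>
      IsCoprime (N1 + (t.1 : ℤ)) (N2 + (t.2 : ℤ)) ∧
      ¬ (N1 + (t.1 : ℤ) ≠ 0 ∧ N2 + (t.2 : ℤ) ≠ 0 ∧ N1 + (t.1 : ℤ) ≠ N2 + (t.2 : ℤ) ∧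
        ((S2x (D * (N1 + (t.1 : ℤ))) (D * (N2 + (t.2 : ℤ)))).card : ℝ) ≤
        ((C1y (D * (N1 + (t.1 : ℤ))) (D * (N2 + (t.2 : ℤ)))).card : ℝ) +
          (3 / 2 + δ) * Real.log (Real.log X)))).card : ℝ) ≤ ε * X ^ 2 := by
  intro D hD δ ε L hδ hε
  obtain ⟨C, hC0, hC⟩ := hME
  set η : ℝ := δ / 10 with hη
  have hη0 : 0 < η := by positivity
  obtain ⟨M1, hM1⟩ := card_Bd hNO (L + 2) η (ε / 4) hη0 (by positivity)
  set K : ℕ := 2 * D.natAbs.primeFactors.card + 11 + (2 * L + 4) with hK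
  have e1 := tendsto_LL.eventually_ge_atTop ((K : ℝ) / η)
  obtain ⟨M2, hM2⟩ := Filter.eventually_atTop.1 e1
  have e2 := tendsto_LL.eventually_ge_atTop (C + 3)
  obtain ⟨M3, hM3⟩ := Filter.eventually_atTop.1 e2
  have e3 := tendsto_LL.eventually_ge_atTop (8 / (ε * η ^ 2))
  obtain ⟨M4, hM4⟩ := Filter.eventually_atTop.1 e3
  refine ⟨M1 + M2 + M3 + M4 + 150, fun N1 N2 X hX hN1 hN2 => ?_⟩
  have h1 := hM2 X (by omega)
  rw [div_le_iff₀ hη0] at h1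
  have h3 := hM3 X (by omega)
  have h4 := hM4 X (by omega)
  set LL := Real.log (Real.log X) with hLL
  have hLL3 : 3 ≤ LL := by linarith
  have hLL0 : 0 ≤ LL := by linarith
  -- the sizes
  have hp0 : X ^ L ≤ X ^ (L + 1) := Nat.pow_le_pow_right (by omega) (by omega)
  have hp1 : X ≤ X ^ (L + 1) := Nat.le_self_pow (by omega) _
  have hp2 : 3 * X ^ (L + 1) ≤ X ^ (L + 2) := by
    rw [show X ^ (L + 2) = X * X ^ (L + 1) by ring]
    exact Nat.mul_le_mul_right _ (by omega)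
  have hs1 : ∀ N : ℤ, N.natAbs ≤ 2 * X ^ L + X → |N| ≤ (X : ℤ) ^ (L + 2) := by
    intro N hN
    have h2 : N.natAbs ≤ X ^ (L + 2) := by omega
    have h3 : ((N.natAbs : ℕ) : ℤ) ≤ ((X ^ (L + 2) : ℕ) : ℤ) := by exact_mod_cast h2
    push_cast at h3
    exact h3
  have hb1 := hM1 N1 X (by omega) (hs1 N1 (by omega))
  have hb2 := hM1 N2 X (by omega) (hs1 N2 (by omega))
  have hb3 : ∀ t ∈ Icc 1 X, ((Bd (N1 - (N2 + (t : ℤ))) X η).card : ℝ) ≤ ε / 4 * X := by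
    intro t ht
    rw [mem_Icc] at ht
    exact hM1 _ X (by omega) (hs1 _ (by omega))
  -- the truncation
  set y : ℕ := Nat.sqrt X with hy
  have hyy : y * y ≤ X := Nat.sqrt_le X
  have hyy' : X < (y + 1) * (y + 1) := by rw [hy]; exact Nat.lt_succ_sqrt X
  have hy11 : 11 ≤ y := by
    rw [hy, Nat.le_sqrt]
    omega
  have hysum : ∑ p ∈ PP D y, 1 / (p : ℝ) + 3 ≤ 2 * LL := by
    have k1 : ∑ p ∈ PP D y, 1 / (p : ℝ) ≤ ∑ p ∈ (Ioc 10 y).filter Nat.Prime, 1 / (p : ℝ) := by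
      refine sum_le_sum_of_subset_of_nonneg ?_ fun p _ _ => by positivity
      intro p hp
      rw [mem_PP] at hp
      rw [mem_filter, mem_Ioc]
      exact ⟨hp.1, hp.2.1⟩
    have k2 := hC y hy11
    have k3 : Real.log (Real.log y) ≤ LL := by
      have hy1 : (11 : ℝ) ≤ y := by exact_mod_cast hy11
      have hyX : (y : ℝ) ≤ X := by
        have : y ≤ X := Nat.sqrt_le_self X
        exact_mod_cast this
      apply Real.log_le_log
      · exact Real.log_pos (by linarith)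
      · exact Real.log_le_log (by linarith) hyX
    linarith
  have hch := cheb D N1 N2 X y hyy (η * LL) (by positivity)
  have n4 : (((Icc 1 X ×ˢ Icc 1 X).filter (fun t : ℕ × ℕ =>
      η * LL < |Sy D y (N1 + (t.1 : ℤ)) (N2 + (t.2 : ℤ))|)).card : ℝ) ≤ ε / 4 * X ^ 2 := by
    have hX0 : (0 : ℝ) ≤ X ^ 2 := by positivity
    have k1 := mul_le_mul_of_nonneg_left hysum hX0
    have k2 : 8 ≤ LL * (ε * η ^ 2) := by
      rw [div_le_iff₀ (by positivity)] at h4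
      exact h4
    have k3 : (0 : ℝ) < (η * LL) ^ 2 := by positivity
    rw [← le_div_iff₀ k3] at hch
    refine hch.trans ?_
    rw [div_le_iff₀ k3]
    refine k1.trans ?_
    have k4 : (X : ℝ) ^ 2 * (2 * LL) * 4 ≤ (X : ℝ) ^ 2 * LL * (LL * (ε * η ^ 2)) := by
      have := mul_le_mul_of_nonneg_left k2 (mul_nonneg hX0 hLL0)
      linarith
    nlinarith
  -- the bad pairs
  have hsub : ((Icc 1 X ×ˢ Icc 1 X).filter (fun t : ℕ × ℕ =>
      IsCoprime (N1 + (t.1 : ℤ)) (N2 + (t.2 : ℤ)) ∧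
      ¬ (N1 + (t.1 : ℤ) ≠ 0 ∧ N2 + (t.2 : ℤ) ≠ 0 ∧ N1 + (t.1 : ℤ) ≠ N2 + (t.2 : ℤ) ∧
        ((S2x (D * (N1 + (t.1 : ℤ))) (D * (N2 + (t.2 : ℤ)))).card : ℝ) ≤
        ((C1y (D * (N1 + (t.1 : ℤ))) (D * (N2 + (t.2 : ℤ)))).card : ℝ) +
          (3 / 2 + δ) * LL))) ⊆
      (((Icc 1 X ×ˢ Icc 1 X).filter (fun t : ℕ × ℕ => N1 + (t.1 : ℤ) ∈ Bd N1 X η) ∪
        (Icc 1 X ×ˢ Icc 1 X).filter (fun t : ℕ × ℕ => N2 + (t.2 : ℤ) ∈ Bd N2 X η)) ∪
      (Icc 1 X ×ˢ Icc 1 X).filter (fun t : ℕ × ℕ =>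
        (N1 - (N2 + (t.2 : ℤ))) + (t.1 : ℤ) ∈ Bd (N1 - (N2 + (t.2 : ℤ))) X η)) ∪
      (Icc 1 X ×ˢ Icc 1 X).filter (fun t : ℕ × ℕ =>
        η * LL < |Sy D y (N1 + (t.1 : ℤ)) (N2 + (t.2 : ℤ))|) := by
    intro t ht
    rw [mem_filter] at ht
    obtain ⟨ht1, hco, ht2⟩ := ht
    rw [mem_union, mem_union, mem_union, mem_filter, mem_filter, mem_filter, mem_filter]
    by_contra hcon
    push Not at hcon
    obtain ⟨⟨⟨c1, c2⟩, c3⟩, c4⟩ := hcon
    replace c1 := c1 ht1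
    replace c2 := c2 ht1
    replace c3 := c3 ht1
    replace c4 := c4 ht1
    have ht1' := ht1
    rw [mem_product, mem_Icc, mem_Icc] at ht1'
    obtain ⟨⟨r1, r2⟩, r3, r4⟩ := ht1'
    rw [mem_Bd] at c1 c2 c3
    push Not at c1 c2 c3
    obtain ⟨a0, a1, a2⟩ := c1 (by rw [mem_Ioc]; omega)
    obtain ⟨b0, b1, b2⟩ := c2 (by rw [mem_Ioc]; omega)
    obtain ⟨d0, d1, -⟩ := c3 (by rw [mem_Ioc]; omega)
    set a : ℤ := N1 + (t.1 : ℤ) with ha
    set b : ℤ := N2 + (t.2 : ℤ) with hb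
    have hab : N1 - b + (t.1 : ℤ) = a - b := by rw [ha]; ring
    rw [hab] at d0 d1
    have hne : a ≠ b := sub_ne_zero.1 d0
    refine ht2 ⟨a0, b0, hne, ?_⟩
    have hsz : (a - b).natAbs < (y + 1) ^ (2 * L + 4 + 1) := by
      have q1 : (a - b).natAbs ≤ 2 * X ^ L + X := by omega
      have q2 : (a - b).natAbs ≤ X ^ (L + 2) := by omega
      have q3 : X ^ (L + 2) ≤ ((y + 1) * (y + 1)) ^ (L + 2) := Nat.pow_le_pow_left hyy'.le _
      have q4 : ((y + 1) * (y + 1)) ^ (L + 2) = (y + 1) ^ (2 * L + 4) := by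
        rw [← pow_two, ← pow_mul]
        congr 1
      have q5 : (y + 1) ^ (2 * L + 4) < (y + 1) ^ (2 * L + 4 + 1) :=
        Nat.pow_lt_pow_right (by omega) (by omega)
      omega
    have k1 := card_S2x (a := a) (b := b) hD a0 b0
    have k2 := card_Tf (a := a) (b := b) hD
    have k3 := card_C1y (a := a) (b := b) hD hco
    have k4 := trunc (D := D) hne y (2 * L + 4) hsz
    have k5 := (abs_le.1 c4).1
    have k6 := (abs_le.1 (a1 a0)).2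
    have k7 := (abs_le.1 (b1 b0)).2
    have k8 := (abs_le.1 (d1 d0)).1
    have k9 : δ * LL = 10 * (η * LL) := by rw [hη]; ring
    have k10 : 0 ≤ η * LL := by positivity
    have k11 : ((S2x (D * a) (D * b)).card : ℝ) ≤ D.natAbs.primeFactors.card +
        a.natAbs.primeFactors.card + b.natAbs.primeFactors.card := by exact_mod_cast k1
    have k12 : ((a - b).natAbs.primeFactors.card : ℝ) ≤ (Tf D a b).card +
        (D.natAbs.primeFactors.card + 11) := by exact_mod_cast k2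
    have k13 : (K : ℝ) = 2 * D.natAbs.primeFactors.card + 11 + (2 * L + 4) := by
      rw [hK]; push_cast; ring
    have k14 : (((2 * L + 4 : ℕ)) : ℝ) = 2 * L + 4 := by push_cast; ring
    rw [k14] at k4
    have k15 : (0 : ℝ) ≤ D.natAbs.primeFactors.card := Nat.cast_nonneg _
    have k16 : (0 : ℝ) ≤ L := Nat.cast_nonneg _
    nlinarith
  have hX0 : (0 : ℝ) ≤ X := Nat.cast_nonneg X
  have n1 : (((Icc 1 X ×ˢ Icc 1 X).filter (fun t : ℕ × ℕ =>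
      N1 + (t.1 : ℤ) ∈ Bd N1 X η)).card : ℝ) ≤ ε / 4 * X ^ 2 := by
    have h2 := pairA X (fun _ => N1) (fun _ => Bd N1 X η)
    rw [sum_const, Nat.card_Icc, smul_eq_mul, Nat.add_sub_cancel] at h2
    have h3 : (((Icc 1 X ×ˢ Icc 1 X).filter (fun t : ℕ × ℕ =>
      N1 + (t.1 : ℤ) ∈ Bd N1 X η)).card : ℝ) ≤ X * (Bd N1 X η).card := by exact_mod_cast h2
    nlinarith
  have n2 : (((Icc 1 X ×ˢ Icc 1 X).filter (fun t : ℕ × ℕ =>
      N2 + (t.2 : ℤ) ∈ Bd N2 X η)).card : ℝ) ≤ ε / 4 * X ^ 2 := by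
    have h2 := pairB X (fun _ => N2) (fun _ => Bd N2 X η)
    rw [sum_const, Nat.card_Icc, smul_eq_mul, Nat.add_sub_cancel] at h2
    have h3 : (((Icc 1 X ×ˢ Icc 1 X).filter (fun t : ℕ × ℕ =>
      N2 + (t.2 : ℤ) ∈ Bd N2 X η)).card : ℝ) ≤ X * (Bd N2 X η).card := by exact_mod_cast h2
    nlinarith
  have n3 : (((Icc 1 X ×ˢ Icc 1 X).filter (fun t : ℕ × ℕ =>
        (N1 - (N2 + (t.2 : ℤ))) + (t.1 : ℤ) ∈ Bd (N1 - (N2 + (t.2 : ℤ))) X η)).card : ℝ) ≤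
      ε / 4 * X ^ 2 := by
    have h2 := pairA X (fun s => N1 - (N2 + (s : ℤ))) (fun s => Bd (N1 - (N2 + (s : ℤ))) X η)
    have h3 : (((Icc 1 X ×ˢ Icc 1 X).filter (fun t : ℕ × ℕ =>
        (N1 - (N2 + (t.2 : ℤ))) + (t.1 : ℤ) ∈ Bd (N1 - (N2 + (t.2 : ℤ))) X η)).card : ℝ) ≤
        ∑ s ∈ Icc 1 X, ((Bd (N1 - (N2 + (s : ℤ))) X η).card : ℝ) := by exact_mod_cast h2
    refine h3.trans ((sum_le_sum hb3).trans ?_)
    rw [sum_const, Nat.card_Icc, nsmul_eq_mul, Nat.add_sub_cancel]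
    exact le_of_eq (by ring)
  have hfin := (card_le_card hsub).trans ((card_union_le _ _).trans
    (Nat.add_le_add_right ((card_union_le _ _).trans
      (Nat.add_le_add_right (card_union_le _ _) _)) _))
  have hfin' : (((Icc 1 X ×ˢ Icc 1 X).filter (fun t : ℕ × ℕ =>
      IsCoprime (N1 + (t.1 : ℤ)) (N2 + (t.2 : ℤ)) ∧
      ¬ (N1 + (t.1 : ℤ) ≠ 0 ∧ N2 + (t.2 : ℤ) ≠ 0 ∧ N1 + (t.1 : ℤ) ≠ N2 + (t.2 : ℤ) ∧
        ((S2x (D * (N1 + (t.1 : ℤ))) (D * (N2 + (t.2 : ℤ)))).card : ℝ) ≤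
        ((C1y (D * (N1 + (t.1 : ℤ))) (D * (N2 + (t.2 : ℤ)))).card : ℝ) +
          (3 / 2 + δ) * LL))).card : ℝ) ≤
      (((Icc 1 X ×ˢ Icc 1 X).filter (fun t : ℕ × ℕ => N1 + (t.1 : ℤ) ∈ Bd N1 X η)).card : ℝ) +
        (((Icc 1 X ×ˢ Icc 1 X).filter (fun t : ℕ × ℕ => N2 + (t.2 : ℤ) ∈ Bd N2 X η)).card : ℝ) +
      (((Icc 1 X ×ˢ Icc 1 X).filter (fun t : ℕ × ℕ =>
        (N1 - (N2 + (t.2 : ℤ))) + (t.1 : ℤ) ∈ Bd (N1 - (N2 + (t.2 : ℤ))) X η)).card : ℝ) +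
      (((Icc 1 X ×ˢ Icc 1 X).filter (fun t : ℕ × ℕ =>
      η * LL < |Sy D y (N1 + (t.1 : ℤ)) (N2 + (t.2 : ℤ))|)).card : ℝ) := by
    exact_mod_cast hfin
  linarith

end Pool.Agent.TH841.NO.CNTU2f
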