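import Mathlib
import Pool.Agent.TH841.NO.Stm
import Pool.Agent.TH841.PM.Bad
import Pool.Agent.TH841.NO.Cntu2B

/-!
# Project NO: the upper count for pairs
-/

set_option autoImplicit false

namespace Pool.Agent.TH841.NO.CNTU2f

open Finset Polynomial

open Pool.Agent.H474R2.PG (rho)

theorem me : ME := by
  obtain ⟨C, hC0, hC⟩ := Pool.Agent.TH841.PT.mert (f := (X : ℤ[X])) prime_X.irreducible
    (by rw [natDegree_X]; exact one_pos) (z := 10) (by norm_num)
  refine ⟨C, hC0, fun y hy => ?_⟩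
  have h1 := (abs_le.1 (hC y (by omega))).2
  have h2 : ∑ p ∈ (Ioc 10 y).filter Nat.Prime, 1 / (p : ℝ) ≤
      Pool.Agent.TH841.PT.Sp (fun p => (rho (X : ℤ[X]) p : ℝ)) 10 y := by
    unfold Pool.Agent.TH841.PT.Sp Pool.Agent.W262.RK.PS
    refine sum_le_sum fun p hp => ?_
    rw [mem_filter, mem_Ioc] at hp
    have h3 : 1 ≤ rho (X : ℤ[X]) p := by
      unfold Pool.Agent.H474R2.PG.rho
      rw [Nat.one_le_iff_ne_zero, ← Nat.pos_iff_ne_zero, card_pos]
      refine ⟨0, ?_⟩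
      rw [mem_filter, mem_range, eval_X]
      exact ⟨hp.2.pos, by simp⟩
    have h4 : (1 : ℝ) ≤ rho (X : ℤ[X]) p := by exact_mod_cast h3
    have h5 : (0 : ℝ) ≤ p := Nat.cast_nonneg p
    exact div_le_div_of_nonneg_right h4 h5
  linarith

/-- NO-CNTU2 -/
theorem cntu2 : Pool.Agent.TH841.NO.CNTU2 := by
  classical
  have h := cntu2_of (fun B δ ε hδ hε => Pool.Agent.TH841.PM.BADf.normal' X
    prime_X.irreducible (by rw [natDegree_X]; exact one_pos) B δ ε hδ hε) me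
  intro D hD δ ε L hδ hε
  obtain ⟨X0, hX0⟩ := h D hD δ ε L hδ hε
  refine ⟨X0, fun N1 N2 Y hY h1 h2 => ?_⟩
  have h3 := hX0 N1 N2 Y hY h1 h2
  have e1 : ∀ A B : ℤ, Pool.Agent.TH841.NO.S2 A B = S2x A B := fun A B => rfl
  have e2 : ∀ A B : ℤ, Pool.Agent.TH841.NO.C1g A B = C1y A B := by
    intro A B
    unfold Pool.Agent.TH841.NO.C1g C1y
    ext p
    simp only [mem_filter]
  simp only [e1, e2]
  convert h3

end Pool.Agent.TH841.NO.CNTU2f
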