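import Mathlib
import Pool.Agent.TH841.NO.Stm

/-!
# Linear algebra over `𝔽₂` and quadratic reciprocity (job NO-LIN2)

The matrix with rows `C1 ⊕ C2` and columns `S`: `T` is split into the 32 classes of the part
`u` of `d` away from `S` (a divisor of 210), and within a class the exponent vectors lie in one
coset of the kernel. The kernel of the transposed matrix, cut by five functionals (the classes
modulo 8 and the symbols at 3, 5, 7), gives `Z`, by the reciprocity law. The lemmas from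
`s_prod` to `not_dvd_prime` are those of `Pool/Agent/TH841/LS/Lin.lean`.
-/

set_option autoImplicit false

namespace Pool.Agent.TH841.NO.LIN2f

open Finset

lemma s_prod (s : ℤ → ZMod 2) (U : ℤ → Prop) (h1 : U 1) (hs1 : s 1 = 0)
    (hmul : ∀ a b, U a → U b → U (a * b) ∧ s (a * b) = s a + s b) {κ : Type} (T : Finset κ)
    (f : κ → ℤ) (ε : κ → ZMod 2) (hU : ∀ k ∈ T, U (f k)) :
    U (∏ k ∈ T, if ε k = 1 then f k else 1) ∧
      s (∏ k ∈ T, if ε k = 1 then f k else 1) = ∑ k ∈ T, ε k * s (f k) := by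
  classical
  induction T using Finset.induction_on with
  | empty => simpa using ⟨h1, hs1⟩
  | insert a T ha ih =>
    rw [Finset.prod_insert ha, Finset.sum_insert ha]
    obtain ⟨i1, i2⟩ := ih fun k hk => hU k (Finset.mem_insert_of_mem hk)
    have hUa := hU a (Finset.mem_insert_self _ _)
    have h01 : ∀ z : ZMod 2, z = 1 ∨ z = 0 := by decide
    rcases h01 (ε a) with h | h
    · rw [if_pos h]
      obtain ⟨j1, j2⟩ := hmul _ _ hUa i1
      refine ⟨j1, ?_⟩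
      rw [j2, i2, h, one_mul]
    · rw [if_neg (by rw [h]; decide), one_mul, h, zero_mul, zero_add]
      exact ⟨i1, i2⟩

open Classical in
/-- quadratic residue symbol, additively -/
noncomputable def sp (p : ℕ) (a : ℤ) : ZMod 2 := if IsSquare (a : ZMod p) then 0 else 1

lemma sp_one (p : ℕ) : sp p 1 = 0 := by
  unfold sp
  rw [if_pos]
  rw [Int.cast_one]
  exact ⟨1, by ring⟩

lemma sq_of_sp {p : ℕ} {a : ℤ} (h : sp p a = 0) : IsSquare (a : ZMod p) := by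
  unfold sp at h
  by_contra hne
  rw [if_neg hne] at h
  exact absurd h (by decide)

lemma sp_eq (p : ℕ) [hp : Fact p.Prime] {a : ℤ} (a0 : (a : ZMod p) ≠ 0) :
    sp p a = if legendreSym p a = 1 then 0 else 1 := by
  unfold sp
  by_cases h : IsSquare (a : ZMod p)
  · rw [if_pos h, if_pos ((legendreSym.eq_one_iff p a0).2 h)]
  · rw [if_neg h, if_neg (fun h' => h ((legendreSym.eq_one_iff p a0).1 h'))]

lemma sp_mul (p : ℕ) [hp : Fact p.Prime] (a b : ℤ) (ha : ¬ (p : ℤ) ∣ a) (hb : ¬ (p : ℤ) ∣ b) :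
    ¬ (p : ℤ) ∣ a * b ∧ sp p (a * b) = sp p a + sp p b := by
  have hpi : Prime (p : ℤ) := Nat.prime_iff_prime_int.1 hp.out
  have hab : ¬ (p : ℤ) ∣ a * b := fun h => (hpi.dvd_or_dvd h).elim ha hb
  refine ⟨hab, ?_⟩
  have a0 : (a : ZMod p) ≠ 0 := fun h => ha ((ZMod.intCast_zmod_eq_zero_iff_dvd _ _).1 h)
  have b0 : (b : ZMod p) ≠ 0 := fun h => hb ((ZMod.intCast_zmod_eq_zero_iff_dvd _ _).1 h)
  have ab0 : ((a * b : ℤ) : ZMod p) ≠ 0 := fun h =>
    hab ((ZMod.intCast_zmod_eq_zero_iff_dvd _ _).1 h)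
  rw [sp_eq p a0, sp_eq p b0, sp_eq p ab0, legendreSym.mul]
  rcases legendreSym.eq_one_or_neg_one p a0 with h | h <;>
  rcases legendreSym.eq_one_or_neg_one p b0 with h' | h' <;>
  rw [h, h'] <;> decide

/-- the two symbols at `2` -/
def s4 (a : ℤ) : ZMod 2 := if a % 4 = 1 then 0 else 1

def s8 (a : ℤ) : ZMod 2 := if a % 8 = 1 ∨ a % 8 = 7 then 0 else 1

lemma s4_mul (a b : ℤ) (ha : a % 2 = 1) (hb : b % 2 = 1) :
    (a * b) % 2 = 1 ∧ s4 (a * b) = s4 a + s4 b := by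
  have h1 : (a * b) % 2 = 1 := by rw [Int.mul_emod, ha, hb]; rfl
  refine ⟨h1, ?_⟩
  unfold s4
  have h2 : a % 4 = 1 ∨ a % 4 = 3 := by omega
  have h3 : b % 4 = 1 ∨ b % 4 = 3 := by omega
  rw [Int.mul_emod]
  rcases h2 with h | h <;> rcases h3 with h' | h' <;> rw [h, h'] <;> decide

lemma s8_mul (a b : ℤ) (ha : a % 2 = 1) (hb : b % 2 = 1) :
    (a * b) % 2 = 1 ∧ s8 (a * b) = s8 a + s8 b := by
  have h1 : (a * b) % 2 = 1 := by rw [Int.mul_emod, ha, hb]; rfl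
  refine ⟨h1, ?_⟩
  unfold s8
  have h2 : a % 8 = 1 ∨ a % 8 = 3 ∨ a % 8 = 5 ∨ a % 8 = 7 := by omega
  have h3 : b % 8 = 1 ∨ b % 8 = 3 ∨ b % 8 = 5 ∨ b % 8 = 7 := by omega
  rw [Int.mul_emod]
  rcases h2 with h | h | h | h <;> rcases h3 with h' | h' | h' | h' <;> rw [h, h'] <;> decide

lemma mod8 {a : ℤ} (ha : a % 2 = 1) (h4 : s4 a = 0) (h8 : s8 a = 0) : a % 8 = 1 := by
  unfold s4 at h4
  unfold s8 at h8
  have k4 : a % 4 = 1 := by
    by_contra h
    rw [if_neg h] at h4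
    exact absurd h4 (by decide)
  have k8 : a % 8 = 1 ∨ a % 8 = 7 := by
    by_contra h
    rw [if_neg h] at h8
    exact absurd h8 (by decide)
  omega

lemma not_dvd_prime {p q : ℕ} (hp : p.Prime) (hq : q.Prime) (h : q ≠ p) :
    ¬ (p : ℤ) ∣ ((q : ℕ) : ℤ) := by
  intro hd
  have h1 : p ∣ q := by exact_mod_cast hd
  exact h ((Nat.prime_dvd_prime_iff_eq hp hq).1 h1).symm


lemma fiber_le {α V W : Type} [AddCommGroup V] [DecidableEq W] [DecidableEq V] (T : Finset α)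
    (D : Finset W) (u : α → W) (v : α → V) (K : Finset V) (hD : ∀ d ∈ T, u d ∈ D)
    (hinj : ∀ d ∈ T, ∀ d' ∈ T, u d = u d' → v d = v d' → d = d')
    (hK : ∀ d ∈ T, ∀ d' ∈ T, u d = u d' → v d - v d' ∈ K) : T.card ≤ K.card * D.card := by
  refine Finset.card_le_mul_card_image_of_maps_to hD _ ?_
  intro w hw
  rcases (T.filter (fun a => u a = w)).eq_empty_or_nonempty with h | ⟨d0, h0⟩
  · rw [h]; simp
  · obtain ⟨h0T, h0u⟩ := Finset.mem_filter.1 h0
    refine Finset.card_le_card_of_injOn (fun d => v d - v d0) ?_ ?_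
    · intro d hd
      obtain ⟨hdT, hdu⟩ := Finset.mem_filter.1 (Finset.mem_coe.1 hd)
      exact hK d hdT d0 h0T (hdu.trans h0u.symm)
    · intro d hd d' hd' he
      obtain ⟨hdT, hdu⟩ := Finset.mem_filter.1 (Finset.mem_coe.1 hd)
      obtain ⟨hdT', hdu'⟩ := Finset.mem_filter.1 (Finset.mem_coe.1 hd')
      exact hinj d hdT d' hdT' (hdu.trans hdu'.symm) (sub_left_injective he)

lemma ker_one {ι κ : Type} [Fintype ι] [Fintype κ] (c : Matrix ι κ (ZMod 2))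
    (K : Finset (κ → ZMod 2)) (hK : ∀ x, x ∈ K ↔ ∀ i, ∑ k, x k * c i k = 0) :
    K.card = 2 ^ Module.finrank (ZMod 2) (LinearMap.ker (Matrix.mulVecLin c)) ∧
    c.rank + Module.finrank (ZMod 2) (LinearMap.ker (Matrix.mulVecLin c)) = Fintype.card κ := by
  classical
  constructor
  · have h1 : K.card = Fintype.card (LinearMap.ker (Matrix.mulVecLin c)) := by
      rw [Fintype.card_of_subtype]
      intro x
      rw [hK, LinearMap.mem_ker]
      constructor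
      · intro h
        funext i
        simp only [Matrix.mulVecLin_apply, Matrix.mulVec, dotProduct, Pi.zero_apply]
        rw [← h i]
        exact Finset.sum_congr rfl fun k _ => mul_comm _ _
      · intro h i
        have h1 := congrFun h i
        simp only [Matrix.mulVecLin_apply, Matrix.mulVec, dotProduct, Pi.zero_apply] at h1
        rw [← h1]
        exact Finset.sum_congr rfl fun k _ => mul_comm _ _
    rw [h1, Module.card_eq_pow_finrank (K := ZMod 2), ZMod.card]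
  · have h1 := LinearMap.finrank_range_add_finrank_ker (Matrix.mulVecLin c)
    rw [Module.finrank_fintype_fun_eq_card] at h1
    exact h1

lemma card_ker {ι κ : Type} [Fintype ι] [Fintype κ] (c : ι → κ → ZMod 2)
    (K : Finset (κ → ZMod 2)) (hK : ∀ x, x ∈ K ↔ ∀ i, ∑ k, x k * c i k = 0)
    (K' : Finset (ι → ZMod 2)) (hK' : ∀ z, z ∈ K' ↔ ∀ k, ∑ i, z i * c i k = 0) :
    K.card * 2 ^ Fintype.card ι = 2 ^ Fintype.card κ * K'.card := by
  obtain ⟨h1, h2⟩ := ker_one (Matrix.of c) K hK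
  obtain ⟨h3, h4⟩ := ker_one (Matrix.of c).transpose K' hK'
  rw [Matrix.rank_transpose] at h4
  rw [h1, h3, ← h4, ← h2, ← pow_add, ← pow_add]
  congr 1
  omega

lemma dvd210 {u : ℤ} (hu : Squarefree u) (h : ∀ p : ℕ, p.Prime → (p : ℤ) ∣ u → p ≤ 7) :
    u ∣ 210 := by
  have h1 : Squarefree u.natAbs := Int.squarefree_natAbs.2 hu
  have h2 := Nat.prod_primeFactors_of_squarefree h1
  have h3 : u.natAbs.primeFactors ⊆ ({2, 3, 5, 7} : Finset ℕ) := by
    intro p hp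
    have hpp := Nat.prime_of_mem_primeFactors hp
    have h4 := h p hpp (Int.natCast_dvd.2 (Nat.dvd_of_mem_primeFactors hp))
    have h5 := hpp.two_le
    interval_cases p <;> revert hpp <;> decide
  have h4 : u.natAbs ∣ 210 := by
    rw [← h2]
    exact (Finset.prod_dvd_prod_of_subset _ _ _ h3).trans (by decide)
  exact Int.natAbs_dvd.1 (by exact_mod_cast (Int.natCast_dvd_natCast.2 h4))

lemma sp_of_jac {p : ℕ} (hp : p.Prime) {a : ℤ} (h : jacobiSym a p = 1) : sp p a = 0 := by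
  have : Fact p.Prime := ⟨hp⟩
  rw [← jacobiSym.legendreSym.to_jacobiSym] at h
  have h0 : (a : ZMod p) ≠ 0 := by
    intro h0
    rw [(legendreSym.eq_zero_iff p a).2 h0] at h
    exact absurd h (by decide)
  rw [sp_eq p h0, if_pos h]

lemma ne_zero_of_ndvd {p : ℕ} {a : ℤ} (h : ¬ (p : ℤ) ∣ a) : (a : ZMod p) ≠ 0 := fun h0 =>
  h ((ZMod.intCast_zmod_eq_zero_iff_dvd _ _).1 h0)

lemma jac_of_sp {p : ℕ} (hp : p.Prime) {a : ℤ} (ha : ¬ (p : ℤ) ∣ a) (h : sp p a = 0) :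
    jacobiSym a p = 1 := by
  have : Fact p.Prime := ⟨hp⟩
  rw [← jacobiSym.legendreSym.to_jacobiSym]
  rw [sp_eq p (ne_zero_of_ndvd ha)] at h
  by_contra hne
  rw [if_neg hne] at h
  exact absurd h (by decide)

lemma jac_sp {p : ℕ} (hp : p.Prime) {a : ℤ} (ha : ¬ (p : ℤ) ∣ a) :
    jacobiSym a p = if sp p a = 0 then 1 else -1 := by
  have : Fact p.Prime := ⟨hp⟩
  rw [← jacobiSym.legendreSym.to_jacobiSym]
  have h0 := ne_zero_of_ndvd ha
  rw [sp_eq p h0]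
  rcases legendreSym.eq_one_or_neg_one p h0 with h | h <;> rw [h] <;> decide

lemma prod_sign {κ : Type} (T : Finset κ) (f : κ → ℤ) (ε g : κ → ZMod 2)
    (h : ∀ k ∈ T, ε k = 1 → f k = if g k = 0 then 1 else -1) :
    ∏ k ∈ T, (if ε k = 1 then f k else 1) = if ∑ k ∈ T, ε k * g k = 0 then 1 else -1 := by
  classical
  induction T using Finset.induction_on with
  | empty => simp
  | insert a T ha ih =>
    rw [Finset.prod_insert ha, Finset.sum_insert ha, ih fun k hk => h k (Finset.mem_insert_of_mem hk)]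
    have h01 : ∀ z : ZMod 2, z = 1 ∨ z = 0 := by decide
    rcases h01 (ε a) with h' | h'
    · rw [h', if_pos rfl, one_mul, h a (Finset.mem_insert_self _ _) h']
      rcases h01 (g a) with h'' | h'' <;> rcases h01 (∑ k ∈ T, ε k * g k) with h3 | h3 <;>
        rw [h'', h3] <;> decide
    · rw [h', if_neg (by decide), one_mul, zero_mul, zero_add]

lemma jac_prod (a : ℤ) {κ : Type} (T : Finset κ) (P : κ → ℕ) (ε : κ → ZMod 2)
    (hP : ∀ k ∈ T, P k ≠ 0) : jacobiSym a (∏ k ∈ T, if ε k = 1 then P k else 1) =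
      ∏ k ∈ T, if ε k = 1 then jacobiSym a (P k) else 1 := by
  classical
  induction T using Finset.induction_on with
  | empty => simp
  | insert b T hb ih =>
    rw [Finset.prod_insert hb, Finset.prod_insert hb, jacobiSym.mul_right',
      ih fun k hk => hP k (Finset.mem_insert_of_mem hk)]
    · congr 1
      split_ifs
      · rfl
      · exact jacobiSym.one_right a
    · split_ifs
      · exact hP b (Finset.mem_insert_self _ _)
      · exact one_ne_zero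
    · rw [Finset.prod_ne_zero_iff]
      intro k hk
      split_ifs
      · exact hP k (Finset.mem_insert_of_mem hk)
      · exact one_ne_zero


/-- the product with exponents `x` -/
def Pv (S : Finset ℕ) (x : S → ZMod 2) : ℤ := ∏ k : S, if x k = 1 then ((k : ℕ) : ℤ) else 1

open Classical in
/-- the indicator of the divisibilities -/
noncomputable def vv (S : Finset ℕ) (d : ℤ) : S → ZMod 2 := fun k =>
  if ((k : ℕ) : ℤ) ∣ d then 1 else 0

lemma vv_one {S : Finset ℕ} {d : ℤ} {k : S} : vv S d k = 1 ↔ ((k : ℕ) : ℤ) ∣ d := by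
  unfold vv
  split_ifs with h
  · simp [h]
  · simp [h]

lemma vv_zero {S : Finset ℕ} {d : ℤ} {k : S} (h : ¬ ((k : ℕ) : ℤ) ∣ d) : vv S d k = 0 := by
  unfold vv
  rw [if_neg h]

lemma Pv_dvd {S : Finset ℕ} (hS : ∀ p ∈ S, p.Prime) (d : ℤ) : Pv S (vv S d) ∣ d := by
  unfold Pv
  refine Finset.prod_dvd_of_coprime ?_ ?_
  · intro i _ j _ hij
    show IsCoprime _ _
    by_cases h : vv S d i = 1
    · by_cases h' : vv S d j = 1
      · simp only [if_pos h, if_pos h']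
        rw [Nat.isCoprime_iff_coprime]
        exact (Nat.coprime_primes (hS _ i.2) (hS _ j.2)).2 fun h2 => hij (Subtype.ext h2)
      · simp only [if_neg h']
        exact isCoprime_one_right
    · simp only [if_neg h]
      exact isCoprime_one_left
  · intro i _
    split_ifs with h
    · exact vv_one.1 h
    · exact one_dvd d

/-- the part away from `S` -/
noncomputable def uu (S : Finset ℕ) (d : ℤ) : ℤ := d / Pv S (vv S d)

lemma uu_eq {S : Finset ℕ} (hS : ∀ p ∈ S, p.Prime) (d : ℤ) : d = Pv S (vv S d) * uu S d :=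
  (Int.mul_ediv_cancel' (Pv_dvd hS d)).symm

lemma uu_le {S : Finset ℕ} (hS : ∀ p ∈ S, p.Prime) {d : ℤ} (hd : Squarefree d)
    (h : ∀ p : ℕ, p.Prime → (p : ℤ) ∣ d → p ∈ S ∨ p ≤ 7) :
    Squarefree (uu S d) ∧ ∀ p : ℕ, p.Prime → (p : ℤ) ∣ uu S d → p ≤ 7 := by
  have h1 := uu_eq hS d
  refine ⟨?_, ?_⟩
  · rw [h1] at hd
    exact hd.of_mul_right
  · intro p hp hpu
    have hpd : (p : ℤ) ∣ d := by
      rw [h1]
      exact hpu.mul_left _
    rcases h p hp hpd with h2 | h2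
    · exfalso
      have h3 : (p : ℤ) ∣ Pv S (vv S d) := by
        unfold Pv
        refine Dvd.dvd.trans ?_ (Finset.dvd_prod_of_mem _ (Finset.mem_univ (⟨p, h2⟩ : S)))
        rw [if_pos (vv_one.2 hpd)]
      have h4 : (p : ℤ) * p ∣ d := by
        rw [h1]
        exact mul_dvd_mul h3 hpu
      have h5 := hd _ h4
      exact (Nat.prime_iff_prime_int.1 hp).not_isUnit h5
    · exact h2

/-- the coefficients -/
noncomputable def cc (A : ℤ) (S C1 C2 : Finset ℕ) : C1 ⊕ C2 → S → ZMod 2 := fun i q =>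
  match i with
  | Sum.inl p => sp p ((q : ℕ) : ℤ)
  | Sum.inr p => if (q : ℕ) = p then sp p (A / ((p : ℕ) : ℤ)) else sp p ((q : ℕ) : ℤ)

/-- the primes -/
def PP (C1 C2 : Finset ℕ) : C1 ⊕ C2 → ℕ := Sum.elim (fun p => (p : ℕ)) (fun p => (p : ℕ))

lemma not_dvd_one {p : ℕ} (hp : p.Prime) : ¬ (p : ℤ) ∣ 1 := fun h =>
  (Nat.prime_iff_prime_int.1 hp).not_isUnit (isUnit_of_dvd_one h)

lemma primal_sum {A : ℤ} {S C1 C2 : Finset ℕ} (hS : ∀ p ∈ S, p.Prime ∧ 11 ≤ p)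
    (hC1 : ∀ p ∈ C1, p.Prime ∧ 11 ≤ p ∧ p ∉ S) (hC2S : C2 ⊆ S)
    (hC2 : ∀ p ∈ C2, (p : ℤ) ∣ A ∧ ¬ (p : ℤ) ^ 2 ∣ A) {d : ℤ} (hd : Squarefree d)
    (h : ∀ p : ℕ, p.Prime → (p : ℤ) ∣ d → p ∈ S ∨ p ≤ 7) (h1 : ∀ p ∈ C1, jacobiSym d p = 1)
    (h2 : ∀ p ∈ C2, chi2 A d p = 1) (i : C1 ⊕ C2) :
    ∑ k, vv S d k * cc A S C1 C2 i k = sp (PP C1 C2 i) (uu S d) := by
  classical
  have hSp : ∀ p ∈ S, p.Prime := fun p hp => (hS p hp).1
  obtain ⟨hu1, hu2⟩ := uu_le hSp hd h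
  have hdu := uu_eq hSp d
  have hadd : ∀ a b : ZMod 2, a + b = 0 → a = b := by decide
  rcases i with p | p
  · obtain ⟨hp, hp11, hpS⟩ := hC1 p p.2
    have : Fact (p : ℕ).Prime := ⟨hp⟩
    have hnd : ∀ k ∈ (Finset.univ : Finset S), ¬ ((p : ℕ) : ℤ) ∣ ((k : ℕ) : ℤ) := by
      intro k _
      exact not_dvd_prime hp (hSp k k.2) (fun h => hpS (h ▸ k.2))
    have k1 := s_prod (sp p) (fun a => ¬ ((p : ℕ) : ℤ) ∣ a) (not_dvd_one hp)
      (sp_one p) (sp_mul p) Finset.univ (fun k : S => ((k : ℕ) : ℤ)) (vv S d) hnd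
    have hpu : ¬ ((p : ℕ) : ℤ) ∣ uu S d := fun h => by
      have := hu2 p hp h
      omega
    have k2 := (sp_mul p _ _ k1.1 hpu).2
    have k3 := sp_of_jac hp (h1 p p.2)
    rw [hdu] at k3
    unfold Pv at k3
    rw [k3, k1.2] at k2
    exact hadd _ _ k2.symm
  · have hpS : (p : ℕ) ∈ S := hC2S p.2
    obtain ⟨hp, hp11⟩ := hS p hpS
    have : Fact (p : ℕ).Prime := ⟨hp⟩
    obtain ⟨hpA, hpA2⟩ := hC2 p p.2
    have hpu : ¬ ((p : ℕ) : ℤ) ∣ uu S d := fun h => by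
      have := hu2 p hp h
      omega
    have hA1 : ¬ ((p : ℕ) : ℤ) ∣ A / ((p : ℕ) : ℤ) := by
      intro hd
      apply hpA2
      have h5 : A = ((p : ℕ) : ℤ) * (A / ((p : ℕ) : ℤ)) := (Int.mul_ediv_cancel' hpA).symm
      rw [h5, pow_two]
      exact mul_dvd_mul_left _ hd
    have hnd : ∀ k ∈ (Finset.univ : Finset S).erase ⟨p, hpS⟩, ¬ ((p : ℕ) : ℤ) ∣ ((k : ℕ) : ℤ) := by
      intro k hk'
      refine not_dvd_prime hp (hSp k k.2) (fun h => ?_)
      exact (Finset.mem_erase.1 hk').1 (Subtype.ext h)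
    have k1 := s_prod (sp p) (fun a => ¬ ((p : ℕ) : ℤ) ∣ a) (not_dvd_one hp) (sp_one p) (sp_mul p)
      ((Finset.univ : Finset S).erase ⟨p, hpS⟩) (fun k : S => ((k : ℕ) : ℤ)) (vv S d) hnd
    set m : ℤ := ∏ k ∈ (Finset.univ : Finset S).erase ⟨p, hpS⟩,
      if vv S d k = 1 then ((k : ℕ) : ℤ) else 1 with hm
    have hdd : Pv S (vv S d) = (if vv S d ⟨p, hpS⟩ = 1 then ((p : ℕ) : ℤ) else 1) * m := by
      unfold Pv
      rw [hm, ← Finset.mul_prod_erase (Finset.univ : Finset S)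
        (fun k : S => if vv S d k = 1 then ((k : ℕ) : ℤ) else 1) (Finset.mem_univ ⟨p, hpS⟩)]
    have l2 : ∑ k ∈ (Finset.univ : Finset S).erase ⟨p, hpS⟩,
        vv S d k * cc A S C1 C2 (Sum.inr p) k =
        ∑ k ∈ (Finset.univ : Finset S).erase ⟨p, hpS⟩, vv S d k * sp p ((k : ℕ) : ℤ) := by
      refine Finset.sum_congr rfl fun k hk' => ?_
      have hne : (k : ℕ) ≠ p := fun h => (Finset.mem_erase.1 hk').1 (Subtype.ext h)
      show vv S d k * (if (k : ℕ) = p then sp p (A / ((p : ℕ) : ℤ)) else sp p ((k : ℕ) : ℤ)) = _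
      rw [if_neg hne]
    rw [← Finset.add_sum_erase _ _ (Finset.mem_univ (⟨p, hpS⟩ : S)), l2, ← k1.2]
    have l3 : cc A S C1 C2 (Sum.inr p) ⟨p, hpS⟩ = sp p (A / ((p : ℕ) : ℤ)) := by
      show (if (p : ℕ) = p then sp p (A / ((p : ℕ) : ℤ)) else sp p (((p : ℕ) : ℕ) : ℤ)) = _
      rw [if_pos rfl]
    rw [l3]
    show _ = sp p (uu S d)
    obtain ⟨q1, q2⟩ := sp_mul p m (uu S d) k1.1 hpu
    have h3 := h2 p p.2
    unfold chi2 at h3
    by_cases hpd : ((p : ℕ) : ℤ) ∣ d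
    · rw [if_pos hpd] at h3
      have hv : vv S d ⟨p, hpS⟩ = 1 := vv_one.2 hpd
      rw [if_pos hv] at hdd
      have h4 : d / ((p : ℕ) : ℤ) = m * uu S d := by
        rw [hdd] at hdu
        conv_lhs => rw [hdu]
        rw [mul_assoc]
        exact Int.mul_ediv_cancel_left _ (by exact_mod_cast hp.ne_zero)
      rw [h4] at h3
      have h5 := sp_of_jac hp h3
      rw [(sp_mul p _ _ hA1 q1).2, q2] at h5
      rw [hv, one_mul]
      apply hadd
      rw [← h5]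
      ring
    · rw [if_neg hpd] at h3
      have hv : vv S d ⟨p, hpS⟩ = 0 := vv_zero hpd
      rw [if_neg (by rw [hv]; decide), one_mul] at hdd
      have h5 := sp_of_jac hp h3
      rw [hdu, hdd, q2] at h5
      rw [hv, zero_mul, zero_add]
      exact hadd _ _ h5

lemma primal {A : ℤ} {S C1 C2 : Finset ℕ} (hS : ∀ p ∈ S, p.Prime ∧ 11 ≤ p)
    (hC1 : ∀ p ∈ C1, p.Prime ∧ 11 ≤ p ∧ p ∉ S) (hC2S : C2 ⊆ S)
    (hC2 : ∀ p ∈ C2, (p : ℤ) ∣ A ∧ ¬ (p : ℤ) ^ 2 ∣ A) (T : Finset ℤ)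
    (hT : ∀ d ∈ T, Squarefree d ∧ (∀ p : ℕ, p.Prime → (p : ℤ) ∣ d → p ∈ S ∨ p ≤ 7) ∧
      (∀ p ∈ C1, jacobiSym d p = 1) ∧ ∀ p ∈ C2, chi2 A d p = 1)
    (K : Finset (S → ZMod 2))
    (hK : ∀ x, x ∈ K ↔ ∀ i, ∑ k, x k * cc A S C1 C2 i k = 0) : T.card ≤ K.card * 32 := by
  classical
  have hSp : ∀ p ∈ S, p.Prime := fun p hp => (hS p hp).1
  have h32 : ((Finset.Icc (-210 : ℤ) 210).filter (fun u => u ∣ 210)).card = 32 := by decide +kernel
  rw [← h32]
  refine fiber_le T _ (uu S) (vv S) K ?_ ?_ ?_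
  · intro d hd
    obtain ⟨g1, g2, g3, g4⟩ := hT d hd
    obtain ⟨hu1, hu2⟩ := uu_le hSp g1 g2
    have h5 := dvd210 hu1 hu2
    rw [Finset.mem_filter, Finset.mem_Icc]
    refine ⟨⟨?_, Int.le_of_dvd (by norm_num) h5⟩, h5⟩
    have h6 := Int.le_of_dvd (by norm_num) (neg_dvd.2 h5)
    linarith
  · intro d _ d' _ hu hv
    rw [uu_eq hSp d, uu_eq hSp d', hu, hv]
  · intro d hd d' hd' hu
    obtain ⟨g1, g2, g3, g4⟩ := hT d hd
    obtain ⟨g1', g2', g3', g4'⟩ := hT d' hd'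
    rw [hK]
    intro i
    have e1 := primal_sum hS hC1 hC2S hC2 g1 g2 g3 g4 i
    have e2 := primal_sum hS hC1 hC2S hC2 g1' g2' g3' g4' i
    simp only [Pi.sub_apply, sub_mul]
    rw [Finset.sum_sub_distrib, e1, e2, hu, sub_self]


/-- the product of the primes with exponents `z` -/
def eN (C1 C2 : Finset ℕ) (z : C1 ⊕ C2 → ZMod 2) : ℕ := ∏ i, if z i = 1 then PP C1 C2 i else 1

lemma PP_inj {C1 C2 : Finset ℕ} (h : Disjoint C1 C2) : Function.Injective (PP C1 C2) := by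
  intro i j hij
  rcases i with p | p <;> rcases j with q | q
  · exact congrArg Sum.inl (Subtype.ext hij)
  · exact absurd (show (p : ℕ) = q from hij) (fun h' => (Finset.disjoint_left.1 h p.2) (h' ▸ q.2))
  · exact absurd (show (p : ℕ) = q from hij) (fun h' => (Finset.disjoint_left.1 h q.2) (h' ▸ p.2))
  · exact congrArg Sum.inr (Subtype.ext hij)

lemma eN_cast {C1 C2 : Finset ℕ} (z : C1 ⊕ C2 → ZMod 2) : (eN C1 C2 z : ℤ) =
    ∏ i, if z i = 1 then ((PP C1 C2 i : ℕ) : ℤ) else 1 := by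
  unfold eN
  push_cast
  rfl

lemma eN_prime {C1 C2 : Finset ℕ} (hP : ∀ i, (PP C1 C2 i).Prime) (z : C1 ⊕ C2 → ZMod 2) {p : ℕ}
    (hp : p.Prime) (h : p ∣ eN C1 C2 z) : ∃ i, p = PP C1 C2 i ∧ z i = 1 := by
  unfold eN at h
  obtain ⟨i, _, hi⟩ := (Nat.Prime.prime hp).exists_mem_finset_dvd h
  split_ifs at hi with h1
  · exact ⟨i, (Nat.prime_dvd_prime_iff_eq hp (hP i)).1 hi, h1⟩
  · exact absurd (Nat.dvd_one.1 hi) hp.ne_one

lemma eN_dvd {C1 C2 : Finset ℕ} (hd : Disjoint C1 C2) (hP : ∀ i, (PP C1 C2 i).Prime)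
    (z : C1 ⊕ C2 → ZMod 2) (i : C1 ⊕ C2) : PP C1 C2 i ∣ eN C1 C2 z ↔ z i = 1 := by
  constructor
  · intro h
    obtain ⟨j, hj, hz⟩ := eN_prime hP z (hP i) h
    rw [PP_inj hd hj]
    exact hz
  · intro h
    unfold eN
    refine Dvd.dvd.trans ?_ (Finset.dvd_prod_of_mem _ (Finset.mem_univ i))
    rw [if_pos h]

lemma eN_inj {C1 C2 : Finset ℕ} (hd : Disjoint C1 C2) (hP : ∀ i, (PP C1 C2 i).Prime) :
    Function.Injective (fun z => (eN C1 C2 z : ℤ)) := by
  intro z z' h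
  have h' : (eN C1 C2 z : ℤ) = eN C1 C2 z' := h
  have h1 : eN C1 C2 z = eN C1 C2 z' := by exact_mod_cast h'
  funext i
  have h2 := eN_dvd hd hP z i
  have h3 := eN_dvd hd hP z' i
  rw [h1] at h2
  have h4 : z i = 1 ↔ z' i = 1 := h2.symm.trans h3
  have h01 : ∀ a b : ZMod 2, (a = 1 ↔ b = 1) → a = b := by decide
  exact h01 _ _ h4

lemma eN_sqf {C1 C2 : Finset ℕ} (hd : Disjoint C1 C2) (hP : ∀ i, (PP C1 C2 i).Prime)
    (z : C1 ⊕ C2 → ZMod 2) : Squarefree (eN C1 C2 z) := by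
  unfold eN
  refine Finset.squarefree_prod_of_pairwise_isCoprime ?_ ?_
  · intro i _ j _ hij
    show IsRelPrime _ _
    by_cases h : z i = 1
    · by_cases h' : z j = 1
      · simp only [if_pos h, if_pos h']
        rw [← Nat.coprime_iff_isRelPrime]
        exact (Nat.coprime_primes (hP i) (hP j)).2 fun h2 => hij (PP_inj hd h2)
      · simp only [if_neg h']
        exact isRelPrime_one_right
    · simp only [if_neg h]
      exact isRelPrime_one_left
  · intro i _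
    split_ifs
    · exact (hP i).squarefree
    · exact squarefree_one

/-- the five functionals -/
noncomputable def g5 (C1 C2 : Finset ℕ) (z : C1 ⊕ C2 → ZMod 2) : Fin 5 → ZMod 2 :=
  ![∑ i, z i * s4 (PP C1 C2 i : ℤ), ∑ i, z i * s8 (PP C1 C2 i : ℤ),
    ∑ i, z i * sp 3 (PP C1 C2 i : ℤ), ∑ i, z i * sp 5 (PP C1 C2 i : ℤ),
    ∑ i, z i * sp 7 (PP C1 C2 i : ℤ)]

lemma g5_sub (C1 C2 : Finset ℕ) (z z' : C1 ⊕ C2 → ZMod 2) (h : g5 C1 C2 z = g5 C1 C2 z') :
    g5 C1 C2 (z - z') = 0 := by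
  have h0 := congrFun h 0
  have h1 := congrFun h 1
  have h2 := congrFun h 2
  have h3 := congrFun h 3
  have h4 := congrFun h 4
  simp only [g5, Matrix.cons_val] at h0 h1 h2 h3 h4
  funext k
  fin_cases k <;>
    simp only [g5, Pi.sub_apply, sub_mul, Finset.sum_sub_distrib, Pi.zero_apply, h0, h1, h2, h3, h4,
      sub_self] <;> simp

/-- the quadratic residue symbol of a small prime -/
lemma jac_small {C1 C2 : Finset ℕ} (hP : ∀ i, (PP C1 C2 i).Prime) (h11 : ∀ i, 11 ≤ PP C1 C2 i)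
    (z : C1 ⊕ C2 → ZMod 2) {l : ℕ} (hl : l.Prime) (hl7 : l ≤ 7)
    (h : ∑ i, z i * sp l (PP C1 C2 i : ℤ) = 0) : jacobiSym (eN C1 C2 z) l = 1 := by
  have : Fact l.Prime := ⟨hl⟩
  have hnd : ∀ i ∈ (Finset.univ : Finset (C1 ⊕ C2)), ¬ (l : ℤ) ∣ ((PP C1 C2 i : ℕ) : ℤ) := by
    intro i _
    refine not_dvd_prime hl (hP i) (fun h => ?_)
    have := h11 i
    omega
  have k1 := s_prod (sp l) (fun a => ¬ (l : ℤ) ∣ a) (not_dvd_one hl) (sp_one l) (sp_mul l)
    Finset.univ (fun i => ((PP C1 C2 i : ℕ) : ℤ)) z hnd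
  rw [← eN_cast] at k1
  exact jac_of_sp hl k1.1 (k1.2.trans h)

lemma eN_mod8 {C1 C2 : Finset ℕ} (hP : ∀ i, (PP C1 C2 i).Prime) (h11 : ∀ i, 11 ≤ PP C1 C2 i)
    (z : C1 ⊕ C2 → ZMod 2) (h4 : ∑ i, z i * s4 (PP C1 C2 i : ℤ) = 0)
    (h8 : ∑ i, z i * s8 (PP C1 C2 i : ℤ) = 0) : (eN C1 C2 z : ℤ) % 8 = 1 := by
  have hodd : ∀ i ∈ (Finset.univ : Finset (C1 ⊕ C2)), ((PP C1 C2 i : ℕ) : ℤ) % 2 = 1 := by
    intro i _
    have h1 := (hP i).eq_two_or_odd
    have h2 := h11 i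
    omega
  have k1 := s_prod s4 (fun a => a % 2 = 1) rfl rfl s4_mul Finset.univ
    (fun i => ((PP C1 C2 i : ℕ) : ℤ)) z hodd
  have k2 := s_prod s8 (fun a => a % 2 = 1) rfl rfl s8_mul Finset.univ
    (fun i => ((PP C1 C2 i : ℕ) : ℤ)) z hodd
  rw [← eN_cast] at k1 k2
  exact mod8 k1.1 (k1.2.trans h4) (k2.2.trans h8)

/-- the case `q ∤ e` -/
lemma dual_a {A : ℤ} {S C1 C2 : Finset ℕ} (hS : ∀ p ∈ S, p.Prime ∧ 11 ≤ p)
    (hd : Disjoint C1 C2) (hP : ∀ i, (PP C1 C2 i).Prime) (z : C1 ⊕ C2 → ZMod 2)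
    (hz : ∀ k : S, ∑ i, z i * cc A S C1 C2 i k = 0) (h8 : (eN C1 C2 z : ℤ) % 8 = 1)
    (q : ℕ) (hq : q ∈ S) (hqe : ¬ (q : ℤ) ∣ eN C1 C2 z) : jacobiSym (eN C1 C2 z) q = 1 := by
  have hqp := (hS q hq).1
  have hne : ∀ i, z i = 1 → PP C1 C2 i ≠ q := by
    intro i hi h
    apply hqe
    rw [← h]
    exact_mod_cast (eN_dvd hd hP z i).2 hi
  have h1 : jacobiSym q (eN C1 C2 z) = if ∑ i, z i * cc A S C1 C2 i ⟨q, hq⟩ = 0 then 1 else -1 := by
    unfold eN
    rw [jac_prod _ _ _ _ fun k _ => (hP k).ne_zero]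
    refine prod_sign _ _ _ _ fun i _ hi => ?_
    have h2 : cc A S C1 C2 i ⟨q, hq⟩ = sp (PP C1 C2 i) (q : ℤ) := by
      rcases i with p | p
      · rfl
      · show (if q = (p : ℕ) then sp p (A / ((p : ℕ) : ℤ)) else sp p (q : ℤ)) = _
        rw [if_neg fun h => hne _ hi h.symm]
        rfl
    rw [h2]
    exact jac_sp (hP i) (not_dvd_prime (hP i) hqp (hne i hi).symm)
  rw [hz, if_pos rfl] at h1
  rw [← h1]
  have hqodd : Odd q := hqp.odd_of_ne_two (by have := (hS q hq).2; omega)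
  exact jacobiSym.quadratic_reciprocity_one_mod_four (by omega) hqodd

/-- the case `q ∣ e` -/
lemma dual_b {A : ℤ} {S C1 C2 : Finset ℕ} (hS : ∀ p ∈ S, p.Prime ∧ 11 ≤ p)
    (hd : Disjoint C1 C2) (hP : ∀ i, (PP C1 C2 i).Prime) (h11 : ∀ i, 11 ≤ PP C1 C2 i)
    (hC2S : C2 ⊆ S)
    (hC2 : ∀ p ∈ C2, (p : ℤ) ∣ A ∧ ¬ (p : ℤ) ^ 2 ∣ A) (z : C1 ⊕ C2 → ZMod 2)
    (hz : ∀ k : S, ∑ i, z i * cc A S C1 C2 i k = 0) (h8 : (eN C1 C2 z : ℤ) % 8 = 1)
    (q : ℕ) (hq : q ∈ C2) (hqe : (q : ℤ) ∣ eN C1 C2 z) :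
    jacobiSym (-((A / q) * (eN C1 C2 z / q))) q = 1 := by
  classical
  have hqS : q ∈ S := hC2S hq
  have hqp := (hS q hqS).1
  obtain ⟨hpA, hpA2⟩ := hC2 q hq
  have hA1 : ¬ (q : ℤ) ∣ A / (q : ℤ) := by
    intro hd
    apply hpA2
    have h5 : A = (q : ℤ) * (A / (q : ℤ)) := (Int.mul_ediv_cancel' hpA).symm
    rw [h5, pow_two]
    exact mul_dvd_mul_left _ hd
  have hqe' : q ∣ eN C1 C2 z := by exact_mod_cast hqe
  have hz1 : z (Sum.inr ⟨q, hq⟩) = 1 := (eN_dvd hd hP z (Sum.inr ⟨q, hq⟩)).1 hqe'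
  set i0 : C1 ⊕ C2 := Sum.inr ⟨q, hq⟩ with hi0
  have hP0 : PP C1 C2 i0 = q := rfl
  set m : ℕ := ∏ i ∈ (Finset.univ : Finset (C1 ⊕ C2)).erase i0, if z i = 1 then PP C1 C2 i else 1
    with hm
  have hem : eN C1 C2 z = q * m := by
    unfold eN
    rw [hm, ← Finset.mul_prod_erase (Finset.univ : Finset (C1 ⊕ C2))
      (fun i => if z i = 1 then PP C1 C2 i else 1) (Finset.mem_univ i0)]
    show (if z i0 = 1 then PP C1 C2 i0 else 1) * _ = _
    rw [if_pos hz1, hP0]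
  have hne : ∀ i ∈ (Finset.univ : Finset (C1 ⊕ C2)).erase i0, PP C1 C2 i ≠ q := by
    intro i hi h
    exact (Finset.mem_erase.1 hi).1 (PP_inj hd (h.trans hP0.symm))
  have hcc : ∀ i ∈ (Finset.univ : Finset (C1 ⊕ C2)).erase i0,
      cc A S C1 C2 i ⟨q, hqS⟩ = sp (PP C1 C2 i) (q : ℤ) := by
    intro i hi
    have hn := hne i hi
    rcases i with p | p
    · rfl
    · show (if q = (p : ℕ) then sp p (A / ((p : ℕ) : ℤ)) else sp p (q : ℤ)) = _
      rw [if_neg fun h => hn h.symm]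
      rfl
  have h1 : jacobiSym q m = if ∑ i ∈ (Finset.univ : Finset (C1 ⊕ C2)).erase i0,
      z i * cc A S C1 C2 i ⟨q, hqS⟩ = 0 then 1 else -1 := by
    rw [hm, jac_prod _ _ _ _ fun k _ => (hP k).ne_zero]
    refine prod_sign _ _ _ _ fun i hi _ => ?_
    rw [hcc i hi]
    exact jac_sp (hP i) (not_dvd_prime (hP i) hqp (hne i hi).symm)
  have hz0 := hz ⟨q, hqS⟩
  rw [← Finset.add_sum_erase _ _ (Finset.mem_univ i0), hz1, one_mul] at hz0
  have hc0 : cc A S C1 C2 i0 ⟨q, hqS⟩ = sp q (A / (q : ℤ)) := by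
    show (if q = q then sp q (A / ((q : ℕ) : ℤ)) else sp q (q : ℤ)) = _
    rw [if_pos rfl]
  rw [hc0] at hz0
  have hadd : ∀ a b : ZMod 2, a + b = 0 → b = a := by decide
  rw [hadd _ _ hz0] at h1
  have h2 : jacobiSym (A / (q : ℤ)) q * jacobiSym q m = 1 := by
    rw [h1, jac_sp hqp hA1]
    split_ifs <;> norm_num
  have hq2 : q % 2 = 1 := by
    have h1 := hqp.eq_two_or_odd
    have h2 := (hS q hqS).2
    omega
  -- reciprocity
  have h3 : jacobiSym (-(m : ℤ)) q = jacobiSym q m := by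
    have h8' : (q * m) % 8 = 1 := by
      have := h8
      rw [hem] at this
      exact_mod_cast this
    have hq4 : q % 4 = 1 ∨ q % 4 = 3 := by omega
    have h4' : ((q % 4) * (m % 4)) % 4 = 1 := by
      rw [← Nat.mul_mod]
      omega
    have hqo : Odd q := Nat.odd_iff.2 hq2
    rw [jacobiSym.neg _ hqo]
    rcases hq4 with h | h
    · have hm4 : m % 4 = 1 := by
        rw [h] at h4'
        omega
      rw [ZMod.χ₄_nat_one_mod_four h, one_mul]
      exact jacobiSym.quadratic_reciprocity_one_mod_four hm4 hqo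
    · have hm4 : m % 4 = 3 := by
        rw [h] at h4'
        omega
      rw [ZMod.χ₄_nat_three_mod_four h, jacobiSym.quadratic_reciprocity_three_mod_four hm4 h]
      ring
  have h4 : ((eN C1 C2 z : ℕ) : ℤ) / (q : ℤ) = (m : ℤ) := by
    rw [hem]
    push_cast
    exact Int.mul_ediv_cancel_left _ (by exact_mod_cast hqp.ne_zero)
  rw [h4, ← mul_neg, jacobiSym.mul_left, h3]
  exact h2

open Classical in
theorem lin2 : Pool.Agent.TH841.NO.LIN2 := by
  intro A S C1 C2 hS hC1 hC2S hC2 T hT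
  have hd : Disjoint C1 C2 := by
    rw [Finset.disjoint_left]
    intro p h1 h2
    exact (hC1 p h1).2.2 (hC2S h2)
  have hP : ∀ i, (PP C1 C2 i).Prime := by
    rintro (p | p)
    · exact (hC1 p p.2).1
    · exact (hS p (hC2S p.2)).1
  have h11 : ∀ i, 11 ≤ PP C1 C2 i := by
    rintro (p | p)
    · exact (hC1 p p.2).2.1
    · exact (hS p (hC2S p.2)).2
  let K : Finset (S → ZMod 2) := univ.filter (fun x => ∀ i, ∑ k, x k * cc A S C1 C2 i k = 0)
  let Kd : Finset (C1 ⊕ C2 → ZMod 2) :=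
    univ.filter (fun z => ∀ k, ∑ i, z i * cc A S C1 C2 i k = 0)
  have hK : ∀ x, x ∈ K ↔ ∀ i, ∑ k, x k * cc A S C1 C2 i k = 0 := by
    intro x
    simp only [K, Finset.mem_filter, Finset.mem_univ, true_and]
  have hKd : ∀ z, z ∈ Kd ↔ ∀ k, ∑ i, z i * cc A S C1 C2 i k = 0 := by
    intro x
    simp only [Kd, Finset.mem_filter, Finset.mem_univ, true_and]
  have e1 := primal hS hC1 hC2S hC2 T hT K hK
  have e2 := card_ker (cc A S C1 C2) K hK Kd hKd
  let K1 : Finset (C1 ⊕ C2 → ZMod 2) := Kd.filter (fun z => g5 C1 C2 z = 0)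
  have e3 : Kd.card ≤ K1.card * 32 := by
    have h32 : (Finset.univ : Finset (Fin 5 → ZMod 2)).card = 32 := by
      rw [Finset.card_univ, Fintype.card_fun, ZMod.card, Fintype.card_fin]
      norm_num
    rw [← h32]
    refine fiber_le Kd _ (g5 C1 C2) id K1 (fun _ _ => Finset.mem_univ _) (fun _ _ _ _ _ h => h) ?_
    intro z hz z' hz' h
    rw [hKd] at hz hz'
    refine Finset.mem_filter.2 ⟨(hKd _).2 fun k => ?_, g5_sub _ _ _ _ h⟩
    simp only [id, Pi.sub_apply, sub_mul]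
    rw [Finset.sum_sub_distrib, hz, hz', sub_self]
  refine ⟨K1.image (fun z => (eN C1 C2 z : ℤ)), ?_, ?_⟩
  · intro e he
    obtain ⟨z, hz, rfl⟩ := Finset.mem_image.1 he
    obtain ⟨hz1, hz2⟩ := Finset.mem_filter.1 hz
    rw [hKd] at hz1
    have g0 := congrFun hz2 0
    have g1 := congrFun hz2 1
    have g2 := congrFun hz2 2
    have g3 := congrFun hz2 3
    have g4 := congrFun hz2 4
    simp only [g5, Matrix.cons_val, Pi.zero_apply] at g0 g1 g2 g3 g4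
    have h8 := eN_mod8 hP h11 z g0 g1
    have hpos : 0 < eN C1 C2 z := by
      rcases Nat.eq_zero_or_pos (eN C1 C2 z) with h | h
      · exact absurd (eN_sqf hd hP z) (by rw [h]; exact not_squarefree_zero)
      · exact h
    refine ⟨Int.squarefree_natCast.2 (eN_sqf hd hP z), by exact_mod_cast hpos, ?_, h8,
      jac_small hP h11 z Nat.prime_three (by norm_num) g2,
      jac_small hP h11 z Nat.prime_five (by norm_num) g3,
      jac_small hP h11 z (by norm_num) (by norm_num) g4, ?_, ?_⟩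
    · intro p hp hpe
      obtain ⟨i, hi, _⟩ := eN_prime hP z hp (by exact_mod_cast hpe)
      rw [hi, Finset.mem_union]
      rcases i with p | p
      · exact Or.inl p.2
      · exact Or.inr p.2
    · exact fun q hq hqe => dual_a hS hd hP z hz1 h8 q hq hqe
    · exact fun q hq hqe => dual_b hS hd hP h11 hC2S hC2 z hz1 h8 q hq hqe
  · rw [Finset.card_image_of_injective _ (eN_inj hd hP)]
    rw [Fintype.card_sum, Fintype.card_coe, Fintype.card_coe, Fintype.card_coe] at e2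
    calc T.card * 2 ^ (C1.card + C2.card) ≤ (K.card * 32) * 2 ^ (C1.card + C2.card) :=
          Nat.mul_le_mul_right _ e1
      _ = 32 * (2 ^ S.card * Kd.card) := by rw [← e2]; ring
      _ ≤ 32 * (2 ^ S.card * (K1.card * 32)) :=
          Nat.mul_le_mul_left _ (Nat.mul_le_mul_left _ e3)
      _ = 2 ^ 10 * 2 ^ S.card * K1.card := by ring

end Pool.Agent.TH841.NO.LIN2f
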