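import Mathlib
import Pool.Agent.TH841.NO.Stm
import Pool.Agent.TH841.LS.Loca0

/-!
# Local solvability of `(1, e)` at primes of good reduction (job NO-LWA)
-/

set_option autoImplicit false

namespace Pool.Agent.TH841.NO.LWAf

open Finset
open Pool.Agent.TH841.LS.LOCA0 (ringChar_ne sq_of_char)

section charsum

variable {F : Type} [Field F] [Fintype F] [DecidableEq F]

theorem sum_char_sq_sub (hF : ringChar F ≠ 2) {c : F} (hc : c ≠ 0) :
    ∑ x : F, quadraticChar F (x ^ 2 - c) = -1 := by
  have h1 : ∑ x : F, quadraticChar F (x ^ 2 - c)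
      = ∑ y : F, (quadraticChar F y + 1) * quadraticChar F (y - c) := by
    rw [← Finset.sum_fiberwise (s := univ) (g := fun x : F => x ^ 2)]
    refine Finset.sum_congr rfl fun y _ => ?_
    rw [← quadraticChar_card_sqrts hF y]
    rw [Finset.sum_congr (g := fun _ => quadraticChar F (y - c)) rfl]
    · rw [Finset.sum_const, nsmul_eq_mul]
      congr 2
      have : ({x : F | x ^ 2 = y} : Set F).toFinset = univ.filter (fun x : F => x ^ 2 = y) := by
        ext x; simp
      rw [this]
    · intro x hx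
      simp only [Finset.mem_filter, Finset.mem_univ, true_and] at hx
      rw [hx]
  rw [h1]
  simp only [add_mul, one_mul, Finset.sum_add_distrib]
  have h2 : ∑ y : F, quadraticChar F (y - c) = 0 := by
    rw [← quadraticChar_sum_zero hF]
    exact Equiv.sum_comp (Equiv.subRight c) (fun y => quadraticChar F y)
  have h3 : ∑ y : F, quadraticChar F y * quadraticChar F (y - c) = -1 := by
    rw [← Equiv.sum_comp (Equiv.mulLeft₀ c hc)]
    have hneg : quadraticChar F (-1) * quadraticChar F (-1) = 1 := by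
      rw [← map_mul]; simp
    have h4 : ∀ z : F, quadraticChar F (Equiv.mulLeft₀ c hc z) *
        quadraticChar F (Equiv.mulLeft₀ c hc z - c)
        = quadraticChar F (-1) * (quadraticChar F z * quadraticChar F (1 - z)) := by
      intro z
      simp only [Equiv.mulLeft₀_apply]
      have h5 : quadraticChar F c * quadraticChar F c = 1 := by
        rw [← sq]; exact quadraticChar_sq_one hc
      have h6 : c * z - c = c * (-1 * (1 - z)) := by ring
      rw [h6, map_mul, map_mul, map_mul]
      linear_combination (quadraticChar F z * quadraticChar F (-1) * quadraticChar F (1 - z)) * h5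
    simp only [h4]
    rw [← Finset.mul_sum]
    have h7 := jacobiSum_nontrivial_inv (quadraticChar_ne_one hF)
    rw [(quadraticChar_isQuadratic F).inv] at h7
    unfold jacobiSum at h7
    rw [h7]
    linear_combination (-1) * hneg
  rw [h2, h3]
  norm_num

theorem exists_nonsquare (hF : ringChar F ≠ 2) (a b : F) (hb : b ≠ 0)
    (hD : a ^ 2 - 4 * b ^ 2 ≠ 0) :
    ∃ x : F, quadraticChar F x = -1 ∧ quadraticChar F (x ^ 2 + a * x + b ^ 2) ≠ 1 := by
  have h2 : (2 : F) ≠ 0 := Ring.two_ne_zero hF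
  have hsum : ∑ x : F, quadraticChar F (x ^ 2 + a * x + b ^ 2) = -1 := by
    have hc : (a ^ 2 - 4 * b ^ 2) / 4 ≠ 0 := by
      apply div_ne_zero hD
      have : (4 : F) = 2 * 2 := by norm_num
      rw [this]; exact mul_ne_zero h2 h2
    rw [← sum_char_sq_sub hF hc, ← Equiv.sum_comp (Equiv.addRight (-(a / 2)))]
    refine Finset.sum_congr rfl fun x _ => ?_
    congr 1
    simp only [Equiv.coe_addRight]
    have h4 : (4 : F) ≠ 0 := by
      have : (4 : F) = 2 * 2 := by norm_num
      rw [this]; exact mul_ne_zero h2 h2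
    field_simp
    ring
  by_contra hcon
  push Not at hcon
  have hpos : ∀ x : F, 0 ≤ quadraticChar F (x ^ 2 + a * x + b ^ 2) + quadraticChar F x := by
    intro x
    by_cases hx : x = 0
    · subst hx
      have : (0 : F) ^ 2 + a * 0 + b ^ 2 = b ^ 2 := by ring
      rw [this, quadraticChar_sq_one' hb, quadraticChar_zero]
      norm_num
    · rcases quadraticChar_dichotomy hx with h | h
      · rw [h]
        by_cases hg : x ^ 2 + a * x + b ^ 2 = 0
        · rw [hg, quadraticChar_zero]; norm_num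
        · rcases quadraticChar_dichotomy hg with h' | h' <;> rw [h'] <;> norm_num
      · rw [hcon x h, h]; norm_num
  have := Finset.sum_nonneg (s := univ) fun x _ => hpos x
  rw [Finset.sum_add_distrib, hsum, quadraticChar_sum_zero hF] at this
  norm_num at this

end charsum

/-- unit squares -/
theorem sqv {p : ℕ} [hp : Fact p.Prime] (h2 : p ≠ 2) (u : ℤ_[p])
    (hu : quadraticChar (ZMod p) (PadicInt.toZMod u) = 1) : ∃ v : ℚ_[p], v ≠ 0 ∧
      (u : ℚ_[p]) = v ^ 2 := by
  obtain ⟨v, hv⟩ := sq_of_char h2 hu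
  refine ⟨v, ?_, by rw [hv]; push_cast; ring⟩
  intro h0
  have h1 : v = 0 := Subtype.ext h0
  rw [hv, h1, mul_zero, map_zero, quadraticChar_zero] at hu
  norm_num at hu

theorem aux (p : ℕ) [hp : Fact p.Prime] (A B e : ℤ) (h2 : p ≠ 2) (hA : ¬ (p : ℤ) ∣ A)
    (hB : ¬ (p : ℤ) ∣ B) (hAB : ¬ (p : ℤ) ∣ A - B) (he : ¬ (p : ℤ) ∣ e) :
    ∃ x y : ℚ_[p], y ≠ 0 ∧ y ^ 2 = x * (x - A) * (x - B) ∧ IsSquare x ∧
      IsSquare ((x - A) * e) := by
  have cast0 : ∀ n : ℤ, ¬ (p : ℤ) ∣ n → (n : ZMod p) ≠ 0 := fun n hn h =>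
    hn ((ZMod.intCast_zmod_eq_zero_iff_dvd n p).1 h)
  have hAz := cast0 A hA
  have hBz := cast0 B hB
  have hez := cast0 e he
  have hABz : (A : ZMod p) - B ≠ 0 := by
    have := cast0 (A - B) hAB
    push_cast at this
    exact this
  have hp0 : (p : ℚ_[p]) ≠ 0 := by exact_mod_cast hp.out.ne_zero
  have hpz : ((p : ℕ) : ZMod p) = 0 := ZMod.natCast_self p
  have h2z : (2 : ZMod p) ≠ 0 := by
    intro h0
    have : ((2 : ℕ) : ZMod p) = 0 := by exact_mod_cast h0
    rw [ZMod.natCast_eq_zero_iff] at this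
    exact h2 ((Nat.prime_dvd_prime_iff_eq hp.out Nat.prime_two).1 this)
  have h4z : (4 : ZMod p) ≠ 0 := by
    have : (4 : ZMod p) = 2 * 2 := by norm_num
    rw [this]
    exact mul_ne_zero h2z h2z
  -- the general principle
  have main : ∀ (X : ℤ_[p]) (c : ℚ_[p]), c ≠ 0 → ∀ (U V W : ℤ_[p]),
      quadraticChar (ZMod p) (PadicInt.toZMod U) = 1 →
      quadraticChar (ZMod p) (PadicInt.toZMod V) = 1 →
      quadraticChar (ZMod p) (PadicInt.toZMod W) = 1 → ∀ (cu cv cw : ℚ_[p]),
      cw ≠ 0 → (X : ℚ_[p]) = cu ^ 2 * U → ((X : ℚ_[p]) - A) * e = cv ^ 2 * V →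
      (X : ℚ_[p]) * (X - A) * (X - B) = cw ^ 2 * W →
      ∃ x y : ℚ_[p], y ≠ 0 ∧ y ^ 2 = x * (x - A) * (x - B) ∧ IsSquare x ∧
        IsSquare ((x - A) * e) := by
    intro X c _ U V W hU hV hW cu cv cw hcw e1 e2 e3
    obtain ⟨u, -, hu⟩ := sqv h2 U hU
    obtain ⟨v, -, hv⟩ := sqv h2 V hV
    obtain ⟨w, hw0, hw⟩ := sqv h2 W hW
    refine ⟨X, cw * w, mul_ne_zero hcw hw0, ?_, ⟨cu * u, ?_⟩, ⟨cv * v, ?_⟩⟩
    · rw [e3, hw]
      ring
    · rw [e1, hu]
      ring
    · rw [e2, hv]
      ring
  rcases quadraticChar_dichotomy hez with he1 | he1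
  · -- `e` is a square
    obtain ⟨s, -, hs⟩ := sqv h2 (e : ℤ_[p]) (by rw [map_intCast]; exact he1)
    obtain ⟨u, hu0, hu⟩ := sqv h2 (1 - (A : ℤ_[p]) * (p : ℤ_[p]) ^ 2) (by
      rw [map_sub, map_mul, map_pow, map_natCast, map_one, ZMod.natCast_self]; simp)
    obtain ⟨v, hv0, hv⟩ := sqv h2 (1 - (B : ℤ_[p]) * (p : ℤ_[p]) ^ 2) (by
      rw [map_sub, map_mul, map_pow, map_natCast, map_one, ZMod.natCast_self]; simp)
    push_cast at hs hu hv
    have hA' : 1 / (p : ℚ_[p]) ^ 2 - A = u ^ 2 / (p : ℚ_[p]) ^ 2 := by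
      rw [← hu]; field_simp
    have hB' : 1 / (p : ℚ_[p]) ^ 2 - B = v ^ 2 / (p : ℚ_[p]) ^ 2 := by
      rw [← hv]; field_simp
    refine ⟨1 / (p : ℚ_[p]) ^ 2, u * v / (p : ℚ_[p]) ^ 3,
      div_ne_zero (mul_ne_zero hu0 hv0) (pow_ne_zero 3 hp0), ?_, ⟨1 / p, by field_simp⟩,
      ⟨u * s / p, ?_⟩⟩
    · rw [hA', hB']
      field_simp
    · rw [hA', hs]
      field_simp
  · obtain ⟨x, hx, hQ⟩ := exists_nonsquare (ringChar_ne h2) (2 * ((A : ZMod p) + B)) (A - B) hABz
      (by
        have e1 : (2 * ((A : ZMod p) + B)) ^ 2 - 4 * (A - B) ^ 2 = 4 * 4 * (A * B) := by ring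
        rw [e1]
        exact mul_ne_zero (mul_ne_zero h4z h4z) (mul_ne_zero hAz hBz))
    have hx0 : x ≠ 0 := by
      rintro rfl
      rw [quadraticChar_zero] at hx
      norm_num at hx
    set Q : ZMod p := x ^ 2 + 2 * ((A : ZMod p) + B) * x + (A - B) ^ 2 with hQdef
    set X0 : ZMod p := Q / (4 * x) with hX0
    have hχ4 : quadraticChar (ZMod p) (4 * x) = -1 := by
      have : (4 : ZMod p) * x = 2 ^ 2 * x := by ring
      rw [this, map_mul, quadraticChar_sq_one' h2z, one_mul, hx]
    have h4x : (4 : ZMod p) * x ≠ 0 := mul_ne_zero h4z hx0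
    have hXA : X0 - A = (x - (A - B)) ^ 2 / (4 * x) := by
      rw [hX0, hQdef]
      field_simp
      ring
    have hXB : X0 - B = (x + (A - B)) ^ 2 / (4 * x) := by
      rw [hX0, hQdef]
      field_simp
      ring
    have hinv : quadraticChar (ZMod p) (4 * x)⁻¹ = -1 := by
      have h5 : quadraticChar (ZMod p) (4 * x) * quadraticChar (ZMod p) (4 * x)⁻¹ = 1 := by
        rw [← map_mul, mul_inv_cancel₀ h4x, map_one]
      rw [hχ4] at h5
      linarith
    have hsqd : ∀ z : ZMod p, z ≠ 0 → quadraticChar (ZMod p) (z ^ 2 / (4 * x)) = -1 := by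
      intro z hz
      rw [div_eq_mul_inv, map_mul, quadraticChar_sq_one' hz, one_mul, hinv]
    have hee : quadraticChar (ZMod p) (e : ZMod p) * quadraticChar (ZMod p) (e : ZMod p) = 1 := by
      rw [he1]; norm_num
    by_cases hQ0 : Q = 0
    · -- near `(0, 0)`
      have hX00 : X0 = 0 := by rw [hX0, hQ0, zero_div]
      have hnA : quadraticChar (ZMod p) (-(A : ZMod p)) = -1 := by
        have h5 : -(A : ZMod p) = (x - (A - B)) ^ 2 / (4 * x) := by
          rw [← hXA, hX00, zero_sub]
        rw [h5]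
        refine hsqd _ fun h6 => hAz ?_
        rw [h6] at h5
        have : -(A : ZMod p) = 0 := by rw [h5]; simp
        exact neg_eq_zero.1 this
      have hnB : quadraticChar (ZMod p) (-(B : ZMod p)) = -1 := by
        have h5 : -(B : ZMod p) = (x + (A - B)) ^ 2 / (4 * x) := by
          rw [← hXB, hX00, zero_sub]
        rw [h5]
        refine hsqd _ fun h6 => hBz ?_
        rw [h6] at h5
        have : -(B : ZMod p) = 0 := by rw [h5]; simp
        exact neg_eq_zero.1 this
      refine main ((p : ℤ_[p]) ^ 2) 1 one_ne_zero 1 (((p : ℤ_[p]) ^ 2 - A) * e)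
        (((p : ℤ_[p]) ^ 2 - A) * ((p : ℤ_[p]) ^ 2 - B)) ?_ ?_ ?_ p 1 p hp0 ?_ ?_ ?_
      · simp
      · rw [map_mul, map_sub, map_pow, map_natCast, map_intCast, map_intCast, hpz]
        rw [zero_pow two_ne_zero, zero_sub, map_mul, hnA, he1]
        norm_num
      · rw [map_mul, map_sub, map_sub, map_pow, map_natCast, map_intCast, map_intCast, hpz]
        rw [zero_pow two_ne_zero, zero_sub, zero_sub, map_mul, hnA, hnB]
        norm_num
      · push_cast; ring
      · push_cast; ring
      · push_cast; ring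
    · have hQ1 : quadraticChar (ZMod p) Q = -1 := by
        rcases quadraticChar_dichotomy hQ0 with h | h
        · exact absurd h hQ
        · exact h
      have hX1 : quadraticChar (ZMod p) X0 = 1 := by
        rw [hX0, div_eq_mul_inv, map_mul, hQ1, hinv]
        norm_num
      by_cases hx1 : x = A - B
      · -- near `(A, 0)`
        have hXA0 : X0 = A := by
          have : X0 - A = 0 := by rw [hXA, hx1]; simp
          exact sub_eq_zero.1 this
        rw [hXA0] at hX1
        rw [hx1] at hx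
        refine main ((A : ℤ_[p]) + e * (p : ℤ_[p]) ^ 2) 1 one_ne_zero
          ((A : ℤ_[p]) + e * (p : ℤ_[p]) ^ 2) 1
          (((A : ℤ_[p]) + e * (p : ℤ_[p]) ^ 2) * (e * ((A : ℤ_[p]) + e * (p : ℤ_[p]) ^ 2 - B)))
          ?_ ?_ ?_ 1 (e * p) p hp0 ?_ ?_ ?_
        · rw [map_add, map_mul, map_pow, map_natCast, map_intCast, map_intCast, hpz]
          rw [zero_pow two_ne_zero, mul_zero, add_zero, hX1]
        · simp
        · simp only [map_mul, map_add, map_sub, map_pow, map_natCast, map_intCast, hpz]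
          rw [zero_pow two_ne_zero, mul_zero, add_zero, hX1, he1, hx]
          norm_num
        · push_cast; ring
        · push_cast; ring
        · push_cast; ring
      by_cases hx2 : x = B - A
      · -- near `(B, 0)`
        have hXB0 : X0 = B := by
          have : X0 - B = 0 := by rw [hXB, hx2]; simp
          exact sub_eq_zero.1 this
        rw [hXB0] at hX1
        rw [hx2] at hx
        refine main ((B : ℤ_[p]) + e * (p : ℤ_[p]) ^ 2) 1 one_ne_zero
          ((B : ℤ_[p]) + e * (p : ℤ_[p]) ^ 2) (((B : ℤ_[p]) + e * (p : ℤ_[p]) ^ 2 - A) * e)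
          (((B : ℤ_[p]) + e * (p : ℤ_[p]) ^ 2) * (e * ((B : ℤ_[p]) + e * (p : ℤ_[p]) ^ 2 - A)))
          ?_ ?_ ?_ 1 1 p hp0 ?_ ?_ ?_
        · rw [map_add, map_mul, map_pow, map_natCast, map_intCast, map_intCast, hpz]
          rw [zero_pow two_ne_zero, mul_zero, add_zero, hX1]
        · simp only [map_mul, map_add, map_sub, map_pow, map_natCast, map_intCast, hpz]
          rw [zero_pow two_ne_zero, mul_zero, add_zero, he1, hx]
          norm_num
        · simp only [map_mul, map_add, map_sub, map_pow, map_natCast, map_intCast, hpz]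
          rw [zero_pow two_ne_zero, mul_zero, add_zero, hX1, he1, hx]
          norm_num
        · push_cast; ring
        · push_cast; ring
        · push_cast; ring
      · -- the general case
        set X : ℤ_[p] := ((X0.val : ℕ) : ℤ_[p]) with hX
        have hXX : PadicInt.toZMod X = X0 := by
          rw [hX, map_natCast, ZMod.natCast_zmod_val]
        have hcA : quadraticChar (ZMod p) (X0 - A) = -1 := by
          rw [hXA]
          exact hsqd _ (sub_ne_zero.2 hx1)
        have hcB : quadraticChar (ZMod p) (X0 - B) = -1 := by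
          rw [hXB]
          refine hsqd _ fun h => hx2 ?_
          linear_combination h
        refine main X 1 one_ne_zero X ((X - A) * e) (X * (X - A) * (X - B)) ?_ ?_ ?_ 1 1 1
          one_ne_zero ?_ ?_ ?_
        · rw [hXX]
          exact hX1
        · simp only [map_mul, map_sub, map_intCast, hXX]
          rw [hcA, he1]
          norm_num
        · simp only [map_mul, map_sub, map_intCast, hXX]
          rw [hX1, hcA, hcB]
          norm_num
        · ring
        · push_cast; ring
        · push_cast; ring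

theorem lwa : Pool.Agent.TH841.NO.LWA := by
  intro p hp A B e h11 hA hB hAB he
  obtain ⟨x, y, hy, h1, h2, h3⟩ := aux p A B e (by omega) hA hB hAB he
  refine ⟨x, y, hy, h1, ?_, h3⟩
  simpa using h2

end Pool.Agent.TH841.NO.LWAf
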