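import Mathlib
import Pool.Agent.TH841.NO.Stm
import Pool.Agent.TH841.LS.Locd0
import Pool.Agent.TH841.SH.Sel

/-!
# Local solvability of `(1, e)` at multiplicative primes, and squares (jobs NO-LWB, NO-LWC)
-/

set_option autoImplicit false

namespace Pool.Agent.TH841.NO.LWBf

open Finset

open Pool.Agent.W307.SE (Loc)

section chi

variable {p : ℕ} [hp : Fact p.Prime]

theorem int_aux {a s : ℤ} (ha : a = 1 ∨ a = -1) (hs : s = 1 ∨ s = -1) (h : a ≠ s) :
    s * a = -1 := by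
  rcases ha with rfl | rfl <;> rcases hs with rfl | rfl
  · exact absurd rfl h
  · norm_num
  · norm_num
  · exact absurd rfl h

theorem le_aux {a s : ℤ} (ha : a = 1 ∨ a = -1) (hs : s = 1 ∨ s = -1) : 1 + s * a ≤ 2 := by
  rcases ha with rfl | rfl <;> rcases hs with rfl | rfl <;> norm_num

/-- two conditions on the quadratic character -/
theorem exists_two (h11 : 11 ≤ p) {c : ZMod p} (hc : c ≠ 0) {s1 s2 : ℤ} (h1 : s1 = 1 ∨ s1 = -1)
    (h2 : s2 = 1 ∨ s2 = -1) : ∃ m : ZMod p, quadraticChar (ZMod p) m = s1 ∧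
      quadraticChar (ZMod p) (m - c) = s2 := by
  by_contra hcon
  push Not at hcon
  have hp2 : p ≠ 2 := by omega
  have hF := Pool.Agent.TH841.LS.LOCA0.ringChar_ne (p := p) hp2
  have key : ∀ m : ZMod p, (1 + s1 * quadraticChar (ZMod p) m) *
      (1 + s2 * quadraticChar (ZMod p) (m - c)) ≤
      (if m = 0 then 2 else 0) + (if m = c then 2 else 0) := by
    intro m
    by_cases hm0 : m = 0
    · have e1 : quadraticChar (ZMod p) m = 0 := by rw [hm0, quadraticChar_zero]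
      have e2 : m ≠ c := by
        rw [hm0]
        exact Ne.symm hc
      rw [if_pos hm0, if_neg e2, e1, mul_zero, add_zero, add_zero, one_mul]
      exact le_aux (quadraticChar_dichotomy (sub_ne_zero.2 e2)) h2
    · by_cases hmc : m = c
      · have e1 : quadraticChar (ZMod p) (m - c) = 0 := by rw [hmc, sub_self, quadraticChar_zero]
        rw [if_neg hm0, if_pos hmc, e1, mul_zero, add_zero, mul_one, zero_add]
        exact le_aux (quadraticChar_dichotomy hm0) h1
      · rw [if_neg hm0, if_neg hmc, add_zero]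
        by_cases h3 : quadraticChar (ZMod p) m = s1
        · have h4 := int_aux (quadraticChar_dichotomy (sub_ne_zero.2 hmc)) h2 (hcon m h3)
          rw [h4, add_neg_cancel, mul_zero]
        · have h4 := int_aux (quadraticChar_dichotomy hm0) h1 h3
          rw [h4, add_neg_cancel, zero_mul]
  have hS : ∑ m : ZMod p, (1 + s1 * quadraticChar (ZMod p) m) *
      (1 + s2 * quadraticChar (ZMod p) (m - c)) = (p : ℤ) - s1 * s2 := by
    have e : ∀ m : ZMod p, (1 + s1 * quadraticChar (ZMod p) m) *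
        (1 + s2 * quadraticChar (ZMod p) (m - c)) = 1 + s1 * quadraticChar (ZMod p) m +
          s2 * quadraticChar (ZMod p) (m - c) +
            s1 * s2 * quadraticChar (ZMod p) (m * (m - c)) := by
      intro m
      rw [map_mul]
      ring
    have hsh : ∑ m : ZMod p, quadraticChar (ZMod p) (m - c) = 0 := by
      rw [← quadraticChar_sum_zero hF]
      exact Fintype.sum_equiv (Equiv.subRight c) _ _ fun x => rfl
    rw [Finset.sum_congr rfl fun m _ => e m, Finset.sum_add_distrib, Finset.sum_add_distrib,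
      Finset.sum_add_distrib, ← Finset.mul_sum, ← Finset.mul_sum, ← Finset.mul_sum,
      quadraticChar_sum_zero hF, hsh, Pool.Agent.TH841.LS.LOCA0.sum_mul hp2 hc, Finset.sum_const,
      Finset.card_univ, ZMod.card, nsmul_eq_mul]
    ring
  have hle := Finset.sum_le_sum fun m (_ : m ∈ (Finset.univ : Finset (ZMod p))) => key m
  rw [hS, Finset.sum_add_distrib, Finset.sum_ite_eq' Finset.univ (0 : ZMod p),
    Finset.sum_ite_eq' Finset.univ c, if_pos (Finset.mem_univ _), if_pos (Finset.mem_univ _)] at hle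
  have h5 : s1 * s2 ≤ 1 := by
    rcases h1 with rfl | rfl <;> rcases h2 with rfl | rfl <;> norm_num
  have h6 : (11 : ℤ) ≤ p := by exact_mod_cast h11
  linarith

theorem sqz' (h2 : p ≠ 2) {z : ℤ} (hz : quadraticChar (ZMod p) (z : ZMod p) = 1) :
    ∃ v : ℚ_[p], v ≠ 0 ∧ (z : ℚ_[p]) = v ^ 2 := by
  obtain ⟨v, hv⟩ := Pool.Agent.TH841.LS.LOCD0.sqz h2 hz
  refine ⟨v, ?_, hv⟩
  rintro rfl
  have h0 : z = 0 := by
    have h1 : (z : ℚ_[p]) = 0 := by
      rw [hv]
      ring
    exact_mod_cast h1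
  rw [h0, Int.cast_zero, quadraticChar_zero] at hz
  norm_num at hz

theorem chi_sq {a : ZMod p} (ha : a ≠ 0) :
    quadraticChar (ZMod p) a * quadraticChar (ZMod p) a = 1 := by
  rcases quadraticChar_dichotomy ha with h | h <;> rw [h] <;> norm_num

end chi

theorem lwb : Pool.Agent.TH841.NO.LWB := by
  intro p hp A B e h11 hAB hA hdvd
  have hp2 : p ≠ 2 := by omega
  have hpz : (p : ℚ_[p]) ≠ 0 := by exact_mod_cast hp.out.ne_zero
  have hA0 : (A : ZMod p) ≠ 0 := Pool.Agent.TH841.LS.LOCD0.chi_ne hA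
  have part1 : ¬ (p : ℤ) ∣ e → Loc ℚ_[p] A B 1 e := by
    intro he
    have he0 : (e : ZMod p) ≠ 0 := Pool.Agent.TH841.LS.LOCD0.chi_ne he
    obtain ⟨m, hm1, hm2⟩ := exists_two h11 hA0 (s1 := 1)
      (s2 := quadraticChar (ZMod p) (e : ZMod p)) (Or.inl rfl) (quadraticChar_dichotomy he0)
    have h3 : quadraticChar (ZMod p) ((m - A) * e) = 1 := by
      rw [map_mul, hm2]
      exact chi_sq he0
    have hme : (m - A) * (e : ZMod p) ≠ 0 := by
      intro h
      rw [h, quadraticChar_zero] at h3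
      norm_num at h3
    obtain ⟨u, hu⟩ := (quadraticChar_one_iff_isSquare hme).1 h3
    obtain ⟨w, hw⟩ : ∃ w : ZMod p, w = u / e := ⟨_, rfl⟩
    have hew : (e : ZMod p) * w ^ 2 = m - A := by
      rw [hw]
      field_simp
      linear_combination -hu
    have hw0 : w ≠ 0 := by
      rintro rfl
      apply hme
      rw [← hew]
      ring
    obtain ⟨k, hk⟩ : ∃ k : ℤ, (k : ZMod p) = w := ⟨w.val, by
      rw [Int.cast_natCast, ZMod.natCast_zmod_val]⟩
    have hk0 : (k : ℚ_[p]) ≠ 0 := by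
      intro h
      have h' : k = 0 := by exact_mod_cast h
      apply hw0
      rw [← hk, h', Int.cast_zero]
    have hABp : (A : ZMod p) - (B : ZMod p) = 0 := by
      have := (ZMod.intCast_zmod_eq_zero_iff_dvd (A - B) p).2 hdvd
      push_cast at this
      exact this
    obtain ⟨x1, hx10, hx1⟩ := sqz' hp2 (z := A + e * k ^ 2) (by
      push_cast
      rw [hk, hew, add_sub_cancel]
      exact hm1)
    obtain ⟨x2, hx20, hx2⟩ := sqz' hp2 (z := e * (e * k ^ 2 + (A - B))) (by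
      push_cast
      rw [hABp, add_zero, hk]
      have h5 : (e : ZMod p) * (e * w ^ 2) = (e * w) * (e * w) := by ring
      rw [h5, map_mul]
      exact chi_sq (mul_ne_zero he0 hw0))
    push_cast at hx1 hx2
    refine ⟨A + e * k ^ 2, x1 * k * x2, mul_ne_zero (mul_ne_zero hx10 hk0) hx20, ?_, ⟨x1, ?_⟩,
      ⟨e * k, ?_⟩⟩
    · calc (x1 * k * x2 : ℚ_[p]) ^ 2 = x1 ^ 2 * k ^ 2 * x2 ^ 2 := by ring
        _ = _ := by
          rw [← hx1, ← hx2]
          ring
    · rw [hx1]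
      push_cast
      ring
    · ring
  refine ⟨part1, fun hj he2 => ?_⟩
  by_cases hpe : (p : ℤ) ∣ e
  swap
  · exact part1 hpe
  obtain ⟨e1, rfl⟩ := hpe
  obtain ⟨c, hc⟩ := hdvd
  have hpe1 : ¬ (p : ℤ) ∣ e1 := by
    rintro ⟨q, rfl⟩
    apply he2
    exact ⟨q, by ring⟩
  have he0 : (e1 : ZMod p) ≠ 0 := Pool.Agent.TH841.LS.LOCD0.chi_ne hpe1
  have hchiA : quadraticChar (ZMod p) (A : ZMod p) = 1 := by
    rw [← jacobiSym.legendreSym.to_jacobiSym] at hj
    exact hj
  obtain ⟨m, hm1, hm2⟩ : ∃ m : ZMod p, quadraticChar (ZMod p) m =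
      quadraticChar (ZMod p) (e1 : ZMod p) ∧ quadraticChar (ZMod p) (m + c) =
      quadraticChar (ZMod p) (e1 : ZMod p) := by
    by_cases hc0 : (c : ZMod p) = 0
    · exact ⟨e1, rfl, by rw [hc0, add_zero]⟩
    · obtain ⟨m, hm1, hm2⟩ := exists_two h11 (neg_ne_zero.2 hc0)
        (s1 := quadraticChar (ZMod p) (e1 : ZMod p)) (s2 := quadraticChar (ZMod p) (e1 : ZMod p))
        (quadraticChar_dichotomy he0) (quadraticChar_dichotomy he0)
      refine ⟨m, hm1, ?_⟩
      rw [sub_neg_eq_add] at hm2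
      exact hm2
  obtain ⟨k, hk⟩ : ∃ k : ℤ, (k : ZMod p) = m := ⟨m.val, by
    rw [Int.cast_natCast, ZMod.natCast_zmod_val]⟩
  obtain ⟨x1, hx10, hx1⟩ := sqz' hp2 (z := A + p * k) (by
    push_cast
    rw [ZMod.natCast_self, zero_mul, add_zero]
    exact hchiA)
  obtain ⟨v, hv0, hv⟩ := sqz' hp2 (z := k * (k + c)) (by
    push_cast
    rw [hk, map_mul, hm1, hm2]
    exact chi_sq he0)
  obtain ⟨u, hu0, hu⟩ := sqz' hp2 (z := k * e1) (by
    push_cast
    rw [hk, map_mul, hm1]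
    exact chi_sq he0)
  push_cast at hx1 hv hu
  have hB : (B : ℚ_[p]) = A - p * c := by
    have h5 : B = A - p * c := by linarith
    rw [h5]
    push_cast
    ring
  refine ⟨A + p * k, x1 * p * v, mul_ne_zero (mul_ne_zero hx10 hpz) hv0, ?_, ⟨x1, ?_⟩,
    ⟨p * u, ?_⟩⟩
  · calc (x1 * p * v : ℚ_[p]) ^ 2 = x1 ^ 2 * p ^ 2 * v ^ 2 := by ring
      _ = _ := by
        rw [← hx1, ← hv, hB]
        ring
  · rw [hx1]
    push_cast
    ring
  · calc ((A : ℚ_[p]) + p * k - A) * ((p * e1 : ℤ) : ℚ_[p]) = p ^ 2 * (k * e1) := by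
          push_cast
          ring
      _ = _ := by
        rw [hu]
        ring

/-- `1 - 4 p ^ 2 a` is a nonzero square -/
theorem near (p : ℕ) [hp : Fact p.Prime] (a : ℤ) : ∃ r : ℚ_[p], r ≠ 0 ∧
    1 - 4 * (p : ℚ_[p]) ^ 2 * a = r ^ 2 := by
  have hpz : (p : ℚ_[p]) ≠ 0 := by exact_mod_cast hp.out.ne_zero
  obtain ⟨r, n, q⟩ := Pool.Agent.W402.FK.hens' p a
  refine ⟨2 * p * r, mul_ne_zero (mul_ne_zero two_ne_zero hpz) n, ?_⟩
  rw [mul_pow, q]
  field_simp
  ring

theorem lwc : Pool.Agent.TH841.NO.LWC := by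
  intro A B e hA hB hAB he
  refine ⟨fun hpos => ?_, fun p hp => ⟨fun hsq => ?_, fun hAB' hAe => ?_⟩⟩
  · obtain ⟨x, y, hy, hxy, q1, q2, -⟩ := Pool.Agent.TH841.SH.pt_real 0 A B
    refine ⟨x, y, hy, ?_, ?_, ?_⟩
    · rw [hxy]
      push_cast
      ring
    · push_cast at q1 ⊢
      rw [sub_zero] at q1
      rw [mul_one]
      exact q1
    · refine q2.mul ?_
      have h5 : (0 : ℝ) ≤ e := by exact_mod_cast hpos.le
      exact ⟨Real.sqrt e, (Real.mul_self_sqrt h5).symm⟩
  · obtain ⟨x, y, hy, hxy, q1, q2, -⟩ := Pool.Agent.TH841.SH.pt_pad p 0 A B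
    refine ⟨x, y, hy, ?_, ?_, ?_⟩
    · rw [hxy]
      push_cast
      ring
    · push_cast at q1 ⊢
      rw [sub_zero] at q1
      rw [mul_one]
      exact q1
    · exact q2.mul hsq
  · have hA0 : (A : ℚ_[p]) ≠ 0 := by exact_mod_cast hA
    have hB0 : (B : ℚ_[p]) ≠ 0 := by exact_mod_cast hB
    have hpz : (p : ℚ_[p]) ≠ 0 := by exact_mod_cast hp.out.ne_zero
    obtain ⟨s, hs⟩ := hAB'
    have hs0 : s ≠ 0 := by
      rintro rfl
      rw [mul_zero] at hs
      exact mul_ne_zero hA0 hB0 hs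
    obtain ⟨r1, hr10, hr1⟩ := near p (A * B ^ 2)
    obtain ⟨r2, hr20, hr2⟩ := near p (A ^ 2 * B)
    push_cast at hr1 hr2
    refine ⟨(2 * p * A * B) ^ 2, 2 * p * A * B * s * r1 * r2, ?_, ?_, ⟨2 * p * A * B, ?_⟩, ?_⟩
    · exact mul_ne_zero (mul_ne_zero (mul_ne_zero (mul_ne_zero (mul_ne_zero (mul_ne_zero
        two_ne_zero hpz) hA0) hB0) hs0) hr10) hr20
    · calc (2 * p * A * B * s * r1 * r2 : ℚ_[p]) ^ 2 =
          (2 * p * A * B) ^ 2 * (s * s) * r1 ^ 2 * r2 ^ 2 := by ring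
        _ = _ := by
          rw [← hs, ← hr1, ← hr2]
          ring
    · push_cast
      ring
    · have h5 : ((2 * p * A * B : ℚ_[p]) ^ 2 - A) * e = (-(A : ℚ_[p]) * e) * (r1 * r1) := by
        have h6 : r1 * r1 = r1 ^ 2 := by ring
        rw [h6, ← hr1]
        ring
      rw [h5]
      exact hAe.mul ⟨r1, rfl⟩

end Pool.Agent.TH841.NO.LWBf
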