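import Mathlib
import Pool.Agent.TH841.NO.Stm
import Pool.Agent.TH841.LS.Loc2

/-!
# Project NO: the lower bound for the number of the everywhere locally solvable quartics
-/

set_option autoImplicit false

namespace Pool.Agent.TH841.NO

open Finset Polynomial

open Pool.Agent.TH841.LS (LocI dd dd_ne dd_pos dvd_factor dvd_dd sq_dd loc_all2 LOCA LOCB LOCC
  LOCD LOCE LIN GA GD C1x C2x)

lemma dvd_dd_iff {G : Finset ℕ} (hG : ∀ p ∈ G, p.Prime) (ε : G → ZMod 2) (q : G) :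
    ((q : ℕ) : ℤ) ∣ dd G ε ↔ ε q = 1 := by
  constructor
  · intro h
    unfold dd at h
    obtain ⟨r, _, hr⟩ := (Prime.dvd_finsetProd_iff
      (Nat.prime_iff_prime_int.1 (hG q.1 q.2)) _).1 h
    obtain ⟨h1, h2⟩ := dvd_factor hG ε (hG q.1 q.2) r hr
    rwa [Subtype.ext h2] at h1
  · intro h
    unfold dd
    refine dvd_trans ?_ (dvd_prod_of_mem _ (mem_univ q))
    rw [if_pos h]

lemma dd_inj {G : Finset ℕ} (hG : ∀ p ∈ G, p.Prime) {ε ε' : G → ZMod 2}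
    (h : dd G ε = dd G ε') : ε = ε' := by
  funext q
  have h1 := dvd_dd_iff hG ε q
  have h2 := dvd_dd_iff hG ε' q
  rw [h] at h1
  have h3 : ε q = 1 ↔ ε' q = 1 := h1.symm.trans h2
  have h4 : ∀ x y : ZMod 2, (x = 1 ↔ y = 1) → x = y := by decide
  exact h4 _ _ h3

lemma dd_sqf {G : Finset ℕ} (hG : ∀ p ∈ G, p.Prime) (ε : G → ZMod 2) : Squarefree (dd G ε) := by
  rw [← Int.squarefree_natAbs, Nat.squarefree_iff_prime_squarefree]
  intro p hp hd
  apply sq_dd hG ε hp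
  have h1 : ((p * p : ℕ) : ℤ) ∣ dd G ε := Int.natCast_dvd.2 hd
  push_cast at h1
  rwa [pow_two]

lemma dd_dvd {G : Finset ℕ} (hG : ∀ p ∈ G, p.Prime) {D : ℤ} (hD : ∀ p ∈ G, (p : ℤ) ∣ D)
    (ε : G → ZMod 2) : dd G ε ∣ D := by
  have h1 : ∀ n : ℤ, (∏ p ∈ G, (p : ℤ)) ∣ n ↔ ∀ p ∈ G, (p : ℤ) ∣ n := by
    intro n
    constructor
    · intro h p hp
      exact (dvd_prod_of_mem (fun p : ℕ => (p : ℤ)) hp).trans h
    · intro h
      refine Finset.prod_dvd_of_coprime ?_ h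
      intro p hp q hq hpq
      exact Nat.isCoprime_iff_coprime.2 ((Nat.coprime_primes (hG p hp) (hG q hq)).2 hpq)
  refine dvd_trans ?_ ((h1 D).2 hD)
  rw [← Finset.prod_coe_sort G (fun p => (p : ℤ))]
  unfold dd
  refine Finset.prod_dvd_prod_of_dvd _ _ fun p _ => ?_
  split_ifs
  · exact dvd_rfl
  · exact one_dvd _

/-- **the lower bound** -/
theorem lb (hql : QUL) (hLA : LOCA) (hLB : LOCB) (hLC : LOCC) (hLD : LOCD) (hLE : LOCE)
    (hL : LIN) {A B : ℤ} (hA : A ≠ 0) (hB : B ≠ 0) (hAB : A ≠ B)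
    (hfin : (SQ (-(A + B)) (A * B)).Finite) :
    (GA A B).card + (GD A B).card ≤ Nat.log 2 (SQ (-(A + B)) (A * B)).ncard + (C1x A B).card +
        (C2x A B).card + 5 := by
  classical
  obtain ⟨G, V, hG, hGd, hV, hcard⟩ := loc_all2 hLA hLB hLC hLD hLE hL A B hAB hA hB
  have hsub : (fun ε : V => dd G ε.1) '' (Set.univ : Set V) ⊆ SQ (-(A + B)) (A * B) := by
    rintro x ⟨ε, _, rfl⟩
    have hd : dd G ε.1 ∣ A * B := dd_dvd hG hGd ε.1
    obtain ⟨q1, q2⟩ := hql A B (dd G ε.1) hA hB hAB (dd_ne hG ε.1) hd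
    exact ⟨dd_sqf hG ε.1, hd, q1.2 (hV ε.1 ε.2).2, fun p _ => (q2 p).2 ((hV ε.1 ε.2).1 p)⟩
  have hinj : Function.Injective (fun ε : V => dd G ε.1) := fun x y h =>
    Subtype.ext (dd_inj hG h)
  have h1 := Set.ncard_le_ncard hsub hfin
  rw [Set.ncard_image_of_injective _ hinj, Set.ncard_univ] at h1
  have h2 : Nat.card V = 2 ^ Module.finrank (ZMod 2) V := by
    rw [Nat.card_eq_fintype_card, Module.card_eq_pow_finrank (K := ZMod 2), ZMod.card]
  rw [h2] at h1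
  have h3 : Module.finrank (ZMod 2) V ≤ Nat.log 2 (SQ (-(A + B)) (A * B)).ncard :=
    Nat.le_log_of_pow_le (by norm_num) h1
  omega

end Pool.Agent.TH841.NO
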