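import Mathlib
import Pool.Agent.TH841.NO.Stm
import Pool.Agent.TH841.LS.Lin
import Pool.Agent.W410.FK.FINH

/-!
# Project NO: the upper bound for the number of the everywhere locally solvable quartics
-/

set_option autoImplicit false

namespace Pool.Agent.TH841.NO

open Finset Polynomial

open Pool.Agent.TH841.LS (LocI)

open Pool.Agent.W307.SE (Loc Sel SN sel_fin)

lemma sq_of_jac {p : ℕ} [hp : Fact p.Prime] (h2 : p ≠ 2) {z : ℤ} (h : jacobiSym z p = 1) :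
    IsSquare (z : ℚ_[p]) := by
  have h1 : legendreSym p z = 1 := by
    rw [jacobiSym.legendreSym.to_jacobiSym]
    exact h
  have h0 : (z : ZMod p) ≠ 0 := by
    intro h0
    rw [(legendreSym.eq_zero_iff p z).2 h0] at h1
    exact absurd h1 (by decide)
  have hn : ¬ (p : ℤ) ∣ z := fun hd => h0 ((ZMod.intCast_zmod_eq_zero_iff_dvd z p).2 hd)
  exact Pool.Agent.TH841.LS.LINf.padic_sq h2 hn ((legendreSym.eq_one_iff p h0).1 h1)

lemma ndvd_of_jac {p : ℕ} (hp : p.Prime) {z : ℤ} (h : jacobiSym z p = 1) :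
    ¬ (p : ℤ) ∣ z := by
  haveI : Fact p.Prime := ⟨hp⟩
  have h1 : legendreSym p z = 1 := by
    rw [jacobiSym.legendreSym.to_jacobiSym]
    exact h
  intro hd
  rw [(legendreSym.eq_zero_iff p z).2 ((ZMod.intCast_zmod_eq_zero_iff_dvd z p).2 hd)] at h1
  exact absurd h1 (by decide)

lemma nsq_of_sqf {d : ℤ} (h : Squarefree d) {p : ℕ} (hp : p.Prime) : ¬ (p : ℤ) ^ 2 ∣ d := by
  intro hd
  rw [pow_two] at hd
  exact (Nat.prime_iff_prime_int.1 hp).not_unit (h _ hd)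

lemma sq_finite {a b : ℤ} (hb : b ≠ 0) : (SQ a b).Finite := by
  refine (Set.finite_Icc (-|b|) |b|).subset fun d hd => ?_
  have h1 : d ∣ b := hd.2.1
  have h2 := Int.le_of_dvd (abs_pos.2 hb) ((dvd_abs d b).2 h1)
  have h3 := Int.le_of_dvd (abs_pos.2 hb) ((dvd_abs (-d) b).2 ((neg_dvd).2 h1))
  exact ⟨by linarith, h2⟩

/-- **the upper bound** -/
theorem ub (hql : QUL) (hA1 : LWA) (hB1 : LWB) (hC1 : LWC) (hpa : PRA) (hpb : PRB) (hlin : LIN2)
    {A B : ℤ} (hA : A ≠ 0) (hB : B ≠ 0) (hAB : A ≠ B) :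
    (SQ (-(A + B)) (A * B)).ncard * 2 ^ ((C1g A B).card + (C2g A B).card) ≤
      2 ^ 10 * 2 ^ (S2 A B).card * (Sel A B).ncard := by
  classical
  have hAB0 : A * B ≠ 0 := mul_ne_zero hA hB
  have hd0 : A - B ≠ 0 := sub_ne_zero.2 hAB
  have hS : ∀ p, p ∈ S2 A B ↔ (p.Prime ∧ (p : ℤ) ∣ A * B) ∧ 11 ≤ p := by
    intro p
    unfold S2
    rw [mem_filter, Nat.mem_primeFactors]
    have h1 : (A * B).natAbs ≠ 0 := Int.natAbs_ne_zero.2 hAB0
    constructor
    · rintro ⟨⟨h2, h3, _⟩, h4⟩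
      exact ⟨⟨h2, Int.natCast_dvd.2 h3⟩, h4⟩
    · rintro ⟨⟨h2, h3⟩, h4⟩
      exact ⟨⟨h2, Int.natCast_dvd.1 h3, h1⟩, h4⟩
  have hC : ∀ p, p ∈ C1g A B ↔ (p.Prime ∧ (p : ℤ) ∣ A - B) ∧ 11 ≤ p ∧ ¬ (p : ℤ) ∣ A ∧
      jacobiSym A p = 1 := by
    intro p
    unfold C1g
    rw [mem_filter, Nat.mem_primeFactors]
    have h1 : (A - B).natAbs ≠ 0 := Int.natAbs_ne_zero.2 hd0
    constructor
    · rintro ⟨⟨h2, h3, _⟩, h4⟩
      exact ⟨⟨h2, Int.natCast_dvd.2 h3⟩, h4⟩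
    · rintro ⟨⟨h2, h3⟩, h4⟩
      exact ⟨⟨h2, Int.natCast_dvd.1 h3, h1⟩, h4⟩
  have hG : ∀ p, p ∈ C2g A B ↔ (p.Prime ∧ (p : ℤ) ∣ A * B) ∧ 11 ≤ p ∧
      (p : ℤ) ∣ A ∧ (p : ℤ) ∣ B ∧ ¬ (p : ℤ) ^ 2 ∣ A ∧ ¬ (p : ℤ) ^ 2 ∣ B ∧ ¬ (p : ℤ) ^ 2 ∣ A - B ∧
      jacobiSym ((A / p) * (B / p)) p = 1 := by
    intro p
    unfold C2g
    rw [mem_filter, Nat.mem_primeFactors]
    have h1 : (A * B).natAbs ≠ 0 := Int.natAbs_ne_zero.2 hAB0
    constructor
    · rintro ⟨⟨h2, h3, _⟩, h4⟩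
      exact ⟨⟨h2, Int.natCast_dvd.2 h3⟩, h4⟩
    · rintro ⟨⟨h2, h3⟩, h4⟩
      exact ⟨⟨h2, Int.natCast_dvd.1 h3, h1⟩, h4⟩
  have hCS : ∀ p ∈ C1g A B, ¬ (p : ℤ) ∣ A * B := by
    intro p hp hd
    obtain ⟨⟨h1, h2⟩, h3, h4, _⟩ := (hC p).1 hp
    rcases (Nat.prime_iff_prime_int.1 h1).dvd_or_dvd hd with h5 | h5
    · exact h4 h5
    · exact h4 (by have := dvd_add h2 h5; simpa using this)
  have hfin : (SQ (-(A + B)) (A * B)).Finite := sq_finite hAB0
  obtain ⟨Z, hZ1, hZ2⟩ := hlin A (S2 A B) (C1g A B) (C2g A B)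
    (fun p hp => ⟨((hS p).1 hp).1.1, ((hS p).1 hp).2⟩)
    (fun p hp => ⟨((hC p).1 hp).1.1, ((hC p).1 hp).2.1,
      fun h' => hCS p hp ((hS p).1 h').1.2⟩)
    (fun p hp => (hS p).2 ⟨((hG p).1 hp).1, ((hG p).1 hp).2.1⟩)
    (fun p hp => ⟨((hG p).1 hp).2.2.1, ((hG p).1 hp).2.2.2.2.1⟩)
    hfin.toFinset (by
      intro d hd
      obtain ⟨h1, h2, _, h4⟩ := (hfin.mem_toFinset).1 hd
      have hdne : d ≠ 0 := h1.ne_zero
      obtain ⟨_, hq⟩ := hql A B d hA hB hAB hdne h2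
      refine ⟨h1, fun p hp hpd => ?_, fun p hp => ?_, fun p hp => ?_⟩
      · by_cases h11 : 11 ≤ p
        · exact Or.inl ((hS p).2 ⟨⟨hp, hpd.trans h2⟩, h11⟩)
        · refine Or.inr ?_
          by_contra h7
          have : p = 8 ∨ p = 9 ∨ p = 10 := by omega
          rcases this with rfl | rfl | rfl
          · exact absurd hp (by decide)
          · exact absurd hp (by decide)
          · exact absurd hp (by decide)
      · obtain ⟨⟨k1, k2⟩, k3, k4, k5⟩ := (hC p).1 hp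
        haveI : Fact p.Prime := ⟨k1⟩
        exact hpa p A B d (by omega) hAB k4 k2 k5 (fun h' => hCS p hp (h'.trans h2))
          ((hq p).1 (h4 p))
      · obtain ⟨⟨k1, _⟩, k3, k4, k5, k6, k7, k8, k9⟩ := (hG p).1 hp
        haveI : Fact p.Prime := ⟨k1⟩
        exact hpb p A B d (by omega) k4 k5 k6 k7 k8 k9 (nsq_of_sqf h1 k1) ((hq p).1 (h4 p)))
  have hcard : hfin.toFinset.card = (SQ (-(A + B)) (A * B)).ncard :=
    (Set.ncard_eq_toFinset_card _ hfin).symm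
  rw [hcard] at hZ2
  refine hZ2.trans (Nat.mul_le_mul_left _ ?_)
  have hsel : (Sel A B).Finite := sel_fin Pool.Agent.W410.FK.seld hA hB hAB
  have hsub : ((fun e : ℤ => ((1 : ℤ), e)) '' (Z : Set ℤ)) ⊆ Sel A B := by
    rintro x ⟨e, he, rfl⟩
    obtain ⟨z1, z2, z3, z4, z5, z6, z7, z8, z9⟩ := hZ1 e he
    have hene : e ≠ 0 := z1.ne_zero
    obtain ⟨c1, c2⟩ := hC1 A B e hA hB hAB hene
    refine ⟨squarefree_one, z1, c1 z2, fun p hp => ?_⟩
    have hpp : p.Prime := hp.out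
    by_cases hp2 : p = 2
    · subst hp2
      exact (c2 2).1 (Pool.Agent.TH841.LS.LINf.padic_sq2 z4)
    by_cases hp3 : p = 3
    · subst hp3
      exact (c2 3).1 (sq_of_jac (by norm_num) z5)
    by_cases hp5 : p = 5
    · subst hp5
      exact (c2 5).1 (sq_of_jac (by norm_num) z6)
    by_cases hp7 : p = 7
    · subst hp7
      exact (c2 7).1 (sq_of_jac (by norm_num) z7)
    have h11 : 11 ≤ p := by
      by_contra hcon
      have h1 : p < 11 := by omega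
      have h2 := hpp.two_le
      interval_cases p
      · exact hp2 rfl
      · exact hp3 rfl
      · exact absurd hpp (by decide)
      · exact hp5 rfl
      · exact absurd hpp (by decide)
      · exact hp7 rfl
      · exact absurd hpp (by decide)
      · exact absurd hpp (by decide)
      · exact absurd hpp (by decide)
    by_cases hpAB : (p : ℤ) ∣ A * B
    · have hpS : p ∈ S2 A B := (hS p).2 ⟨⟨hpp, hpAB⟩, h11⟩
      by_cases hpe : (p : ℤ) ∣ e
      · have hpC : p ∈ C2g A B := by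
          rcases mem_union.1 (z3 p hpp hpe) with h' | h'
          · exact absurd hpAB (hCS p h')
          · exact h'
        obtain ⟨_, k3, k4, k5, k6, k7, k8, k9⟩ := (hG p).1 hpC
        have k10 := z9 p hpC hpe
        obtain ⟨A', hA'⟩ := k4
        obtain ⟨B', hB'⟩ := k5
        obtain ⟨e', he'⟩ := hpe
        have hp0 : (p : ℤ) ≠ 0 := by exact_mod_cast hpp.ne_zero
        rw [hA', hB', Int.mul_ediv_cancel_left _ hp0, Int.mul_ediv_cancel_left _ hp0] at k9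
        rw [hA', he', Int.mul_ediv_cancel_left _ hp0, Int.mul_ediv_cancel_left _ hp0] at k10
        refine (c2 p).2 ?_ ?_
        · obtain ⟨v, hv⟩ := sq_of_jac (p := p) hp2 k9
          refine ⟨p * v, ?_⟩
          rw [hA', hB']
          push_cast at hv ⊢
          linear_combination (p : ℚ_[p]) ^ 2 * hv
        · obtain ⟨v, hv⟩ := sq_of_jac (p := p) hp2 k10
          refine ⟨p * v, ?_⟩
          rw [hA', he']
          push_cast at hv ⊢
          linear_combination (p : ℚ_[p]) ^ 2 * hv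
      · exact (c2 p).1 (sq_of_jac hp2 (z8 p hpS hpe))
    · have hpA : ¬ (p : ℤ) ∣ A := fun h' => hpAB (h'.mul_right _)
      have hpB : ¬ (p : ℤ) ∣ B := fun h' => hpAB (h'.mul_left _)
      by_cases hpd : (p : ℤ) ∣ A - B
      · obtain ⟨l1, l2⟩ := hB1 p A B e h11 hAB hpA hpd
        by_cases hpe : (p : ℤ) ∣ e
        · have hpC : p ∈ C1g A B := by
            rcases mem_union.1 (z3 p hpp hpe) with h' | h'
            · exact h'
            · exact absurd ((hG p).1 h').1.2 hpAB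
          exact l2 ((hC p).1 hpC).2.2.2 (nsq_of_sqf z1 hpp)
        · exact l1 hpe
      · refine hA1 p A B e h11 hpA hpB hpd fun hpe => ?_
        rcases mem_union.1 (z3 p hpp hpe) with h' | h'
        · exact hpd ((hC p).1 h').1.2
        · exact hpAB ((hG p).1 h').1.2
  have h1 : ((fun e : ℤ => ((1 : ℤ), e)) '' (Z : Set ℤ)).ncard = Z.card := by
    rw [Set.ncard_image_of_injective _ (fun x y h => (Prod.mk.inj h).2), Set.ncard_coe_finset]
  rw [← h1]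
  exact Set.ncard_le_ncard hsub hsel

/-- the second group -/
theorem ub2 (hqm : QUM) {A B : ℤ} (hA : A ≠ 0) (hB : B ≠ 0) (hAB : A ≠ B) :
    (SQ (2 * (A + B)) ((A - B) ^ 2)).ncard ≤ (Sel A B).ncard := by
  have hsel : (Sel A B).Finite := sel_fin Pool.Agent.W410.FK.seld hA hB hAB
  have hsub : ((fun e : ℤ => ((1 : ℤ), e)) '' (SQ (2 * (A + B)) ((A - B) ^ 2))) ⊆ Sel A B := by
    rintro x ⟨e, he, rfl⟩
    obtain ⟨h1, h2, h3, h4⟩ := he
    obtain ⟨l1, l2⟩ := hqm A B e hA hB hAB h1.ne_zero h2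
    exact ⟨squarefree_one, h1, l1 h3, fun p _ => l2 p (h4 p)⟩
  have h1 : ((fun e : ℤ => ((1 : ℤ), e)) '' (SQ (2 * (A + B)) ((A - B) ^ 2))).ncard =
      (SQ (2 * (A + B)) ((A - B) ^ 2)).ncard := by
    rw [Set.ncard_image_of_injective _ (fun x y h => (Prod.mk.inj h).2)]
  rw [← h1]
  exact Set.ncard_le_ncard hsub hsel

end Pool.Agent.TH841.NO
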