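import Mathlib
import Pool.Agent.TH841.NO.Ub
import Pool.Agent.TH841.NO.Lb
import Pool.Agent.TH841.LS.Fin

/-!
# Project NO: the normal order of the 2-isogeny Selmer rank in a pencil
-/

set_option autoImplicit false

namespace Pool.Agent.TH841.NO

open Finset Polynomial

open Pool.Agent.TH841.SH.D (rk)

open Pool.Agent.TH841.LS (LocI LOCA LOCB LOCC LOCD LOCE LIN GA GD C1x C2x CNTX DG FP_eq sc cst_eq
  rank_in big_loglog rk_le_of)

open Pool.Agent.TH841.PT (EQ Irr)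

open Pool.Agent.TH841.TR (UP FP allf allc fp AV3X Bal)

open Pool.Agent.TH841.PM (AVZ DZ dz_fin zeros_fin)

open Pool.Agent.W307.SE (SN SN_nonneg Sel)

open Pool.Agent.W262.RK (fs)

/-- `f₁`, the first descent exponent of `y² = x³ + a x² + b x` -/
noncomputable def fo (a b : ℤ) : ℕ := Nat.log 2 (SQ a b).ncard

/-- the statement NO for one curve: bounds for `f₁`, `f₂` and the rank, from the bound for the
order of the 2-Selmer group -/
theorem one (hql : QUL) (hqm : QUM) (hA1 : LWA) (hB1 : LWB) (hC1 : LWC) (hpa : PRA) (hpb : PRB)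
    (hlin : LIN2) {A B : ℤ} (hA : A ≠ 0) (hB : B ≠ 0) (hAB : A ≠ B) {R : ℕ}
    (hR : SN A B < 2 ^ (R + 1)) :
    (GA A B).card + (GD A B).card ≤ fo (-(A + B)) (A * B) + (C1x A B).card +
        (C2x A B).card + 5 ∧
      fo (-(A + B)) (A * B) + ((C1g A B).card + (C2g A B).card) ≤ (S2 A B).card + R + 11 ∧
      fo (2 * (A + B)) ((A - B) ^ 2) ≤ R ∧ rk (EQ A B) ≤ R := by
  have hAB0 : A * B ≠ 0 := mul_ne_zero hA hB
  have hfin : (SQ (-(A + B)) (A * B)).Finite := sq_finite hAB0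
  have h0 : (SQ (-(A + B)) (A * B)).Nonempty := by
    refine ⟨1, squarefree_one, one_dvd _, ⟨1, 1, 0, Or.inl one_ne_zero, ?_⟩, fun p _ =>
      ⟨1, 1, 0, Or.inl one_ne_zero, ?_⟩⟩
    · push_cast
      ring
    · push_cast
      ring
  have hn : (SQ (-(A + B)) (A * B)).ncard ≠ 0 := by
    rw [Ne, Set.ncard_eq_zero hfin]
    exact h0.ne_empty
  have hSN : (Sel A B).ncard < 2 ^ (R + 1) := by
    have : ((Sel A B).ncard : ℝ) < 2 ^ (R + 1) := hR
    exact_mod_cast this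
  refine ⟨lb hql LS.LOCAf.loca LS.LOCBf.locb LS.LOCBf.locc LS.LOCDf.locd LS.LOCDf.loce
    LS.LINf.lin hA hB hAB hfin, ?_, ?_, ?_⟩
  · have h1 := ub hql hA1 hB1 hC1 hpa hpb hlin hA hB hAB
    have h2 : 2 ^ fo (-(A + B)) (A * B) ≤ (SQ (-(A + B)) (A * B)).ncard :=
      Nat.pow_log_le_self 2 hn
    have h3 : 2 ^ (fo (-(A + B)) (A * B) + ((C1g A B).card + (C2g A B).card)) ≤
        2 ^ ((S2 A B).card + R + 11) := by
      rw [pow_add]
      calc 2 ^ fo (-(A + B)) (A * B) * 2 ^ ((C1g A B).card + (C2g A B).card)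
          ≤ (SQ (-(A + B)) (A * B)).ncard * 2 ^ ((C1g A B).card + (C2g A B).card) :=
            Nat.mul_le_mul_right _ h2
        _ ≤ 2 ^ 10 * 2 ^ (S2 A B).card * (Sel A B).ncard := h1
        _ ≤ 2 ^ 10 * 2 ^ (S2 A B).card * 2 ^ (R + 1) := Nat.mul_le_mul_left _ hSN.le
        _ = 2 ^ ((S2 A B).card + R + 11) := by ring
    exact (Nat.pow_le_pow_iff_right (by norm_num)).1 h3
  · have h1 := ub2 hqm hA hB hAB
    have h2 : (SQ (2 * (A + B)) ((A - B) ^ 2)).ncard < 2 ^ (R + 1) := lt_of_le_of_lt h1 hSN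
    have h3 := Nat.log_lt_of_lt_pow' (b := 2) (x := R + 1) (by omega) h2
    unfold fo
    omega
  · have h1 := rk_le_of hA hB hAB one_ne_zero (w := 1) hR
    rwa [one_pow, mul_one, mul_one] at h1

section

variable {n : Fin 3 → ℕ} {m : ℕ}

open Classical in
/-- **the normal order of the 2-isogeny Selmer rank in a pencil** -/
theorem norder (hql : QUL) (hqm : QUM) (hA1 : LWA) (hB1 : LWB) (hC1 : LWC) (hpa : PRA) (hpb : PRB)
    (hlin : LIN2) (hcnt : CNTX) (hcnu : CNTU) (h : AVZ) (h' : AV3X) (a : Fin 3 → ℤ)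
    (f : ∀ k : Fin 3, Fin (n k) → ℤ[X]) (c : ℤ) (g : Fin m → ℤ[X])
    (ha : ∀ k, a k ≠ 0) (hc : c ≠ 0) (hf : Irr (allf g f))
    (hU : UP a f 0 - UP a f 1 = UP a f 2)
    (hn : (∀ k, 2 * n k < n 0 + n 1 + n 2) ∨ Bal (DG c g) a f) (δ ε : ℝ) (L : ℕ)
    (hδ : 0 < δ) (hε : 0 < ε) :
    ∃ R M0 : ℕ, ∀ (N : ℤ) (M : ℕ), M0 ≤ M → |N| ≤ (M : ℤ) ^ L →
      (((Ioc N (N + (M : ℤ))).filter (fun t => ¬ ∀ A B : ℤ, A = (DG c g * UP a f 0).eval t →
        B = (DG c g * UP a f 1).eval t → A ≠ 0 ∧ B ≠ 0 ∧ A ≠ B ∧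
        (sc a f c g - δ) * Real.log (Real.log M) ≤ fo (-(A + B)) (A * B) ∧
        (fo (-(A + B)) (A * B) : ℝ) ≤ (sc a f c g + δ) * Real.log (Real.log M) ∧
        fo (2 * (A + B)) ((A - B) ^ 2) ≤ R ∧ rk (EQ A B) ≤ R)).card : ℝ) ≤ ε * M := by
  have ha' : ∀ k, (fun k => c * a k) k ≠ 0 := fun k => mul_ne_zero hc (ha k)
  have hf0 : Irr (fp f) := by
    refine ⟨fun x => hf.irr (Sum.inl x), fun x => hf.deg (Sum.inl x), fun x y hxy => ?_⟩
    exact hf.assoc (Sum.inl x) (Sum.inl y) (fun h => hxy (Sum.inl_injective h))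
  have hD : DG c g ≠ 0 := by
    unfold DG
    exact mul_ne_zero (C_ne_zero.2 hc)
      (prod_ne_zero_iff.2 fun i _ => (hf.irr (Sum.inr i)).ne_zero)
  have hDf : ∀ k i, ¬ f k i ∣ DG c g := by
    intro k i hdvd
    have hirr : Irreducible (f k i) := hf.irr (Sum.inl ⟨k, i⟩)
    have hp : Prime (f k i) := hirr.prime
    unfold DG at hdvd
    rcases hp.dvd_or_dvd hdvd with h1 | h1
    · have h2 := natDegree_le_of_dvd h1 (C_ne_zero.2 hc)
      rw [natDegree_C] at h2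
      have h3 : 0 < (f k i).natDegree := hf.deg (Sum.inl ⟨k, i⟩)
      omega
    · obtain ⟨l, _, hl⟩ := (Prime.dvd_finsetProd_iff hp _).1 h1
      have h2 : Associated (f k i) (g l) :=
        hirr.associated_of_dvd (hf.irr (Sum.inr l)) hl
      exact hf.assoc (Sum.inl ⟨k, i⟩) (Sum.inr l) (by simp) h2
  obtain ⟨Z, hZ1, hZ2, C0, hC0, hC⟩ := rank_in h h' a f ha hf0 hU (DG c g) hD hDf hn L
  have hP : ∀ k, C ((fun k => c * a k) k) * ∏ l ∈ fs (allc n m) k, allf g f l =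
      FP (fun k => c * a k) g f k := by
    intro k
    rw [Pool.Agent.TH841.TR.prod_allc]
    unfold FP
    rw [mul_assoc]
    rfl
  have hV : ∀ k t, PT.Fval (allc n m) (fun k => c * a k) (fun l => (allf g f l).eval t) k =
      (DG c g * UP a f k).eval t := by
    intro k t
    rw [← FP_eq, ← hP k, eval_mul, eval_C, eval_prod]
    rfl
  have hF' : FP (fun k => c * a k) g f 0 - FP (fun k => c * a k) g f 1 =
      FP (fun k => c * a k) g f 2 := by
    rw [FP_eq, FP_eq, FP_eq, ← mul_sub, hU]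
  have hcnt' := hcnt ((Σ k : Fin 3, Fin (n k)) ⊕ Fin m) (allc n m) (fun k => c * a k) (allf g f)
    ha' hf (by rw [hP, hP, hP]; exact hF') (δ / 2) (ε / 4) L (by positivity) (by positivity)
  have hcnu' := hcnu ((Σ k : Fin 3, Fin (n k)) ⊕ Fin m) (allc n m) (fun k => c * a k) (allf g f)
    ha' hf (by rw [hP, hP, hP]; exact hF') (δ / 2) (ε / 4) L (by positivity) (by positivity)
  simp only [hV, cst_eq hc] at hcnt' hcnu'
  obtain ⟨M1, hM1⟩ := hcnt'
  obtain ⟨M4, hM4⟩ := hcnu'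
  obtain ⟨M2, hM2⟩ := hZ1 L (ε / 4) (by positivity)
  -- the ranks
  obtain ⟨R, hR⟩ : ∃ R : ℕ, 4 * C0 / ε ≤ 2 ^ (R + 1) := by
    obtain ⟨R, hR⟩ := pow_unbounded_of_one_lt (4 * C0 / ε) (one_lt_two : (1 : ℝ) < 2)
    exact ⟨R, hR.le.trans (pow_le_pow_right₀ (by norm_num) (by omega))⟩
  -- large `M`
  obtain ⟨M3, hM3⟩ := big_loglog (δ / 2) ((R : ℝ) + 11) (by positivity)
  refine ⟨R, M1 + M2 + M3 + M4 + 1, fun N M hM hN => ?_⟩
  have h1 := hM1 N M (by omega) hN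
  have h1' := hM4 N M (by omega) hN
  have h2 := hM2 N M (by omega) hN
  have h3 := hC N M (by omega) hN
  have h4 := hM3 M (by omega)
  set Q : ℤ → ℝ := fun t => SN ((DG c g * UP a f 0).eval t) ((DG c g * UP a f 1).eval t) with hQ
  -- the arguments with large rank
  have h5 : (((Ioc N (N + (M : ℤ))).filter (fun t => t ∉ Z ∧ 2 ^ (R + 1) ≤ Q t)).card : ℝ) ≤
      ε / 4 * M := by
    have h6 : ∀ t ∈ (Ioc N (N + (M : ℤ))).filter (fun t => t ∉ Z ∧ 2 ^ (R + 1) ≤ Q t),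
        (2 : ℝ) ^ (R + 1) ≤ Q t := fun t ht => (mem_filter.1 ht).2.2
    have h7 : ((((Ioc N (N + (M : ℤ))).filter (fun t => t ∉ Z ∧
        2 ^ (R + 1) ≤ Q t)).card : ℝ)) * 2 ^ (R + 1) ≤ C0 * M := by
      rw [← nsmul_eq_mul]
      refine (card_nsmul_le_sum _ _ _ h6).trans (h3 _ fun t ht => ?_)
      obtain ⟨ht1, ht2, _⟩ := mem_filter.1 ht
      exact ⟨ht1, ht2⟩
    have h8 : (0 : ℝ) < 2 ^ (R + 1) := by positivity
    rw [div_le_iff₀ hε] at hR
    have h9 : C0 * M ≤ (ε / 4 * M) * 2 ^ (R + 1) := by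
      have h10 : (0 : ℝ) ≤ M := Nat.cast_nonneg _
      nlinarith
    exact le_of_mul_le_mul_right (h7.trans h9) h8
  -- the sets of exceptions
  let X1 : Finset ℤ := (Ioc N (N + (M : ℤ))).filter (fun t => ¬ ((∀ j, (allf g f j).eval t ≠ 0) ∧
      (sc a f c g - δ / 2) * Real.log (Real.log M) +
      ((C1x ((DG c g * UP a f 0).eval t) ((DG c g * UP a f 1).eval t)).card : ℝ) +
      ((C2x ((DG c g * UP a f 0).eval t) ((DG c g * UP a f 1).eval t)).card : ℝ) ≤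
      ((GA ((DG c g * UP a f 0).eval t) ((DG c g * UP a f 1).eval t)).card : ℝ) +
      ((GD ((DG c g * UP a f 0).eval t) ((DG c g * UP a f 1).eval t)).card : ℝ)))
  let X2 : Finset ℤ := (Ioc N (N + (M : ℤ))).filter (fun t => ¬ ((∀ j, (allf g f j).eval t ≠ 0) ∧
      ((S2 ((DG c g * UP a f 0).eval t) ((DG c g * UP a f 1).eval t)).card : ℝ) ≤
      ((C1g ((DG c g * UP a f 0).eval t) ((DG c g * UP a f 1).eval t)).card : ℝ) +
      ((C2g ((DG c g * UP a f 0).eval t) ((DG c g * UP a f 1).eval t)).card : ℝ) +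
      (sc a f c g + δ / 2) * Real.log (Real.log M)))
  let X3 : Finset ℤ := (Ioc N (N + (M : ℤ))).filter (fun t => t ∈ Z)
  let X4 : Finset ℤ := (Ioc N (N + (M : ℤ))).filter (fun t => t ∉ Z ∧ 2 ^ (R + 1) ≤ Q t)
  have c1 : (X1.card : ℝ) ≤ ε / 4 * M := by convert h1
  have c2 : (X2.card : ℝ) ≤ ε / 4 * M := by convert h1'
  have c3 : (X3.card : ℝ) ≤ ε / 4 * M := by convert h2
  have c4 : (X4.card : ℝ) ≤ ε / 4 * M := h5
  have h10 : (Ioc N (N + (M : ℤ))).filter (fun t => ¬ ∀ A B : ℤ,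
        A = (DG c g * UP a f 0).eval t →
        B = (DG c g * UP a f 1).eval t → A ≠ 0 ∧ B ≠ 0 ∧ A ≠ B ∧
        (sc a f c g - δ) * Real.log (Real.log M) ≤ fo (-(A + B)) (A * B) ∧
        (fo (-(A + B)) (A * B) : ℝ) ≤ (sc a f c g + δ) * Real.log (Real.log M) ∧
        fo (2 * (A + B)) ((A - B) ^ 2) ≤ R ∧ rk (EQ A B) ≤ R) ⊆ (X1 ∪ X2) ∪ (X3 ∪ X4) := by
    intro t ht
    obtain ⟨ht1, ht2⟩ := mem_filter.1 ht
    by_contra hcon
    rw [mem_union, mem_union, mem_union, not_or, not_or, not_or] at hcon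
    obtain ⟨⟨n1, n2⟩, n3, n4⟩ := hcon
    have n3' : t ∉ Z := fun h' => n3 (mem_filter.2 ⟨ht1, h'⟩)
    have n4' : Q t < 2 ^ (R + 1) := by
      by_contra h'
      exact n4 (mem_filter.2 ⟨ht1, n3', not_lt.1 h'⟩)
    have n1' := not_not.1 (fun h' => n1 (mem_filter.2 ⟨ht1, h'⟩))
    have n2' := not_not.1 (fun h' => n2 (mem_filter.2 ⟨ht1, h'⟩))
    apply ht2
    rintro A B rfl rfl
    have e1 : ∀ k, (DG c g * UP a f k).eval t ≠ 0 := fun k => hZ2 t n3' k
    have e2 : (DG c g * UP a f 0).eval t ≠ (DG c g * UP a f 1).eval t := by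
      intro h'
      apply e1 2
      rw [← hU, mul_sub, eval_sub, h', sub_self]
    obtain ⟨o1, o2, o3, o4⟩ := one hql hqm hA1 hB1 hC1 hpa hpb hlin (e1 0) (e1 1) e2 n4'
    refine ⟨e1 0, e1 1, e2, ?_, ?_, o3, o4⟩
    · have o1' : ((GA ((DG c g * UP a f 0).eval t) ((DG c g * UP a f 1).eval t)).card : ℝ) +
          ((GD ((DG c g * UP a f 0).eval t) ((DG c g * UP a f 1).eval t)).card : ℝ) ≤
          fo (-((DG c g * UP a f 0).eval t + (DG c g * UP a f 1).eval t))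
            ((DG c g * UP a f 0).eval t * (DG c g * UP a f 1).eval t) +
          ((C1x ((DG c g * UP a f 0).eval t) ((DG c g * UP a f 1).eval t)).card : ℝ) +
          ((C2x ((DG c g * UP a f 0).eval t) ((DG c g * UP a f 1).eval t)).card : ℝ) + 5 := by
        exact_mod_cast o1
      have hR0 : (0 : ℝ) ≤ R := Nat.cast_nonneg _
      linarith [n1'.2]
    · have o2' : (fo (-((DG c g * UP a f 0).eval t + (DG c g * UP a f 1).eval t))
            ((DG c g * UP a f 0).eval t * (DG c g * UP a f 1).eval t) : ℝ) +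
          (((C1g ((DG c g * UP a f 0).eval t) ((DG c g * UP a f 1).eval t)).card : ℝ) +
          ((C2g ((DG c g * UP a f 0).eval t) ((DG c g * UP a f 1).eval t)).card : ℝ)) ≤
          ((S2 ((DG c g * UP a f 0).eval t) ((DG c g * UP a f 1).eval t)).card : ℝ) + R + 11 := by
        exact_mod_cast o2
      linarith [n2'.2]
  have h11 := (card_le_card h10).trans ((card_union_le _ _).trans
    (Nat.add_le_add (card_union_le _ _) (card_union_le _ _)))
  have h14 : (((Ioc N (N + (M : ℤ))).filter (fun t => ¬ ∀ A B : ℤ,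
        A = (DG c g * UP a f 0).eval t →
        B = (DG c g * UP a f 1).eval t → A ≠ 0 ∧ B ≠ 0 ∧ A ≠ B ∧
        (sc a f c g - δ) * Real.log (Real.log M) ≤ fo (-(A + B)) (A * B) ∧
        (fo (-(A + B)) (A * B) : ℝ) ≤ (sc a f c g + δ) * Real.log (Real.log M) ∧
        fo (2 * (A + B)) ((A - B) ^ 2) ≤ R ∧ rk (EQ A B) ≤ R)).card : ℝ) ≤
      ((X1.card : ℝ) + (X2.card : ℝ)) + ((X3.card : ℝ) + (X4.card : ℝ)) := by
    exact_mod_cast h11
  linarith

end

end Pool.Agent.TH841.NO
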