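import Mathlib
import Pool.Agent.TH841.NO.Main
import Pool.Agent.TH841.LS.Main4

/-!
# Project NO: the normal order of the 2-isogeny Selmer rank for coprime pairs in short squares
-/

set_option autoImplicit false

namespace Pool.Agent.TH841.NO

open Finset

open Pool.Agent.TH841.SH.D (rk)

open Pool.Agent.TH841.LS (CNT2X GA GD C1x C2x big_loglog)

open Pool.Agent.TH841.PT (EQ)

open Pool.Agent.W307.SE (SN SN_nonneg)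

open Pool.Agent.W307.FK (AVGN SS)

open Classical in
/-- **the normal order of the 2-isogeny Selmer rank for almost all coprime pairs** -/
theorem norder2 (hql : QUL) (hqm : QUM) (hA1 : LWA) (hB1 : LWB) (hC1 : LWC) (hpa : PRA)
    (hpb : PRB) (hlin : LIN2) (hcnt : CNT2X) (hcnu : CNTU2)
    (havg : AVGN) (D : ℤ) (hD : D ≠ 0) (δ ε : ℝ) (L : ℕ) (hδ : 0 < δ) (hε : 0 < ε) :
    ∃ R X0 : ℕ, ∀ (N1 N2 : ℤ) (X : ℕ), X0 ≤ X → N1.natAbs ≤ X ^ L → N2.natAbs ≤ X ^ L →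
      (((Icc 1 X ×ˢ Icc 1 X).filter (fun t : ℕ × ℕ =>
        IsCoprime (N1 + (t.1 : ℤ)) (N2 + (t.2 : ℤ)) ∧
        ¬ ∀ A B : ℤ, A = D * (N1 + (t.1 : ℤ)) → B = D * (N2 + (t.2 : ℤ)) →
        A ≠ 0 ∧ B ≠ 0 ∧ A ≠ B ∧
        (3 / 2 - δ) * Real.log (Real.log X) ≤ fo (-(A + B)) (A * B) ∧
        (fo (-(A + B)) (A * B) : ℝ) ≤ (3 / 2 + δ) * Real.log (Real.log X) ∧
        fo (2 * (A + B)) ((A - B) ^ 2) ≤ R ∧ rk (EQ A B) ≤ R)).card : ℝ) ≤ ε * X ^ 2 := by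
  obtain ⟨X1, hX1⟩ := hcnt D hD (δ / 2) (ε / 3) L (by positivity) (by positivity)
  obtain ⟨X2, hX2⟩ := hcnu D hD (δ / 2) (ε / 3) L (by positivity) (by positivity)
  obtain ⟨C0, hC0, hC⟩ := havg L
  set C1' : ℝ := C0 * 128 ^ D.natAbs.primeFactors.card with hC1'
  have hC1'0 : 0 ≤ C1' := by positivity
  obtain ⟨R, hR⟩ : ∃ R : ℕ, 3 * C1' / ε ≤ 2 ^ (R + 1) := by
    obtain ⟨R, hR⟩ := pow_unbounded_of_one_lt (3 * C1' / ε) (one_lt_two : (1 : ℝ) < 2)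
    exact ⟨R, hR.le.trans (pow_le_pow_right₀ (by norm_num) (by omega))⟩
  obtain ⟨M3, hM3⟩ := big_loglog (δ / 2) ((R : ℝ) + 11) (by positivity)
  refine ⟨R, X1 + X2 + M3 + 1, fun N1 N2 X hX hN1 hN2 => ?_⟩
  have h1 := hX1 N1 N2 X (by omega) hN1 hN2
  have h2 := hX2 N1 N2 X (by omega) hN1 hN2
  have h3 := hC D N1 N2 X hD (by omega) hN1 hN2
  have h4 := hM3 X (by omega)
  let bad : Finset (ℕ × ℕ) := (Icc 1 X ×ˢ Icc 1 X).filter (fun t : ℕ × ℕ =>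
    (IsCoprime (N1 + (t.1 : ℤ)) (N2 + (t.2 : ℤ)) ∧ N1 + (t.1 : ℤ) ≠ 0 ∧ N2 + (t.2 : ℤ) ≠ 0 ∧
      N1 + (t.1 : ℤ) ≠ N2 + (t.2 : ℤ)) ∧ 2 ^ (R + 1) ≤
      SN (D * (N1 + (t.1 : ℤ))) (D * (N2 + (t.2 : ℤ))))
  have h5 : (bad.card : ℝ) ≤ ε / 3 * X ^ 2 := by
    have h6 : ∀ t ∈ bad, (2 : ℝ) ^ (R + 1) ≤ SS D (N1 + (t.1 : ℤ), N2 + (t.2 : ℤ)) := by
      intro t ht
      obtain ⟨_, ⟨c1, c2, c3, c4⟩, b6⟩ := mem_filter.1 ht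
      have b7 : (1 : ℝ) ≤ SN (D * (N1 + (t.1 : ℤ))) (D * (N2 + (t.2 : ℤ))) :=
        (one_le_pow₀ (by norm_num)).trans b6
      unfold SS
      rw [if_pos ⟨c1, c2, c3, c4⟩]
      change (2 : ℝ) ^ (R + 1) ≤ SN (D * (N1 + (t.1 : ℤ))) (D * (N2 + (t.2 : ℤ))) ^ 2
      nlinarith
    have h7 : (bad.card : ℝ) * 2 ^ (R + 1) ≤ C1' * X ^ 2 := by
      rw [← nsmul_eq_mul]
      refine (card_nsmul_le_sum _ _ _ h6).trans (le_trans ?_ h3)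
      refine sum_le_sum_of_subset_of_nonneg (filter_subset _ _) fun t _ _ => ?_
      unfold SS
      split_ifs
      · positivity
      · exact le_rfl
    have h8 : (0 : ℝ) < 2 ^ (R + 1) := by positivity
    rw [div_le_iff₀ hε] at hR
    have h9 : C1' * X ^ 2 ≤ (ε / 3 * X ^ 2) * 2 ^ (R + 1) := by
      have h10 : (0 : ℝ) ≤ (X : ℝ) ^ 2 := by positivity
      nlinarith
    exact le_of_mul_le_mul_right (h7.trans h9) h8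
  let Y1 : Finset (ℕ × ℕ) := (Icc 1 X ×ˢ Icc 1 X).filter (fun t : ℕ × ℕ =>
      IsCoprime (N1 + (t.1 : ℤ)) (N2 + (t.2 : ℤ)) ∧
      ¬ (N1 + (t.1 : ℤ) ≠ 0 ∧ N2 + (t.2 : ℤ) ≠ 0 ∧ N1 + (t.1 : ℤ) ≠ N2 + (t.2 : ℤ) ∧
        (3 / 2 - δ / 2) * Real.log (Real.log X) +
          ((C1x (D * (N1 + (t.1 : ℤ))) (D * (N2 + (t.2 : ℤ)))).card : ℝ) +
          ((C2x (D * (N1 + (t.1 : ℤ))) (D * (N2 + (t.2 : ℤ)))).card : ℝ) ≤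
        ((GA (D * (N1 + (t.1 : ℤ))) (D * (N2 + (t.2 : ℤ)))).card : ℝ) +
        ((GD (D * (N1 + (t.1 : ℤ))) (D * (N2 + (t.2 : ℤ)))).card : ℝ)))
  let Y2 : Finset (ℕ × ℕ) := (Icc 1 X ×ˢ Icc 1 X).filter (fun t : ℕ × ℕ =>
      IsCoprime (N1 + (t.1 : ℤ)) (N2 + (t.2 : ℤ)) ∧
      ¬ (N1 + (t.1 : ℤ) ≠ 0 ∧ N2 + (t.2 : ℤ) ≠ 0 ∧ N1 + (t.1 : ℤ) ≠ N2 + (t.2 : ℤ) ∧
        ((S2 (D * (N1 + (t.1 : ℤ))) (D * (N2 + (t.2 : ℤ)))).card : ℝ) ≤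
        ((C1g (D * (N1 + (t.1 : ℤ))) (D * (N2 + (t.2 : ℤ)))).card : ℝ) +
          (3 / 2 + δ / 2) * Real.log (Real.log X)))
  have c1 : (Y1.card : ℝ) ≤ ε / 3 * X ^ 2 := by convert h1
  have c2 : (Y2.card : ℝ) ≤ ε / 3 * X ^ 2 := by convert h2
  have h10 : (Icc 1 X ×ˢ Icc 1 X).filter (fun t : ℕ × ℕ =>
        IsCoprime (N1 + (t.1 : ℤ)) (N2 + (t.2 : ℤ)) ∧
        ¬ ∀ A B : ℤ, A = D * (N1 + (t.1 : ℤ)) → B = D * (N2 + (t.2 : ℤ)) →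
        A ≠ 0 ∧ B ≠ 0 ∧ A ≠ B ∧
        (3 / 2 - δ) * Real.log (Real.log X) ≤ fo (-(A + B)) (A * B) ∧
        (fo (-(A + B)) (A * B) : ℝ) ≤ (3 / 2 + δ) * Real.log (Real.log X) ∧
        fo (2 * (A + B)) ((A - B) ^ 2) ≤ R ∧ rk (EQ A B) ≤ R) ⊆ Y1 ∪ (Y2 ∪ bad) := by
    intro t ht
    obtain ⟨ht1, ht2, ht3⟩ := mem_filter.1 ht
    by_contra hcon
    rw [mem_union, mem_union, not_or, not_or] at hcon
    obtain ⟨n1, n2, n3⟩ := hcon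
    have n1' := not_not.1 (fun h' => n1 (mem_filter.2 ⟨ht1, ht2, h'⟩))
    have n2' := not_not.1 (fun h' => n2 (mem_filter.2 ⟨ht1, ht2, h'⟩))
    obtain ⟨m1, m2, m3, m4⟩ := n1'
    have n3' : SN (D * (N1 + (t.1 : ℤ))) (D * (N2 + (t.2 : ℤ))) < 2 ^ (R + 1) := by
      by_contra h'
      exact n3 (mem_filter.2 ⟨ht1, ⟨ht2, m1, m2, m3⟩, not_lt.1 h'⟩)
    apply ht3
    rintro A B rfl rfl
    have k3 : D * (N1 + (t.1 : ℤ)) ≠ D * (N2 + (t.2 : ℤ)) := fun h => m3 (mul_left_cancel₀ hD h)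
    obtain ⟨o1, o2, o3, o4⟩ := one hql hqm hA1 hB1 hC1 hpa hpb hlin (mul_ne_zero hD m1)
      (mul_ne_zero hD m2) k3 n3'
    refine ⟨mul_ne_zero hD m1, mul_ne_zero hD m2, k3, ?_, ?_, o3, o4⟩
    · have o1' : ((GA (D * (N1 + (t.1 : ℤ))) (D * (N2 + (t.2 : ℤ)))).card : ℝ) +
          ((GD (D * (N1 + (t.1 : ℤ))) (D * (N2 + (t.2 : ℤ)))).card : ℝ) ≤
          fo (-(D * (N1 + (t.1 : ℤ)) + D * (N2 + (t.2 : ℤ))))
            (D * (N1 + (t.1 : ℤ)) * (D * (N2 + (t.2 : ℤ)))) +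
          ((C1x (D * (N1 + (t.1 : ℤ))) (D * (N2 + (t.2 : ℤ)))).card : ℝ) +
          ((C2x (D * (N1 + (t.1 : ℤ))) (D * (N2 + (t.2 : ℤ)))).card : ℝ) + 5 := by
        exact_mod_cast o1
      have hR0 : (0 : ℝ) ≤ R := Nat.cast_nonneg _
      linarith
    · have o2' : (fo (-(D * (N1 + (t.1 : ℤ)) + D * (N2 + (t.2 : ℤ))))
            (D * (N1 + (t.1 : ℤ)) * (D * (N2 + (t.2 : ℤ)))) : ℝ) +
          (((C1g (D * (N1 + (t.1 : ℤ))) (D * (N2 + (t.2 : ℤ)))).card : ℝ) +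
          ((C2g (D * (N1 + (t.1 : ℤ))) (D * (N2 + (t.2 : ℤ)))).card : ℝ)) ≤
          ((S2 (D * (N1 + (t.1 : ℤ))) (D * (N2 + (t.2 : ℤ)))).card : ℝ) + R + 11 := by
        exact_mod_cast o2
      have hc0 : (0 : ℝ) ≤ ((C2g (D * (N1 + (t.1 : ℤ))) (D * (N2 + (t.2 : ℤ)))).card : ℝ) :=
        Nat.cast_nonneg _
      linarith [n2'.2.2.2]
  have h11 := (card_le_card h10).trans ((card_union_le _ _).trans
    (Nat.add_le_add_left (card_union_le _ _) _))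
  have h12 : (((Icc 1 X ×ˢ Icc 1 X).filter (fun t : ℕ × ℕ =>
        IsCoprime (N1 + (t.1 : ℤ)) (N2 + (t.2 : ℤ)) ∧
        ¬ ∀ A B : ℤ, A = D * (N1 + (t.1 : ℤ)) → B = D * (N2 + (t.2 : ℤ)) →
        A ≠ 0 ∧ B ≠ 0 ∧ A ≠ B ∧
        (3 / 2 - δ) * Real.log (Real.log X) ≤ fo (-(A + B)) (A * B) ∧
        (fo (-(A + B)) (A * B) : ℝ) ≤ (3 / 2 + δ) * Real.log (Real.log X) ∧
        fo (2 * (A + B)) ((A - B) ^ 2) ≤ R ∧ rk (EQ A B) ≤ R)).card : ℝ) ≤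
      (Y1.card : ℝ) + ((Y2.card : ℝ) + (bad.card : ℝ)) := by
    exact_mod_cast h11
  linarith

end Pool.Agent.TH841.NO
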