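import Mathlib
import Pool.Agent.TH841.NO.Stm
import Pool.Agent.TH460.NO.Pr0

/-!
# Jobs NO-PRA and NO-PRB (helper460): necessary conditions for a local point
-/

set_option autoImplicit false

namespace Pool.Agent.TH841.NO.PRf

theorem pra : Pool.Agent.TH841.NO.PRA := by
  intro p _ A B d h2 _ hA hAB hj hd h
  exact Pool.Agent.TH460.NO.pra0 p A B d h2 hA hAB hj hd h

theorem prb : Pool.Agent.TH841.NO.PRB := by
  intro p _ A B d h2 hA hB hA2 hB2 _ hj hd h
  exact Pool.Agent.TH460.NO.prb0 p A B d h2 hA hB hA2 hB2 hj hd h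

end Pool.Agent.TH841.NO.PRf
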