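import Mathlib
import Pool.Agent.TH841.NO.Stm
import Pool.Agent.TH841.SH.Sel

/-!
# NO-QUL: the quartic of the 2-descent and the points with `X` in the class of `b₁`

Over a field in which `x`, `x - A`, `x - B` are nonzero squares for some `x` (`ℝ`, `ℚ_[p]`), a
nontrivial solution of `N² = b₁ M⁴ + a M² e² + (b / b₁) e⁴` with `M, e ≠ 0` is the point
`X = b₁ (M / e)²`; if `e = 0` then `b₁` is a square and `X = x`; if `M = 0` then `b₁ A B` is a square
and `X = A B / x`.
-/

set_option autoImplicit false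

namespace Pool.Agent.TH841.NO.QULf

/-- the equivalence over a field in which `x`, `x - A`, `x - B` are nonzero squares for some `x` -/
theorem core {K : Type} [Field K] {A B b₁ : ℤ} (hA : (A : K) ≠ 0) (hB : (B : K) ≠ 0)
    (hb : (b₁ : K) ≠ 0) (hb0 : b₁ ≠ 0) (hd : b₁ ∣ A * B)
    (h : ∃ x y : K, y ≠ 0 ∧ y ^ 2 = (x - ((0 : ℤ) : K)) * (x - (A : K)) * (x - (B : K)) ∧
      IsSquare (x - ((0 : ℤ) : K)) ∧ IsSquare (x - (A : K)) ∧ IsSquare (x - (B : K))) :
    Qu K (-(A + B)) (A * B) b₁ ↔ Pool.Agent.TH841.LS.LocI K A B b₁ := by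
  obtain ⟨c, hc⟩ := hd
  have hdiv : A * B / b₁ = c := by rw [hc]; exact Int.mul_ediv_cancel_left c hb0
  have hcK : (A : K) * B = b₁ * c := by exact_mod_cast congrArg (fun z : ℤ => (z : K)) hc
  have hc0 : (c : K) ≠ 0 := by
    intro h0
    rw [h0, mul_zero] at hcK
    exact mul_ne_zero hA hB hcK
  unfold Qu Pool.Agent.TH841.LS.LocI
  rw [hdiv]
  constructor
  · rintro ⟨N, M, e, hne, hN⟩
    push_cast at hN
    obtain ⟨x, y, hy, he, ⟨q, hq⟩, ⟨u, hu⟩, ⟨v, hv⟩⟩ := h
    rw [Int.cast_zero, sub_zero] at he hq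
    have hq0 : q ≠ 0 := by
      rintro rfl
      apply hy
      rw [hq, mul_zero, zero_mul, zero_mul] at he
      exact pow_eq_zero_iff (two_ne_zero) |>.1 he
    by_cases he0 : e = 0
    · -- `b₁` is a square
      subst he0
      have hM : M ≠ 0 := by
        rcases hne with h | h
        · exact h
        · exact absurd rfl h
      have hN2 : N ^ 2 = b₁ * M ^ 4 := by rw [hN]; ring
      have hN0 : N ≠ 0 := by
        rintro rfl
        have : (b₁ : K) * M ^ 4 = 0 := by rw [← hN2]; ring
        exact mul_ne_zero hb (pow_ne_zero 4 hM) this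
      refine ⟨x, q * u * v, q * M ^ 2 / N, ?_, ?_, ?_⟩
      · rw [hq]; exact mul_ne_zero hq0 hq0
      · rw [hu, hv, hq]; ring
      · rw [hq]
        field_simp
        linear_combination hN2
    · by_cases hM : M = 0
      · -- `c` is a square
        subst hM
        have hN2 : N ^ 2 = c * e ^ 4 := by rw [hN]; ring
        refine ⟨A * B / q ^ 2, A * B * u * v / q ^ 3, N / (q * e ^ 2), ?_, ?_, ?_⟩
        · exact div_ne_zero (mul_ne_zero hA hB) (pow_ne_zero 2 hq0)
        · have h1 : (A : K) * B / q ^ 2 - A = - (A * v ^ 2 / q ^ 2) := by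
            have : v ^ 2 = q ^ 2 - B := by rw [sq v, ← hv, hq]; ring
            rw [this]
            field_simp
            ring
          have h2 : (A : K) * B / q ^ 2 - B = - (B * u ^ 2 / q ^ 2) := by
            have : u ^ 2 = q ^ 2 - A := by rw [sq u, ← hu, hq]; ring
            rw [this]
            field_simp
            ring
          rw [h1, h2]
          field_simp
        · rw [hcK, div_pow, hN2]
          field_simp
      · refine ⟨b₁ * (M / e) ^ 2, b₁ * M * N / e ^ 3, M / e, ?_, ?_, rfl⟩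
        · exact mul_ne_zero hb (pow_ne_zero 2 (div_ne_zero hM he0))
        · rw [div_pow, mul_pow, hN]
          field_simp
          linear_combination (-e ^ 4) * hcK
  · rintro ⟨X, Y, r, hX, hY, hr⟩
    have hr0 : r ≠ 0 := by
      rintro rfl
      apply hX
      rw [hr]; ring
    refine ⟨Y / (b₁ * r), r, 1, Or.inl hr0, ?_⟩
    rw [div_pow, hY, hr]
    push_cast
    field_simp
    linear_combination hcK

/-- NO-QUL -/
theorem qul : Pool.Agent.TH841.NO.QUL := by
  intro A B b₁ hA hB _ hb hd
  refine ⟨?_, ?_⟩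
  · exact core (by exact_mod_cast hA) (by exact_mod_cast hB) (by exact_mod_cast hb) hb hd
      (Pool.Agent.TH841.SH.pt_real 0 A B)
  · intro p hp
    exact core (by exact_mod_cast hA) (by exact_mod_cast hB) (by exact_mod_cast hb) hb hd
      (Pool.Agent.TH841.SH.pt_pad p 0 A B)

end Pool.Agent.TH841.NO.QULf
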