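import Mathlib
import Pool.Agent.TH841.NO.Stm
import Pool.Agent.TH231.NO.QumCore

/-!
# NO-QUM: the quartic of the isogenous curve gives the class `(1, b₁)` (helper231)
-/

set_option autoImplicit false

namespace Pool.Agent.TH841.NO.QUMf

open Pool.Agent.TH231.NO

lemma one_field {K : Type} [Field K] [CharZero K] (H : Scal K) (A B b₁ : ℤ) (hA : A ≠ 0)
    (hB : B ≠ 0) (hAB : A ≠ B) (hb : b₁ ≠ 0) (hd : b₁ ∣ (A - B) ^ 2)
    (h : Pool.Agent.TH841.NO.Qu K (2 * (A + B)) ((A - B) ^ 2) b₁) :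
    Pool.Agent.W307.SE.Loc K A B 1 b₁ := by
  obtain ⟨c, hc⟩ := hd
  have hq : (A - B) ^ 2 / b₁ = c := by
    rw [hc]
    exact Int.mul_ediv_cancel_left c hb
  have hγ : ((b₁ : ℤ) : K) ≠ 0 := Int.cast_ne_zero.2 hb
  have hcd : (b₁ : K) * (c : K) = ((A : K) - (B : K)) ^ 2 := by
    have h1 := congrArg (Int.cast : ℤ → K) hc
    push_cast at h1
    exact h1.symm
  obtain ⟨N, M, e, hMe, hN⟩ := h
  rw [hq] at hN
  push_cast at hN
  obtain ⟨x, y, hy, hxy, hx, hxA⟩ := core H A B (b₁ : K) (c : K) hA hB hAB hγ hcd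
    ⟨N, M, e, hMe, hN⟩
  refine ⟨x, y, hy, hxy, ?_, hxA⟩
  rw [Int.cast_one, mul_one]
  exact hx

/-- NO-QUM: the quartics of the isogenous curve and the pairs `(1, b₁)`. -/
theorem qum : Pool.Agent.TH841.NO.QUM := by
  intro A B b₁ hA hB hAB hb hd
  exact ⟨fun h => one_field scal_real A B b₁ hA hB hAB hb hd h,
    fun p _ h => one_field (scal_padic p) A B b₁ hA hB hAB hb hd h⟩

end Pool.Agent.TH841.NO.QUMf
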