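import Mathlib
import Pool.Agent.TH841.NO.Stm
import Pool.Agent.H474R2.GE.FA
import Pool.Agent.H474R2.PG.MertensF
import Pool.Agent.TH626.TKL.Ext2

/-!
# NO-TKL: for almost all `t` the sum of the symbols `(w(t) / p)` over the prime factors `p` of
`f(t)` is not very negative, if `w` is not a square modulo `f`
(job 4713 of helper841, written by helper626)
-/

set_option autoImplicit false

namespace Pool.Agent.TH841.NO.TKLf

open Finset Polynomial Pool.Agent.W262.RK Pool.Agent.TH841.PM.BADf Pool.Agent.TH841.LS.TKXf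

open Pool.Agent.H474R2.PG (rho)

/-- the theorem of Mertens for the roots of a polynomial -/
lemma mert {f : ℤ[X]} (hf : Irreducible f) (hd : 0 < f.natDegree) {z : ℕ} (hz : 3 ≤ z) :
    ∃ C : ℝ, 0 ≤ C ∧ ∀ y, z < y → |SS f z y - Real.log (Real.log y)| ≤ C := by
  obtain ⟨C, hC0, hC⟩ := Pool.Agent.H474R2.GE.mertens_rho f hf hd
  set A : ℝ := ∑ p ∈ (Icc 1 z).filter Nat.Prime, (rho f p : ℝ) / (p : ℝ) with hA
  have hA0 : 0 ≤ A := sum_nonneg fun p _ => by positivity
  refine ⟨C + A, by positivity, fun y hy => ?_⟩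
  have h1 := hC y (by exact_mod_cast (by omega : 3 ≤ y))
  have h2 : Pool.Agent.H474R2.PG.Sg (rho f) (y : ℝ) = A + SS f z y := by
    unfold Pool.Agent.H474R2.PG.Sg SS
    have h3 : Pool.Agent.H474R2.PG.PR (y : ℝ) = (Icc 1 z).filter Nat.Prime ∪ PS z y := by
      ext p
      unfold Pool.Agent.H474R2.PG.PR PS
      rw [Nat.floor_natCast, mem_filter, mem_union, mem_filter, mem_filter, mem_Icc, mem_Icc,
        mem_Ioc]
      constructor
      · rintro ⟨⟨h3, h4⟩, h5⟩
        by_cases h6 : p ≤ z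
        · exact Or.inl ⟨⟨h3, h6⟩, h5⟩
        · exact Or.inr ⟨⟨by omega, h4⟩, h5⟩
      · rintro (⟨⟨h3, h4⟩, h5⟩ | ⟨⟨h3, h4⟩, h5⟩)
        · exact ⟨⟨h3, by omega⟩, h5⟩
        · exact ⟨⟨by omega, h4⟩, h5⟩
    rw [h3, sum_union]
    rw [disjoint_left]
    intro p hp hp'
    unfold PS at hp'
    rw [mem_filter, mem_Icc] at hp
    rw [mem_filter, mem_Ioc] at hp'
    omega
  rw [h2, abs_le] at h1
  rw [abs_le]
  constructor <;> linarith [h1.1, h1.2]

/-- the size of the values -/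
lemma eval_le (D : ℤ[X]) : ∃ K : ℕ, ∀ (x : ℤ) (m : ℕ), 1 ≤ m → x.natAbs ≤ m →
    (D.eval x).natAbs ≤ K * m ^ D.natDegree := by
  refine ⟨∑ i ∈ range (D.natDegree + 1), (D.coeff i).natAbs, fun x m hm hx => ?_⟩
  rw [eval_eq_sum_range, sum_mul]
  refine (Int.natAbs_sum_le _ _).trans (sum_le_sum fun i hi => ?_)
  rw [Int.natAbs_mul, Int.natAbs_pow]
  refine Nat.mul_le_mul_left _ ?_
  refine (Nat.pow_le_pow_left hx i).trans (Nat.pow_le_pow_right hm ?_)
  have := mem_range.1 hi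
  omega

/-- **NO-TKL** -/
theorem tkl : Pool.Agent.TH841.NO.TKL := by
  intro f w hf hd hns δ ε L hδ hε
  classical
  obtain ⟨z0, hz0⟩ := Pool.Agent.H474R2.PG.rho_le f hf.ne_zero
  obtain ⟨g, hg, hgd, z1, hz1⟩ := Pool.Agent.TH626.TKL.ext f w hf hd hns
  obtain ⟨z, hz⟩ : ∃ z : ℕ, z = z0 + z1 + 3 := ⟨_, rfl⟩
  obtain ⟨C1, hC10, hC1⟩ := mert hg hgd (z := z) (by omega)
  obtain ⟨C2, hC20, hC2⟩ := mert hf hd (z := z) (by omega)
  obtain ⟨M0, hM0⟩ := Pool.Agent.TH626.TKL.coreL f w z f.natDegree L (C1 + C2)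
    (add_nonneg hC10 hC20) (by omega)
    (fun p hp hzp => hz0 p hp (by omega))
    (fun y hy => by
      have h1 := (abs_le.1 (hC2 y hy)).2
      linarith)
    (fun y hy => by
      have h1 := (abs_le.1 (hC2 y hy)).2
      have h2 := (abs_le.1 (hC1 y hy)).1
      have h3 := Pool.Agent.TH626.TKL.MU_ge f g w z y (fun p hp hzp => hz1 p hp (by omega))
      linarith)
    (eval_le f) δ ε hδ hε
  refine ⟨M0 + 3, fun N M hM hN => ?_⟩
  have hLL : 0 ≤ Real.log (Real.log M) := by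
    have h3 : (3 : ℝ) ≤ M := by exact_mod_cast (by omega : 3 ≤ M)
    apply Real.log_nonneg
    rw [Real.le_log_iff_exp_le (by linarith)]
    have := Real.exp_one_lt_d9
    linarith
  refine hM0 N M (by omega) hN _ (filter_subset _ _) ?_ ?_
  · intro t ht h0
    rw [mem_filter] at ht
    apply ht.2
    rw [h0]
    simp only [Int.natAbs_zero, Nat.primeFactors_zero, sum_empty]
    have := mul_nonneg hδ.le hLL
    linarith
  · intro t ht
    rw [mem_filter] at ht
    exact not_le.1 ht.2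

end Pool.Agent.TH841.NO.TKLf
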