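import Mathlib
import Pool.Agent.TH841.NO.Main
import Pool.Agent.TH841.NO.Main2
import Pool.Agent.TH841.NO.Lwa
import Pool.Agent.TH841.NO.Lwb
import Pool.Agent.TH841.NO.Pr
import Pool.Agent.TH841.NO.Qul
import Pool.Agent.TH841.NO.Qum
import Pool.Agent.TH841.NO.Lin2
import Pool.Agent.TH841.NO.Tkl
import Pool.Agent.TH841.NO.Cntu
import Pool.Agent.TH841.NO.Cntu2
import Pool.Agent.TH841.LS.Tkx
import Pool.Agent.TH841.LS.Cntx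
import Pool.Agent.TH841.LS.Cnt2x

/-!
# Project NO: the final theorems
-/

set_option autoImplicit false

namespace Pool.Agent.TH841.NO

open Finset Polynomial

open Pool.Agent.TH841.SH.D (rk)

open Pool.Agent.TH841.LS (DG sc big_loglog)

open Pool.Agent.TH841.PT (EQ Irr)

open Pool.Agent.TH841.TR (UP allf Bal)

/-- the 2-isogeny Selmer rank of `y² = x³ + a x² + b x` -/
noncomputable def sr (a b : ℤ) : ℤ := fo a b + fo (-2 * a) (a ^ 2 - 4 * b) - 2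

/-- the curve `y² = x³ + a x² + b x` -/
def Cu (a b : ℤ) : WeierstrassCurve ℚ := ⟨0, (a : ℚ), 0, (b : ℚ), 0⟩

lemma Cu_eq (A B : ℤ) : Cu (-(A + B)) (A * B) = EQ A B := by
  unfold Cu EQ
  congr 1
  · push_cast
    ring
  · push_cast
    ring

/-- from `f₁`, `f₂` to `s` -/
lemma sr_of {A B : ℤ} {R : ℕ} {κ δ l : ℝ} (h1 : (κ - δ / 2) * l ≤ fo (-(A + B)) (A * B))
    (h2 : (fo (-(A + B)) (A * B) : ℝ) ≤ (κ + δ / 2) * l)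
    (h3 : fo (2 * (A + B)) ((A - B) ^ 2) ≤ R) (h4 : (R : ℝ) + 2 ≤ δ / 2 * l) :
    fo (-2 * -(A + B)) ((-(A + B)) ^ 2 - 4 * (A * B)) ≤ R ∧
      |(sr (-(A + B)) (A * B) : ℝ) - κ * l| ≤ δ * l := by
  have e1 : -2 * -(A + B) = 2 * (A + B) := by ring
  have e2 : (-(A + B)) ^ 2 - 4 * (A * B) = (A - B) ^ 2 := by ring
  rw [e1, e2]
  refine ⟨h3, ?_⟩
  unfold sr
  rw [e1, e2]
  push_cast
  have h5 : (0 : ℝ) ≤ (fo (2 * (A + B)) ((A - B) ^ 2) : ℝ) := Nat.cast_nonneg _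
  have h6 : (fo (2 * (A + B)) ((A - B) ^ 2) : ℝ) ≤ R := by exact_mod_cast h3
  rw [abs_le]
  constructor
  · linarith
  · linarith

open Classical in
/-- **the normal order of the 2-isogeny Selmer rank in a pencil** -/
theorem final {n : Fin 3 → ℕ} {m : ℕ} (a : Fin 3 → ℤ)
    (f : ∀ k : Fin 3, Fin (n k) → ℤ[X]) (c : ℤ) (g : Fin m → ℤ[X])
    (ha : ∀ k, a k ≠ 0) (hc : c ≠ 0) (hf : Irr (allf g f))
    (hU : UP a f 0 - UP a f 1 = UP a f 2)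
    (hn : (∀ k, 2 * n k < n 0 + n 1 + n 2) ∨ Bal (DG c g) a f) (δ ε : ℝ) (L : ℕ)
    (hδ : 0 < δ) (hε : 0 < ε) :
    ∃ R M0 : ℕ, ∀ (N : ℤ) (M : ℕ), M0 ≤ M → |N| ≤ (M : ℤ) ^ L →
      (((Ioc N (N + (M : ℤ))).filter (fun t => ¬ ∀ A B : ℤ, A = (DG c g * UP a f 0).eval t →
        B = (DG c g * UP a f 1).eval t → A ≠ 0 ∧ B ≠ 0 ∧ A ≠ B ∧
        rk (Cu (-(A + B)) (A * B)) ≤ R ∧
        fo (-2 * -(A + B)) ((-(A + B)) ^ 2 - 4 * (A * B)) ≤ R ∧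
        |(sr (-(A + B)) (A * B) : ℝ) - sc a f c g * Real.log (Real.log M)| ≤
          δ * Real.log (Real.log M))).card : ℝ) ≤ ε * M := by
  obtain ⟨R, M0, h⟩ := norder QULf.qul QUMf.qum LWAf.lwa LWBf.lwb LWBf.lwc PRf.pra PRf.prb
    LIN2f.lin2 (LS.CNTXf.cntx_of LS.TKXf.tkx) (CNTUf.cntu_of LS.TKXf.tkx TKLf.tkl)
    Pool.Agent.TH841.PM.tavz Pool.Agent.TH841.TR.tav3x a f c g ha hc hf hU hn (δ / 2) ε L
    (by positivity) hε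
  obtain ⟨M3, hM3⟩ := big_loglog (δ / 2) ((R : ℝ) + 2) (by positivity)
  refine ⟨R, M0 + M3, fun N M hM hN => le_trans ?_ (h N M (by omega) hN)⟩
  have h4 := hM3 M (by omega)
  have hsub : ∀ t : ℤ, (∀ A B : ℤ, A = (DG c g * UP a f 0).eval t →
        B = (DG c g * UP a f 1).eval t → A ≠ 0 ∧ B ≠ 0 ∧ A ≠ B ∧
        (sc a f c g - δ / 2) * Real.log (Real.log M) ≤ fo (-(A + B)) (A * B) ∧
        (fo (-(A + B)) (A * B) : ℝ) ≤ (sc a f c g + δ / 2) * Real.log (Real.log M) ∧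
        fo (2 * (A + B)) ((A - B) ^ 2) ≤ R ∧ rk (EQ A B) ≤ R) →
      ∀ A B : ℤ, A = (DG c g * UP a f 0).eval t →
        B = (DG c g * UP a f 1).eval t → A ≠ 0 ∧ B ≠ 0 ∧ A ≠ B ∧
        rk (Cu (-(A + B)) (A * B)) ≤ R ∧
        fo (-2 * -(A + B)) ((-(A + B)) ^ 2 - 4 * (A * B)) ≤ R ∧
        |(sr (-(A + B)) (A * B) : ℝ) - sc a f c g * Real.log (Real.log M)| ≤
          δ * Real.log (Real.log M) := by
    intro t ht A B hA hB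
    obtain ⟨k1, k2, k3, k4, k5, k6, k7⟩ := ht A B hA hB
    rw [Cu_eq]
    obtain ⟨l1, l2⟩ := sr_of k4 k5 k6 h4
    exact ⟨k1, k2, k3, k7, l1, l2⟩
  refine Nat.cast_le.2 (card_le_card ?_)
  intro t ht
  rw [mem_filter] at ht ⊢
  exact ⟨ht.1, fun ht' => ht.2 (hsub t ht')⟩

open Classical in
/-- **the normal order of the 2-isogeny Selmer rank for coprime pairs** -/
theorem final2 (D : ℤ) (hD : D ≠ 0) (δ ε : ℝ) (L : ℕ) (hδ : 0 < δ) (hε : 0 < ε) :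
    ∃ R X0 : ℕ, ∀ (N1 N2 : ℤ) (X : ℕ), X0 ≤ X → N1.natAbs ≤ X ^ L → N2.natAbs ≤ X ^ L →
      (((Icc 1 X ×ˢ Icc 1 X).filter (fun t : ℕ × ℕ =>
        IsCoprime (N1 + (t.1 : ℤ)) (N2 + (t.2 : ℤ)) ∧
        ¬ ∀ A B : ℤ, A = D * (N1 + (t.1 : ℤ)) → B = D * (N2 + (t.2 : ℤ)) →
        A ≠ 0 ∧ B ≠ 0 ∧ A ≠ B ∧
        rk (Cu (-(A + B)) (A * B)) ≤ R ∧
        fo (-2 * -(A + B)) ((-(A + B)) ^ 2 - 4 * (A * B)) ≤ R ∧
        |(sr (-(A + B)) (A * B) : ℝ) - 3 / 2 * Real.log (Real.log X)| ≤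
          δ * Real.log (Real.log X))).card : ℝ) ≤ ε * X ^ 2 := by
  obtain ⟨R, X0, h⟩ := norder2 QULf.qul QUMf.qum LWAf.lwa LWBf.lwb LWBf.lwc PRf.pra PRf.prb
    LIN2f.lin2 LS.CNT2Xf.cnt2x CNTU2f.cntu2
    (Pool.Agent.W307.FK.avgn_of Pool.Agent.W307.FK.expf) D hD (δ / 2) ε L (by positivity) hε
  obtain ⟨M3, hM3⟩ := big_loglog (δ / 2) ((R : ℝ) + 2) (by positivity)
  refine ⟨R, X0 + M3, fun N1 N2 X hX hN1 hN2 => le_trans ?_ (h N1 N2 X (by omega) hN1 hN2)⟩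
  have h4 := hM3 X (by omega)
  have hsub : ∀ t : ℕ × ℕ, (∀ A B : ℤ, A = D * (N1 + (t.1 : ℤ)) →
        B = D * (N2 + (t.2 : ℤ)) → A ≠ 0 ∧ B ≠ 0 ∧ A ≠ B ∧
        (3 / 2 - δ / 2) * Real.log (Real.log X) ≤ fo (-(A + B)) (A * B) ∧
        (fo (-(A + B)) (A * B) : ℝ) ≤ (3 / 2 + δ / 2) * Real.log (Real.log X) ∧
        fo (2 * (A + B)) ((A - B) ^ 2) ≤ R ∧ rk (EQ A B) ≤ R) →
      ∀ A B : ℤ, A = D * (N1 + (t.1 : ℤ)) → B = D * (N2 + (t.2 : ℤ)) →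
        A ≠ 0 ∧ B ≠ 0 ∧ A ≠ B ∧
        rk (Cu (-(A + B)) (A * B)) ≤ R ∧
        fo (-2 * -(A + B)) ((-(A + B)) ^ 2 - 4 * (A * B)) ≤ R ∧
        |(sr (-(A + B)) (A * B) : ℝ) - 3 / 2 * Real.log (Real.log X)| ≤
          δ * Real.log (Real.log X) := by
    intro t ht A B hA hB
    obtain ⟨k1, k2, k3, k4, k5, k6, k7⟩ := ht A B hA hB
    rw [Cu_eq]
    obtain ⟨l1, l2⟩ := sr_of k4 k5 k6 h4
    exact ⟨k1, k2, k3, k7, l1, l2⟩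
  refine Nat.cast_le.2 (card_le_card ?_)
  intro t ht
  rw [mem_filter] at ht ⊢
  exact ⟨ht.1, ht.2.1, fun ht' => ht.2.2 (hsub t ht')⟩

end Pool.Agent.TH841.NO
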